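import Mathlib

/-!
Counting lattice points in simplices: comparison of weights.
-/

set_option autoImplicit false

namespace Pool.Agent.W235.CY

open Finset

section

variable {σ : Type} [Fintype σ]

/-- the lattice points of weight at most `n` -/
def LP (a : σ → ℕ) (n : ℕ) : Set (σ → ℕ) := {α | ∑ i, a i * α i ≤ n}

theorem LP_finite (a : σ → ℕ) (ha : ∀ i, 1 ≤ a i) (n : ℕ) : (LP a n).Finite := by
  classical
  apply Set.Finite.subset (Fintype.piFinset fun _ : σ => range (n + 1)).finite_toSet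
  intro α hα
  simp only [Finset.mem_coe, Fintype.mem_piFinset, Finset.mem_range]
  intro i
  have h1 : a i * α i ≤ ∑ i, a i * α i :=
    Finset.single_le_sum (f := fun i => a i * α i) (fun _ _ => Nat.zero_le _) (mem_univ i)
  have h2 : α i ≤ a i * α i := Nat.le_mul_of_pos_left _ (ha i)
  have h3 : ∑ i, a i * α i ≤ n := hα
  omega

/-- number of lattice points of weight at most `n` -/
noncomputable def cnt (a : σ → ℕ) (n : ℕ) : ℕ := (LP a n).ncard

theorem cnt_mono (a : σ → ℕ) (ha : ∀ i, 1 ≤ a i) {m n : ℕ} (h : m ≤ n) : cnt a m ≤ cnt a n := by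
  apply Set.ncard_le_ncard _ (LP_finite a ha n)
  intro α hα
  exact le_trans (show ∑ i, a i * α i ≤ m from hα) h

theorem cnt_pos (a : σ → ℕ) (ha : ∀ i, 1 ≤ a i) (n : ℕ) : 1 ≤ cnt a n := by
  rw [Nat.one_le_iff_ne_zero, ← Nat.pos_iff_ne_zero, cnt, Set.ncard_pos (LP_finite a ha n)]
  exact ⟨0, by simp [LP]⟩

theorem cnt_le_pow (n : ℕ) : cnt (fun _ : σ => 1) n ≤ (n + 1) ^ Fintype.card σ := by
  classical
  have h1 : LP (fun _ : σ => 1) n ⊆ ↑(Fintype.piFinset fun _ : σ => range (n + 1)) := by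
    intro α hα
    simp only [Finset.mem_coe, Fintype.mem_piFinset, Finset.mem_range]
    intro i
    have h1 : α i ≤ ∑ i, 1 * α i := by
      have := Finset.single_le_sum (f := fun i => 1 * α i) (fun _ _ => Nat.zero_le _) (mem_univ i)
      simpa using this
    have h3 : ∑ i, 1 * α i ≤ n := hα
    omega
  calc cnt (fun _ : σ => 1) n ≤ (Fintype.piFinset fun _ : σ => range (n + 1)).card := by
        rw [← Set.ncard_coe_finset]
        exact Set.ncard_le_ncard h1 (Finset.finite_toSet _)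
    _ = (n + 1) ^ Fintype.card σ := by
        rw [Fintype.card_piFinset]
        simp

theorem cnt_one_congr {τ : Type} [Fintype τ] (h : Fintype.card σ = Fintype.card τ) (n : ℕ) :
    cnt (fun _ : σ => 1) n = cnt (fun _ : τ => 1) n := by
  let e : σ ≃ τ := Fintype.equivOfCardEq h
  unfold cnt
  apply Set.ncard_congr (fun α _ => fun j => α (e.symm j))
  · intro α hα
    have h1 : ∑ i, 1 * α i ≤ n := hα
    have h2 : ∑ j, 1 * α (e.symm j) = ∑ i, 1 * α i := by
      rw [← e.symm.sum_comp]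
    exact (show ∑ j, 1 * α (e.symm j) ≤ n from h2 ▸ h1)
  · intro α β _ _ hαβ
    funext i
    have := congrFun hαβ (e i)
    simpa using this
  · intro β hβ
    refine ⟨fun i => β (e i), ?_, ?_⟩
    · have h1 : ∑ i, 1 * β i ≤ n := hβ
      have h2 : ∑ j, 1 * β (e j) = ∑ i, 1 * β i := by
        rw [← e.sum_comp]
      exact (show ∑ j, 1 * β (e j) ≤ n from h2 ▸ h1)
    · funext i
      show β (e (e.symm i)) = β i
      rw [e.apply_symm_apply]

/-- upper bound -/
theorem cnt_le (a : σ → ℕ) (ha : ∀ i, 1 ≤ a i) (L : ℕ) (hL : ∀ i, a i ∣ L) (hL0 : 1 ≤ L) (m : ℕ) :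
    cnt a (L * m) ≤ cnt (fun _ : σ => 1) m * ∏ i, (L / a i) := by
  classical
  have hq : ∀ i, 0 < L / a i := fun i => Nat.div_pos (Nat.le_of_dvd hL0 (hL i)) (ha i)
  let f : (σ → ℕ) → (σ → ℕ) × (σ → ℕ) := fun α => (fun i => α i / (L / a i), fun i => α i % (L / a i))
  have hf : Function.Injective f := by
    intro α β h
    funext i
    have h1 := congrFun (congrArg Prod.fst h) i
    have h2 := congrFun (congrArg Prod.snd h) i
    simp only [f] at h1 h2
    rw [← Nat.div_add_mod (α i) (L / a i), ← Nat.div_add_mod (β i) (L / a i), h1, h2]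
  let T : Set ((σ → ℕ) × (σ → ℕ)) := LP (fun _ : σ => 1) m ×ˢ
    (↑(Fintype.piFinset fun i : σ => range (L / a i)) : Set (σ → ℕ))
  have hT : T.Finite := (LP_finite _ (fun _ => le_rfl) m).prod (Finset.finite_toSet _)
  have h1 : f '' LP a (L * m) ⊆ T := by
    rintro _ ⟨α, hα, rfl⟩
    refine ⟨?_, ?_⟩
    · show ∑ i, 1 * (α i / (L / a i)) ≤ m
      have h2 : ∑ i, a i * α i ≤ L * m := hα
      have h3 : ∀ i, L * (α i / (L / a i)) ≤ a i * α i := by
        intro i
        calc L * (α i / (L / a i)) = a i * ((L / a i) * (α i / (L / a i))) := by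
              rw [← mul_assoc, Nat.mul_div_cancel' (hL i)]
          _ ≤ a i * α i := Nat.mul_le_mul_left _ (Nat.mul_div_le _ _)
      have h4 : L * ∑ i, 1 * (α i / (L / a i)) ≤ L * m := by
        rw [Finset.mul_sum]
        refine (Finset.sum_le_sum fun i _ => ?_).trans h2
        rw [one_mul]
        exact h3 i
      exact Nat.le_of_mul_le_mul_left h4 hL0
    · simp only [Finset.mem_coe, Fintype.mem_piFinset, Finset.mem_range]
      intro i
      exact Nat.mod_lt _ (hq i)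
  calc cnt a (L * m) = (f '' LP a (L * m)).ncard := (Set.ncard_image_of_injective _ hf).symm
    _ ≤ T.ncard := Set.ncard_le_ncard h1 hT
    _ = cnt (fun _ : σ => 1) m * ∏ i, (L / a i) := by
        rw [Set.ncard_prod, Set.ncard_coe_finset, Fintype.card_piFinset]
        simp [cnt]

/-- lower bound -/
theorem le_cnt (a : σ → ℕ) (ha : ∀ i, 1 ≤ a i) (L : ℕ) (hL : ∀ i, a i ∣ L) (hL0 : 1 ≤ L) (m : ℕ) :
    cnt (fun _ : σ => 1) m * ∏ i, (L / a i) ≤ cnt a (L * (m + Fintype.card σ)) := by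
  classical
  have hq : ∀ i, 0 < L / a i := fun i => Nat.div_pos (Nat.le_of_dvd hL0 (hL i)) (ha i)
  let T : Set ((σ → ℕ) × (σ → ℕ)) := LP (fun _ : σ => 1) m ×ˢ
    (↑(Fintype.piFinset fun i : σ => range (L / a i)) : Set (σ → ℕ))
  let f : (σ → ℕ) × (σ → ℕ) → (σ → ℕ) := fun p i => (L / a i) * p.1 i + p.2 i
  have hf : Set.InjOn f T := by
    rintro ⟨γ, ρ⟩ ⟨_, h1⟩ ⟨γ', ρ'⟩ ⟨_, h2⟩ h
    simp only [Finset.mem_coe, Fintype.mem_piFinset, Finset.mem_range] at h1 h2
    have h3 : ∀ i, γ i = γ' i ∧ ρ i = ρ' i := by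
      intro i
      have h4 : (L / a i) * γ i + ρ i = (L / a i) * γ' i + ρ' i := congrFun h i
      have h5 : ((L / a i) * γ i + ρ i) / (L / a i) = γ i := by
        rw [Nat.mul_add_div (hq i), Nat.div_eq_of_lt (h1 i), add_zero]
      have h6 : ((L / a i) * γ' i + ρ' i) / (L / a i) = γ' i := by
        rw [Nat.mul_add_div (hq i), Nat.div_eq_of_lt (h2 i), add_zero]
      have h7 : γ i = γ' i := by rw [← h5, ← h6, h4]
      refine ⟨h7, ?_⟩
      rw [h7] at h4
      exact Nat.add_left_cancel h4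
    exact Prod.ext (funext fun i => (h3 i).1) (funext fun i => (h3 i).2)
  have h1 : f '' T ⊆ LP a (L * (m + Fintype.card σ)) := by
    rintro _ ⟨⟨γ, ρ⟩, ⟨h1, h2⟩, rfl⟩
    simp only [Finset.mem_coe, Fintype.mem_piFinset, Finset.mem_range] at h2
    have h3 : ∑ i, 1 * γ i ≤ m := h1
    show ∑ i, a i * ((L / a i) * γ i + ρ i) ≤ L * (m + Fintype.card σ)
    have h4 : ∀ i, a i * ((L / a i) * γ i + ρ i) ≤ L * (1 * γ i) + L := by
      intro i
      rw [mul_add, ← mul_assoc, Nat.mul_div_cancel' (hL i), one_mul]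
      refine Nat.add_le_add_left ?_ _
      calc a i * ρ i ≤ a i * (L / a i) := Nat.mul_le_mul_left _ (h2 i).le
        _ = L := Nat.mul_div_cancel' (hL i)
    calc ∑ i, a i * ((L / a i) * γ i + ρ i) ≤ ∑ i, (L * (1 * γ i) + L) :=
          Finset.sum_le_sum fun i _ => h4 i
      _ = L * ∑ i, 1 * γ i + Fintype.card σ * L := by
          rw [Finset.sum_add_distrib, ← Finset.mul_sum]
          simp
      _ ≤ L * m + Fintype.card σ * L := Nat.add_le_add_right (Nat.mul_le_mul_left _ h3) _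
      _ = L * (m + Fintype.card σ) := by ring
  calc cnt (fun _ : σ => 1) m * ∏ i, (L / a i) = T.ncard := by
        rw [Set.ncard_prod, Set.ncard_coe_finset, Fintype.card_piFinset]
        simp [cnt]
    _ = (f '' T).ncard := hf.ncard_image.symm
    _ ≤ cnt a (L * (m + Fintype.card σ)) := Set.ncard_le_ncard h1 (LP_finite a ha _)

end

/-- comparison of two numbers by polynomial growth -/
theorem le_of_growth (S : ℕ → ℕ) (M : ℕ) (hS0 : ∀ n, 1 ≤ S n) (hS : ∀ n, S n ≤ (n + 1) ^ M)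
    (x y c : ℕ) (h : ∀ n, x * S n ≤ y * S (n + c)) : x ≤ y := by
  by_contra hlt
  rw [not_le] at hlt
  rcases Nat.eq_zero_or_pos y with rfl | hy
  · have h1 := h 0
    have h2 := hS0 0
    rw [zero_mul] at h1
    have h3 : 1 ≤ x * S 0 := Nat.one_le_iff_ne_zero.mpr (Nat.mul_ne_zero (by omega) (by omega))
    omega
  have hstep : ∀ j : ℕ, (y + 1) ^ j ≤ y ^ j * S (j * c) := by
    intro j
    induction j with
    | zero =>
      simpa using hS0 0
    | succ j ih =>
      calc (y + 1) ^ (j + 1) = (y + 1) ^ j * (y + 1) := pow_succ _ _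
        _ ≤ y ^ j * S (j * c) * (y + 1) := Nat.mul_le_mul_right _ ih
        _ ≤ y ^ j * S (j * c) * x := Nat.mul_le_mul_left _ hlt
        _ = y ^ j * (x * S (j * c)) := by ring
        _ ≤ y ^ j * (y * S (j * c + c)) := Nat.mul_le_mul_left _ (h _)
        _ = y ^ (j + 1) * S ((j + 1) * c) := by ring_nf
  have hreal : ∀ j : ℕ, ((y + 1 : ℝ) / y) ^ j ≤ ((j : ℝ) * c + 1) ^ M := by
    intro j
    have h1 : ((y : ℝ) + 1) ^ j ≤ (y : ℝ) ^ j * ((j : ℝ) * c + 1) ^ M := by
      have h2 := (hstep j).trans (Nat.mul_le_mul_left _ (hS (j * c)))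
      exact_mod_cast h2
    rw [div_pow, div_le_iff₀ (by positivity), mul_comm]
    exact h1
  have hr : 1 < ((y + 1 : ℝ) / y) := by
    rw [one_lt_div (by positivity)]
    linarith
  have hlim := tendsto_pow_const_div_const_pow_of_one_lt M hr
  have hlim2 := hlim.const_mul (((c : ℝ) + 1) ^ M)
  rw [mul_zero] at hlim2
  have hev := hlim2.eventually (gt_mem_nhds (show (0 : ℝ) < 1 from one_pos))
  obtain ⟨j, hj⟩ := (hev.and (Filter.eventually_ge_atTop 1)).exists
  obtain ⟨hj1, hj2⟩ := hj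
  have h3 := hreal j
  have h4 : (((j : ℝ) * c + 1) ^ M) ≤ (((c : ℝ) + 1) ^ M) * (j : ℝ) ^ M := by
    rw [← mul_pow]
    apply pow_le_pow_left₀ (by positivity)
    have : (1 : ℝ) ≤ j := by exact_mod_cast hj2
    nlinarith [Nat.cast_nonneg (α := ℝ) c]
  have h5 : 0 < ((y + 1 : ℝ) / y) ^ j := by positivity
  rw [← mul_div_assoc, div_lt_one h5] at hj1
  linarith

/-- comparison of the weights of two systems -/
theorem prod_le_of_cnt {σ τ : Type} [Fintype σ] [Fintype τ]
    (hcard : Fintype.card σ = Fintype.card τ) (a : σ → ℕ) (ha : ∀ i, 1 ≤ a i) (b : τ → ℕ)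
    (hb : ∀ j, 1 ≤ b j) (x y C : ℕ) (h : ∀ n, x * cnt a n ≤ y * cnt b (n + C)) :
    x * ∏ j, b j ≤ y * ∏ i, a i := by
  classical
  set L : ℕ := (∏ i, a i) * ∏ j, b j with hL
  have hLa : ∀ i, a i ∣ L := fun i => (Finset.dvd_prod_of_mem a (mem_univ i)).mul_right _
  have hLb : ∀ j, b j ∣ L := fun j => (Finset.dvd_prod_of_mem b (mem_univ j)).mul_left _
  have hpa : 1 ≤ ∏ i, a i := Finset.one_le_prod' fun i _ => ha i
  have hpb : 1 ≤ ∏ j, b j := Finset.one_le_prod' fun j _ => hb j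
  have hL0 : 1 ≤ L := Nat.mul_pos hpa hpb
  have hA : (∏ i, (L / a i)) * ∏ i, a i = L ^ Fintype.card σ := by
    rw [← Finset.prod_mul_distrib, Finset.prod_congr rfl fun i _ => Nat.div_mul_cancel (hLa i)]
    simp
  have hB : (∏ j, (L / b j)) * ∏ j, b j = L ^ Fintype.card σ := by
    rw [← Finset.prod_mul_distrib, Finset.prod_congr rfl fun i _ => Nat.div_mul_cancel (hLb i)]
    simp [hcard]
  have hkey : x * ∏ i, (L / a i) ≤ y * ∏ j, (L / b j) := by
    apply le_of_growth (fun n => cnt (fun _ : σ => 1) n) (Fintype.card σ)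
      (fun n => cnt_pos _ (fun _ => le_rfl) n) (fun n => cnt_le_pow n) _ _ (Fintype.card σ + C)
    intro n
    have h1 := le_cnt a ha L hLa hL0 n
    have h2 := h (L * (n + Fintype.card σ))
    have h3 : cnt b (L * (n + Fintype.card σ) + C) ≤ cnt b (L * (n + (Fintype.card σ + C))) := by
      apply cnt_mono b hb
      have : C ≤ L * C := Nat.le_mul_of_pos_left _ hL0
      nlinarith
    have h4 := cnt_le b hb L hLb hL0 (n + (Fintype.card σ + C))
    rw [← cnt_one_congr hcard] at h4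
    calc x * (∏ i, (L / a i)) * cnt (fun _ : σ => 1) n
        = x * (cnt (fun _ : σ => 1) n * ∏ i, (L / a i)) := by ring
      _ ≤ x * cnt a (L * (n + Fintype.card σ)) := Nat.mul_le_mul_left _ h1
      _ ≤ y * cnt b (L * (n + Fintype.card σ) + C) := h2
      _ ≤ y * (cnt (fun _ : σ => 1) (n + (Fintype.card σ + C)) * ∏ j, (L / b j)) :=
          Nat.mul_le_mul_left _ (h3.trans h4)
      _ = y * (∏ j, (L / b j)) * cnt (fun _ : σ => 1) (n + (Fintype.card σ + C)) := by ring
  have hLp : 0 < L ^ Fintype.card σ := Nat.pow_pos hL0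
  apply Nat.le_of_mul_le_mul_right _ hLp
  calc x * (∏ j, b j) * L ^ Fintype.card σ
      = (x * ∏ i, (L / a i)) * ((∏ i, a i) * ∏ j, b j) := by rw [← hA]; ring
    _ ≤ (y * ∏ j, (L / b j)) * ((∏ i, a i) * ∏ j, b j) := Nat.mul_le_mul_right _ hkey
    _ = y * (∏ i, a i) * L ^ Fintype.card σ := by rw [← hB]; ring

end Pool.Agent.W235.CY
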