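import Mathlib
import Pool.Agent.W235.CY.Count

/-!
Systems of polynomials whose parts of top weight vanish together only at the origin: the polynomial
ring is a finite module over the polynomials in the system, with control of the weights.
-/

set_option autoImplicit false
set_option linter.unusedSectionVars false

namespace Pool.Agent.W235.CY

open MvPolynomial

section

variable {k : Type} [Field k] {σ τ : Type} [Fintype σ] [Fintype τ]

/-- the polynomials of weight at most `n` -/
noncomputable def PW (k : Type) [Field k] (a : σ → ℕ) (n : ℕ) : Submodule k (MvPolynomial σ k) :=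
  restrictSupport k {α | Finsupp.weight a α ≤ n}

theorem mem_PW {a : σ → ℕ} {n : ℕ} {p : MvPolynomial σ k} :
    p ∈ PW k a n ↔ ∀ α ∈ p.support, Finsupp.weight a α ≤ n := by
  unfold PW
  rw [mem_restrictSupport_iff]
  exact Iff.rfl

theorem PW_mono {a : σ → ℕ} {m n : ℕ} (h : m ≤ n) : PW k a m ≤ PW k a n := by
  intro p hp
  rw [mem_PW] at hp ⊢
  exact fun α hα => (hp α hα).trans h

theorem PW_mul {a : σ → ℕ} {m n : ℕ} {p q : MvPolynomial σ k} (hp : p ∈ PW k a m)
    (hq : q ∈ PW k a n) : p * q ∈ PW k a (m + n) := by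
  classical
  rw [mem_PW] at hp hq ⊢
  intro α hα
  obtain ⟨β, hβ, γ, hγ, rfl⟩ := Finset.mem_add.mp (support_mul p q hα)
  rw [map_add]
  exact add_le_add (hp β hβ) (hq γ hγ)

theorem monomial_mem_PW {a : σ → ℕ} {n : ℕ} {α : σ →₀ ℕ} (h : Finsupp.weight a α ≤ n) (c : k) :
    monomial α c ∈ PW k a n := by
  classical
  rw [mem_PW]
  intro β hβ
  have h1 := support_monomial_subset hβ
  rw [Finset.mem_singleton] at h1
  rw [h1]
  exact h

theorem hom_mem_PW {a : σ → ℕ} {n : ℕ} {p : MvPolynomial σ k} (hp : p.IsWeightedHomogeneous a n) :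
    p ∈ PW k a n := by
  rw [mem_PW]
  intro α hα
  exact (hp (mem_support_iff.mp hα)).le

theorem weight_eq (a : σ → ℕ) (α : σ →₀ ℕ) : Finsupp.weight a α = ∑ i, a i * α i := by
  rw [Finsupp.weight_apply, Finsupp.sum_fintype _ _ (by simp)]
  refine Finset.sum_congr rfl fun i _ => ?_
  rw [smul_eq_mul, mul_comm]

/-- a system of polynomials `E` whose parts `t` of top weight vanish together only at the origin -/
structure TopSys (a : σ → ℕ) (b : τ → ℕ) (E t : τ → MvPolynomial σ k) : Prop where
  ha : ∀ i, 1 ≤ a i
  hb : ∀ l, 1 ≤ b l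
  hom : ∀ l, (t l).IsWeightedHomogeneous a (b l)
  low : ∀ l, ∀ α ∈ (E l - t l).support, Finsupp.weight a α < b l
  null : ∀ i, ∃ m, (X i : MvPolynomial σ k) ^ m ∈ Ideal.span (Set.range t)

/-- the generators of weight at most `n` -/
def gens (a : σ → ℕ) (b : τ → ℕ) (E : τ → MvPolynomial σ k) (G : Finset (σ →₀ ℕ)) (n : ℕ) :
    Set (MvPolynomial σ k) :=
  {x | ∃ γ ∈ G, ∃ β : τ → ℕ, Finsupp.weight a γ + ∑ l, b l * β l ≤ n ∧
    x = monomial γ 1 * ∏ l, E l ^ β l}

theorem gens_mono (a : σ → ℕ) (b : τ → ℕ) (E : τ → MvPolynomial σ k) (G : Finset (σ →₀ ℕ))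
    {m n : ℕ} (h : m ≤ n) : gens a b E G m ⊆ gens a b E G n := by
  rintro x ⟨γ, hγ, β, hβ, rfl⟩
  exact ⟨γ, hγ, β, hβ.trans h, rfl⟩

theorem span_mul (a : σ → ℕ) (b : τ → ℕ) (E : τ → MvPolynomial σ k) (G : Finset (σ →₀ ℕ))
    {m : ℕ} {q : MvPolynomial σ k} (hq : q ∈ Submodule.span k (gens a b E G m)) (l : τ) :
    q * E l ∈ Submodule.span k (gens a b E G (m + b l)) := by
  classical
  induction hq using Submodule.span_induction with
  | mem x hx =>
    obtain ⟨γ, hγ, β, hβ, rfl⟩ := hx
    apply Submodule.subset_span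
    refine ⟨γ, hγ, fun l' => β l' + if l' = l then 1 else 0, ?_, ?_⟩
    · simp only [mul_add, Finset.sum_add_distrib, mul_ite, mul_one, mul_zero,
        Finset.sum_ite_eq', Finset.mem_univ, if_true]
      omega
    · simp only [pow_add, Finset.prod_mul_distrib, pow_ite, pow_one, pow_zero,
        Finset.prod_ite_eq', Finset.mem_univ, if_true]
      ring
  | zero =>
    rw [zero_mul]
    exact Submodule.zero_mem _
  | add x y _ _ hx hy =>
    rw [add_mul]
    exact Submodule.add_mem _ hx hy
  | smul c x _ hx =>
    rw [smul_mul_assoc]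
    exact Submodule.smul_mem _ _ hx

attribute [local instance] MvPolynomial.weightedGradedAlgebra in
theorem comp_mul {a : σ → ℕ} {b n : ℕ} (h : MvPolynomial σ k) {t : MvPolynomial σ k}
    (ht : t.IsWeightedHomogeneous a b) :
    weightedHomogeneousComponent a n (h * t) =
      if b ≤ n then weightedHomogeneousComponent a (n - b) h * t else 0 := by
  have h1 := DirectSum.coe_decompose_mul_of_right_mem (𝒜 := weightedHomogeneousSubmodule k a)
    (a := h) (b := t) (i := b) n ht
  have h2 : ∀ (m : ℕ) (p : MvPolynomial σ k),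
      (DirectSum.decompose (weightedHomogeneousSubmodule k a) p m : MvPolynomial σ k) =
      weightedHomogeneousComponent a m p := by
    intro m p
    exact weightedDecomposition.decompose'_apply k a p m
  rw [h2, h2] at h1
  exact h1

/-- **Spanning lemma** -/
theorem exists_span {a : σ → ℕ} {b : τ → ℕ} {E t : τ → MvPolynomial σ k} (h : TopSys a b E t) :
    ∃ G : Finset (σ →₀ ℕ), ∀ n p, p ∈ PW k a n → p ∈ Submodule.span k (gens a b E G n) := by
  classical
  choose m hm using h.null
  let mm : σ →₀ ℕ := Finsupp.equivFunOnFinite.symm m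
  refine ⟨Finset.Iic mm, ?_⟩
  intro n
  induction n using Nat.strong_induction_on with
  | _ n ih =>
  intro p hp
  rw [mem_PW] at hp
  rw [p.as_sum]
  apply Submodule.sum_mem
  intro α hα
  have hαn := hp α hα
  -- reduce to a monomial
  suffices hmon : monomial α (1 : k) ∈ Submodule.span k (gens a b E (Finset.Iic mm) n) by
    have h1 : monomial α (coeff α p) = coeff α p • monomial α (1 : k) := by
      rw [smul_monomial, smul_eq_mul, mul_one]
    rw [h1]
    exact Submodule.smul_mem _ _ hmon
  by_cases hG : α ∈ Finset.Iic mm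
  · apply Submodule.subset_span
    refine ⟨α, hG, 0, by simpa using hαn, by simp⟩
  · rw [Finset.mem_Iic, Finsupp.le_def] at hG
    push Not at hG
    obtain ⟨i, hi⟩ := hG
    have hi' : m i < α i := hi
    obtain ⟨hc, hhc⟩ := (Ideal.mem_span_range_iff_exists_fun).mp (hm i)
    -- the homogeneous components
    set D := m i * a i with hD
    let c : τ → MvPolynomial σ k := fun l =>
      if b l ≤ D then weightedHomogeneousComponent a (D - b l) (hc l) else 0
    have hX : (X i : MvPolynomial σ k) ^ m i = ∑ l, c l * t l := by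
      have h1 : (X i ^ m i : MvPolynomial σ k).IsWeightedHomogeneous a D := by
        have := (isWeightedHomogeneous_X k a i).pow (m i)
        rwa [smul_eq_mul] at this
      rw [← h1.weightedHomogeneousComponent_same, ← hhc, map_sum]
      refine Finset.sum_congr rfl fun l _ => ?_
      rw [comp_mul _ (h.hom l)]
      simp only [c]
      split_ifs
      · rfl
      · rw [zero_mul]
    set α' : σ →₀ ℕ := α - Finsupp.single i (m i) with hα'
    have hα2 : α' + Finsupp.single i (m i) = α := by
      rw [hα']
      apply tsub_add_cancel_of_le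
      rw [Finsupp.single_le_iff]
      exact hi'.le
    have hwt : Finsupp.weight a α = Finsupp.weight a α' + D := by
      rw [← hα2, map_add, Finsupp.weight_single, smul_eq_mul]
    have hmono : monomial α (1 : k) = monomial α' 1 * X i ^ m i := by
      rw [X_pow_eq_monomial, monomial_mul, hα2, mul_one]
    have hdecomp : monomial α (1 : k) = ∑ l, (monomial α' 1 * c l) * E l -
        ∑ l, (monomial α' 1 * c l) * (E l - t l) := by
      rw [hmono, hX, ← Finset.sum_sub_distrib, Finset.mul_sum]
      refine Finset.sum_congr rfl fun l _ => ?_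
      ring
    have hq : ∀ l, b l ≤ D → monomial α' 1 * c l ∈ PW k a (Finsupp.weight a α - b l) := by
      intro l hl
      have h1 : monomial α' (1 : k) ∈ PW k a (Finsupp.weight a α') := monomial_mem_PW le_rfl 1
      have h2 : c l ∈ PW k a (D - b l) := by
        simp only [c, if_pos hl]
        exact hom_mem_PW (weightedHomogeneousComponent_isWeightedHomogeneous _ _)
      have h3 := PW_mul h1 h2
      have h4 : Finsupp.weight a α' + (D - b l) = Finsupp.weight a α - b l := by
        rw [hwt]
        omega
      rwa [h4] at h3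
    have hq0 : ∀ l, ¬ b l ≤ D → c l = 0 := by
      intro l hl
      simp only [c, if_neg hl]
    rw [hdecomp]
    apply Submodule.sub_mem
    · apply Submodule.sum_mem
      intro l _
      by_cases hl : b l ≤ D
      · have hbl := h.hb l
        have h5 := ih (n - b l) (by omega) _ (PW_mono (by omega) (hq l hl))
        have h6 := span_mul a b E (Finset.Iic mm) h5 l
        rwa [Nat.sub_add_cancel (by omega)] at h6
      · rw [hq0 l hl, mul_zero, zero_mul]
        exact Submodule.zero_mem _
    · apply Submodule.sum_mem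
      intro l _
      by_cases hl : b l ≤ D
      · have hbl := h.hb l
        have h7 : E l - t l ∈ PW k a (b l - 1) := by
          rw [mem_PW]
          intro β hβ
          have := h.low l β hβ
          omega
        have h8 := PW_mul (hq l hl) h7
        have h9 := ih (n - 1) (by omega) _ (PW_mono (by omega) h8)
        exact Submodule.span_mono (gens_mono a b E _ (by omega)) h9
      · rw [hq0 l hl, mul_zero, zero_mul]
        exact Submodule.zero_mem _

theorem finrank_PW (a : σ → ℕ) (n : ℕ) : Module.finrank k (PW k a n) = cnt a n := by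
  unfold PW
  rw [Module.finrank_eq_nat_card_basis (basisRestrictSupport k {α | Finsupp.weight a α ≤ n})]
  unfold cnt
  rw [← Nat.card_coe_set_eq]
  apply Nat.card_congr
  refine (Finsupp.equivFunOnFinite (α := σ) (M := ℕ)).subtypeEquiv ?_
  intro α
  simp only [Set.mem_ofPred_eq, LP]
  rw [weight_eq]
  rfl

instance PW_finite (a : σ → ℕ) [ha : Fact (∀ i, 1 ≤ a i)] (n : ℕ) : Module.Finite k (PW k a n) := by
  have hfin : Finite ↑{α : σ →₀ ℕ | Finsupp.weight a α ≤ n} := by
    have h1 := LP_finite a ha.out n
    have h2 : {α : σ →₀ ℕ | Finsupp.weight a α ≤ n} =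
        (Finsupp.equivFunOnFinite (α := σ) (M := ℕ)) ⁻¹' LP a n := by
      ext α
      simp only [Set.mem_ofPred_eq, Set.mem_preimage, LP]
      rw [weight_eq]
      rfl
    rw [h2]
    exact (h1.preimage (Equiv.injective _).injOn).to_subtype
  exact Module.Finite.of_basis (basisRestrictSupport k {α | Finsupp.weight a α ≤ n})

end

end Pool.Agent.W235.CY
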