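import Mathlib
import Pool.Agent.W235.CY.Span

/-!
The degree of the extension of rational function fields given by a system of polynomials: upper and
lower bounds from the weights.
-/

set_option autoImplicit false
set_option linter.unusedSectionVars false

namespace Pool.Agent.W235.CY

open MvPolynomial

section

variable {k : Type} [Field k] {σ τ : Type} [Fintype σ] [Fintype τ]

/-- clearing denominators -/
theorem common_denom {L : Type} [Field L] [Algebra k L] {ι : Type} [Finite ι] (x : τ → L)
    (f : ι → L) (hf : ∀ i, f i ∈ IntermediateField.adjoin k (Set.range x)) :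
    ∃ h : MvPolynomial τ k, aeval x h ≠ 0 ∧ ∀ i, ∃ P : MvPolynomial τ k,
      aeval x h * f i = aeval x P := by
  classical
  have := Fintype.ofFinite ι
  have h1 : ∀ i, ∃ r s : MvPolynomial τ k, aeval x s ≠ 0 ∧ aeval x s * f i = aeval x r := by
    intro i
    obtain ⟨r, s, hrs⟩ := (IntermediateField.mem_adjoin_range_iff k x (f i)).mp (hf i)
    by_cases hs : aeval x s = 0
    · refine ⟨0, 1, by simp, ?_⟩
      rw [hrs, hs, div_zero]
      simp
    · exact ⟨r, s, hs, by rw [hrs, mul_div_cancel₀ _ hs]⟩
  choose r s hs hrs using h1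
  refine ⟨∏ i, s i, ?_, fun i => ⟨(∏ j ∈ Finset.univ.erase i, s j) * r i, ?_⟩⟩
  · rw [map_prod]
    exact Finset.prod_ne_zero_iff.mpr fun i _ => hs i
  · rw [map_mul, ← hrs i, ← mul_assoc, ← map_mul,
      Finset.prod_erase_mul _ _ (Finset.mem_univ i)]

/-- the function field -/
abbrev LL (k : Type) [Field k] (σ : Type) : Type := FractionRing (MvPolynomial σ k)

/-- the inclusion -/
noncomputable abbrev ψ (k : Type) [Field k] (σ : Type) : MvPolynomial σ k →ₐ[k] LL k σ :=
  Algebra.algHom k (MvPolynomial σ k) (LL k σ)

theorem ψ_injective : Function.Injective (ψ k σ) :=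
  IsFractionRing.injective (MvPolynomial σ k) (LL k σ)

/-- the subfield generated by a system -/
noncomputable abbrev FF (E : τ → MvPolynomial σ k) : IntermediateField k (LL k σ) :=
  IntermediateField.adjoin k (Set.range fun l => ψ k σ (E l))

theorem E_mem (E : τ → MvPolynomial σ k) (l : τ) : ψ k σ (E l) ∈ FF E :=
  IntermediateField.subset_adjoin _ _ ⟨l, rfl⟩

/-- `E l` as an element of the subfield -/
noncomputable def EF (E : τ → MvPolynomial σ k) (l : τ) : FF E := ⟨_, E_mem E l⟩

theorem coe_EF (E : τ → MvPolynomial σ k) (l : τ) :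
    ((EF E l : FF E) : LL k σ) = ψ k σ (E l) := rfl

theorem exists_PW (a : σ → ℕ) (p : MvPolynomial σ k) : ∃ n, p ∈ PW k a n := by
  refine ⟨weightedTotalDegree a p, ?_⟩
  rw [mem_PW]
  intro α hα
  exact le_weightedTotalDegree a hα

theorem span_top {a : σ → ℕ} {b : τ → ℕ} {E t : τ → MvPolynomial σ k} (h : TopSys a b E t) :
    ∃ G : Finset (σ →₀ ℕ), (∀ n p, p ∈ PW k a n → p ∈ Submodule.span k (gens a b E G n)) ∧
      Submodule.span (FF E) ((fun γ : σ →₀ ℕ => ψ k σ (monomial γ 1)) '' (G : Set (σ →₀ ℕ))) = ⊤ := by
  classical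
  obtain ⟨G, hG⟩ := exists_span h
  refine ⟨G, hG, ?_⟩
  set S := Submodule.span (FF E) ((fun γ : σ →₀ ℕ => ψ k σ (monomial γ 1)) '' (G : Set (σ →₀ ℕ)))
    with hS
  have hR : ∀ p : MvPolynomial σ k, ψ k σ p ∈ S := by
    intro p
    obtain ⟨n, hn⟩ := exists_PW a p
    have h2 := hG n p hn
    have h3 : Submodule.span k (gens a b E G n) ≤
        (S.restrictScalars k).comap (ψ k σ).toLinearMap := by
      rw [Submodule.span_le]
      rintro _ ⟨γ, hγ, β, hβ, rfl⟩
      show ψ k σ (monomial γ 1 * ∏ l, E l ^ β l) ∈ S
      have h3 : ψ k σ (monomial γ 1 * ∏ l, E l ^ β l) =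
          (∏ l, EF E l ^ β l : FF E) • ψ k σ (monomial γ 1) := by
        rw [map_mul, map_prod, Algebra.smul_def, mul_comm]
        congr 1
        rw [map_prod]
        refine Finset.prod_congr rfl fun l _ => ?_
        rw [map_pow, map_pow]
        rfl
      rw [h3]
      exact Submodule.smul_mem _ _ (Submodule.subset_span ⟨γ, hγ, rfl⟩)
    exact h3 h2
  set S' := Submodule.span (FF E) (Set.range (ψ k σ)) with hS'
  have hle : S' ≤ S := by
    rw [hS', Submodule.span_le]
    rintro _ ⟨p, rfl⟩
    exact hR p
  have hfin : FiniteDimensional (FF E) S := by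
    apply FiniteDimensional.span_of_finite
    exact (Finset.finite_toSet G).image _
  have hfin' : FiniteDimensional (FF E) S' := Submodule.finiteDimensional_of_le hle
  have hmul : ∀ (q : MvPolynomial σ k) (x : LL k σ), x ∈ S' → ψ k σ q * x ∈ S' := by
    intro q x hx
    have h3 : S' ≤ S'.comap (LinearMap.mulLeft (FF E) (ψ k σ q)) := by
      conv_lhs => rw [hS']
      rw [Submodule.span_le]
      rintro _ ⟨p, rfl⟩
      show ψ k σ q * ψ k σ p ∈ S'
      rw [← map_mul]
      exact Submodule.subset_span ⟨_, rfl⟩
    exact h3 hx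
  have htop : S' = ⊤ := by
    rw [eq_top_iff]
    intro x _
    obtain ⟨p, q, hq, rfl⟩ := IsFractionRing.div_surjective (A := MvPolynomial σ k) x
    have hq0 : ψ k σ q ≠ 0 := by
      intro h0
      apply nonZeroDivisors.ne_zero hq
      exact ψ_injective (h0.trans (map_zero (ψ k σ)).symm)
    let m : S' →ₗ[FF E] S' :=
      { toFun := fun x => ⟨ψ k σ q * x, hmul q x x.2⟩
        map_add' := fun x y => Subtype.ext (mul_add _ _ _)
        map_smul' := fun c x => Subtype.ext (mul_smul_comm _ _ _) }
    have hm : Function.Injective m := by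
      intro x y hxy
      have h1 : ψ k σ q * (x : LL k σ) = ψ k σ q * y := congrArg Subtype.val hxy
      exact Subtype.ext (mul_left_cancel₀ hq0 h1)
    have hm' : Function.Surjective m := LinearMap.injective_iff_surjective.mp hm
    obtain ⟨y, hy⟩ := hm' ⟨ψ k σ p, Submodule.subset_span ⟨p, rfl⟩⟩
    have h1 : ψ k σ q * (y : LL k σ) = ψ k σ p := congrArg Subtype.val hy
    have h2 : ψ k σ p / ψ k σ q = y := by
      rw [div_eq_iff hq0, ← h1, mul_comm]
    show ψ k σ p / ψ k σ q ∈ S'
    rw [h2]
    exact y.2
  exact eq_top_iff.mpr (htop ▸ hle)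

theorem finiteDimensional {a : σ → ℕ} {b : τ → ℕ} {E t : τ → MvPolynomial σ k}
    (h : TopSys a b E t) : FiniteDimensional (FF E) (LL k σ) := by
  classical
  obtain ⟨G, -, hG⟩ := span_top h
  refine ⟨⟨G.image fun γ => ψ k σ (monomial γ 1), ?_⟩⟩
  rw [Finset.coe_image]
  exact hG

/-- finiteness over the ring of the system -/
theorem module_finite {a : σ → ℕ} {b : τ → ℕ} {E t : τ → MvPolynomial σ k}
    (h : TopSys a b E t) :
    Module.Finite (Algebra.adjoin k (Set.range E)) (MvPolynomial σ k) := by
  classical
  obtain ⟨G, hG⟩ := exists_span h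
  refine ⟨⟨G.image fun γ => monomial γ 1, ?_⟩⟩
  rw [eq_top_iff]
  intro p _
  obtain ⟨n, hn⟩ := exists_PW a p
  have h2 := hG n p hn
  have h3 : Submodule.span k (gens a b E G n) ≤
      (Submodule.span (Algebra.adjoin k (Set.range E))
        (↑(G.image fun γ => (monomial γ 1 : MvPolynomial σ k)) : Set (MvPolynomial σ k))
          ).restrictScalars k := by
    rw [Submodule.span_le]
    rintro _ ⟨γ, hγ, β, hβ, rfl⟩
    have h3 : (monomial γ 1 * ∏ l, E l ^ β l : MvPolynomial σ k) =
        (⟨∏ l, E l ^ β l, by
          apply Subalgebra.prod_mem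
          intro l _
          apply Subalgebra.pow_mem
          exact Algebra.subset_adjoin ⟨l, rfl⟩⟩ : Algebra.adjoin k (Set.range E)) •
          (monomial γ 1 : MvPolynomial σ k) := by
      rw [Algebra.smul_def, mul_comm]
      rfl
    rw [h3]
    refine Submodule.smul_mem (Submodule.span (Algebra.adjoin k (Set.range E))
        (↑(G.image fun γ => (monomial γ 1 : MvPolynomial σ k)) : Set (MvPolynomial σ k))) _ ?_
    apply Submodule.subset_span
    rw [Finset.coe_image]
    exact ⟨γ, hγ, rfl⟩
  exact h3 h2

/-- the elements of a system with as many members as variables are algebraically independent -/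
theorem algebraicIndependent {a : σ → ℕ} {b : τ → ℕ} {E t : τ → MvPolynomial σ k}
    (h : TopSys a b E t) (hcard : Fintype.card σ = Fintype.card τ) :
    AlgebraicIndependent k E := by
  have hfin := module_finite h
  have hint : Algebra.IsIntegral (Algebra.adjoin k (Set.range E)) (MvPolynomial σ k) :=
    Algebra.IsIntegral.of_finite _ _
  have halg : Algebra.IsAlgebraic (Algebra.adjoin k (Set.range E)) (MvPolynomial σ k) :=
    hint.isAlgebraic
  have hbasis := Algebra.IsAlgebraic.isTranscendenceBasis_of_le_trdeg_of_finite k E (by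
    rw [MvPolynomial.trdeg_of_isDomain]
    simp [Cardinal.mk_fintype, hcard])
  exact hbasis.1

/-- **Lower bound for the degree** -/
theorem le_degree {a : σ → ℕ} {b : τ → ℕ} {E t : τ → MvPolynomial σ k}
    (h : TopSys a b E t) (hcard : Fintype.card σ = Fintype.card τ) :
    ∏ l, b l ≤ Module.finrank (FF E) (LL k σ) * ∏ i, a i := by
  classical
  obtain ⟨G, hG, htop⟩ := span_top h
  have hfd := finiteDimensional h
  have : Fact (∀ i, 1 ≤ a i) := ⟨h.ha⟩
  set N := Module.finrank (FF E) (LL k σ) with hN
  let g : Module.Basis (Fin N) (FF E) (LL k σ) := Module.finBasis (FF E) (LL k σ)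
  -- common denominator of the coordinates of the generators
  obtain ⟨d, hd0, hd⟩ := common_denom (k := k) (fun l => ψ k σ (E l))
    (ι := G × Fin N) (fun p => (((g.repr (ψ k σ (monomial p.1.1 1))) p.2 : FF E) : LL k σ))
    (fun p => SetLike.coe_mem _)
  choose P hP using hd
  -- bound for the weights of the numerators
  obtain ⟨C, hC⟩ : ∃ C, ∀ p, P p ∈ PW k b C := by
    refine ⟨Finset.univ.sup fun p => weightedTotalDegree b (P p), fun p => ?_⟩
    rw [mem_PW]
    intro α hα
    exact (le_weightedTotalDegree b hα).trans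
      (Finset.le_sup (f := fun p => weightedTotalDegree b (P p)) (Finset.mem_univ p))
  have hfac : Fact (∀ l, 1 ≤ b l) := ⟨h.hb⟩
  -- the target space
  let Θ : (n : ℕ) → (Fin N → PW k b n) →ₗ[k] LL k σ := fun n =>
    { toFun := fun Q => ∑ κ, aeval (fun l => ψ k σ (E l)) (Q κ : MvPolynomial τ k) * g κ
      map_add' := fun Q Q' => by
        simp only [Pi.add_apply, Submodule.coe_add, map_add, add_mul, Finset.sum_add_distrib]
      map_smul' := fun c Q => by
        simp only [Pi.smul_apply, Submodule.coe_smul, map_smul, RingHom.id_apply,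
          Finset.smul_sum, smul_mul_assoc] }
  have hle : ∀ n, 1 * cnt a n ≤ N * cnt b (n + C) := by
    intro n
    let D : MvPolynomial σ k →ₗ[k] LL k σ :=
      (LinearMap.mulLeft k (aeval (fun l => ψ k σ (E l)) d)).comp (ψ k σ).toLinearMap
    have hrange : PW k a n ≤ (LinearMap.range (Θ (n + C))).comap D := by
      intro p hp
      have h2 := hG n p hp
      have h3 : Submodule.span k (gens a b E G n) ≤ (LinearMap.range (Θ (n + C))).comap D := by
        rw [Submodule.span_le]
        rintro _ ⟨γ, hγ, β, hβ, rfl⟩
        have hz : ∏ l, (X l : MvPolynomial τ k) ^ β l ∈ PW k b (∑ l, b l * β l) := by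
          have h3 : ∏ l, (X l : MvPolynomial τ k) ^ β l =
              monomial (Finsupp.equivFunOnFinite.symm β) 1 := by
            rw [monomial_eq]
            simp only [map_one, one_mul]
            rw [Finsupp.prod_fintype _ _ (by simp)]
            rfl
          rw [h3]
          apply monomial_mem_PW
          rw [weight_eq]
          exact le_rfl
        refine ⟨fun κ => ⟨P (⟨γ, hγ⟩, κ) * ∏ l, X l ^ β l, PW_mono ?_ (PW_mul (hC _) hz)⟩, ?_⟩
        · omega
        · simp only [Θ, D, LinearMap.coe_mk, AddHom.coe_mk, map_mul, LinearMap.comp_apply,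
            LinearMap.mulLeft_apply, AlgHom.toLinearMap_apply]
          have h4 : ψ k σ (monomial γ 1) =
              ∑ κ, ((g.repr (ψ k σ (monomial γ 1)) κ : FF E) : LL k σ) * g κ := by
            conv_lhs => rw [← g.sum_repr (ψ k σ (monomial γ 1))]
            rfl
          rw [h4, Finset.sum_mul, Finset.mul_sum]
          refine Finset.sum_congr rfl fun κ _ => ?_
          have h5 := hP (⟨γ, hγ⟩, κ)
          simp only at h5
          rw [← h5]
          have h6 : aeval (fun l => ψ k σ (E l)) (∏ l, (X l : MvPolynomial τ k) ^ β l) =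
              ψ k σ (∏ l, E l ^ β l) := by
            simp only [map_prod, map_pow, aeval_X]
          rw [h6]
          ring
      exact h3 h2
    have hDinj : Function.Injective D := by
      intro p q hpq
      have h1 : aeval (fun l => ψ k σ (E l)) d * ψ k σ p =
        aeval (fun l => ψ k σ (E l)) d * ψ k σ q := hpq
      exact ψ_injective (mul_left_cancel₀ hd0 h1)
    have h1 : Module.finrank k (PW k a n) ≤ Module.finrank k (LinearMap.range (Θ (n + C))) := by
      let D' : PW k a n →ₗ[k] LinearMap.range (Θ (n + C)) :=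
        (D.comp (PW k a n).subtype).codRestrict _ (fun x => hrange x.2)
      apply LinearMap.finrank_le_finrank_of_injective (f := D')
      intro x y hxy
      have := congrArg Subtype.val hxy
      exact Subtype.ext (hDinj this)
    have h2 : Module.finrank k (LinearMap.range (Θ (n + C))) ≤ N * cnt b (n + C) := by
      refine (LinearMap.finrank_range_le _).trans ?_
      rw [Module.finrank_pi_fintype]
      simp [finrank_PW]
    rw [finrank_PW] at h1
    rw [one_mul]
    exact h1.trans h2
  have := prod_le_of_cnt hcard a h.ha b h.hb 1 N C hle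
  rwa [one_mul] at this

/-- **Upper bound for the degree** -/
theorem degree_le {a : σ → ℕ} {b : τ → ℕ} {E : τ → MvPolynomial σ k}
    (ha : ∀ i, 1 ≤ a i) (hb : ∀ l, 1 ≤ b l) (hE : ∀ l, E l ∈ PW k a (b l))
    (hfd : FiniteDimensional (FF E) (LL k σ)) (hind : AlgebraicIndependent k E)
    (hcard : Fintype.card σ = Fintype.card τ) :
    Module.finrank (FF E) (LL k σ) * ∏ i, a i ≤ ∏ l, b l := by
  classical
  have : Fact (∀ i, 1 ≤ a i) := ⟨ha⟩
  have hfac : Fact (∀ l, 1 ≤ b l) := ⟨hb⟩
  set N := Module.finrank (FF E) (LL k σ) with hN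
  let g : Module.Basis (Fin N) (FF E) (LL k σ) := Module.finBasis (FF E) (LL k σ)
  obtain ⟨d, hd⟩ := IsLocalization.exist_integer_multiples_of_finite
    (nonZeroDivisors (MvPolynomial σ k)) (fun κ => g κ)
  choose r hr using hd
  have hd0 : ψ k σ d ≠ 0 := by
    intro h0
    apply nonZeroDivisors.ne_zero d.2
    exact ψ_injective (h0.trans (map_zero (ψ k σ)).symm)
  have hr' : ∀ κ, ψ k σ (r κ) = ψ k σ d * g κ := by
    intro κ
    have := hr κ
    rw [Algebra.smul_def] at this
    exact this
  obtain ⟨C, hC⟩ : ∃ C, ∀ κ, r κ ∈ PW k a C := by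
    refine ⟨Finset.univ.sup fun κ => weightedTotalDegree a (r κ), fun κ => ?_⟩
    rw [mem_PW]
    intro α hα
    exact (le_weightedTotalDegree a hα).trans
      (Finset.le_sup (f := fun κ => weightedTotalDegree a (r κ)) (Finset.mem_univ κ))
  have hEP : ∀ (n : ℕ) (Q : MvPolynomial τ k), Q ∈ PW k b n → aeval E Q ∈ PW k a n := by
    intro n Q hQ
    rw [mem_PW] at hQ
    rw [Q.as_sum, map_sum]
    apply Submodule.sum_mem
    intro β hβ
    refine PW_mono (hQ β hβ) ?_
    have h1 : aeval E (monomial β (coeff β Q)) = coeff β Q • ∏ l, E l ^ β l := by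
      rw [aeval_monomial, Finsupp.prod_fintype _ _ (by simp), Algebra.smul_def]
    rw [h1]
    apply Submodule.smul_mem
    rw [weight_eq]
    have h2 : ∀ s : Finset τ, ∏ l ∈ s, E l ^ β l ∈ PW k a (∑ l ∈ s, b l * β l) := by
      intro s
      induction s using Finset.induction_on with
      | empty =>
        simp only [Finset.prod_empty, Finset.sum_empty]
        exact monomial_mem_PW (by simp) 1
      | insert l s hl ih =>
        rw [Finset.prod_insert hl, Finset.sum_insert hl]
        refine PW_mul ?_ ih
        have h3 : ∀ m : ℕ, E l ^ m ∈ PW k a (b l * m) := by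
          intro m
          induction m with
          | zero =>
            rw [pow_zero, mul_zero]
            exact monomial_mem_PW (by simp) 1
          | succ m ihm =>
            rw [pow_succ, mul_add, mul_one]
            exact PW_mul ihm (hE l)
        exact h3 _
    exact h2 Finset.univ
  have hle : ∀ n, N * cnt b n ≤ 1 * cnt a (n + C) := by
    intro n
    let Θ : (Fin N → PW k b n) →ₗ[k] PW k a (n + C) :=
      { toFun := fun Q => ⟨∑ κ, aeval E (Q κ : MvPolynomial τ k) * r κ, by
          apply Submodule.sum_mem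
          intro κ _
          exact PW_mul (hEP n _ (Q κ).2) (hC κ)⟩
        map_add' := fun Q Q' => by
          apply Subtype.ext
          simp only [Pi.add_apply, Submodule.coe_add, map_add, add_mul, Finset.sum_add_distrib]
        map_smul' := fun c Q => by
          apply Subtype.ext
          simp only [Pi.smul_apply, Submodule.coe_smul, map_smul, RingHom.id_apply,
            Finset.smul_sum, smul_mul_assoc] }
    have hΘ : Function.Injective Θ := by
      rw [injective_iff_map_eq_zero]
      intro Q hQ
      have h1 : ∑ κ, aeval E (Q κ : MvPolynomial τ k) * r κ = 0 := congrArg Subtype.val hQ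
      have h2 : ∑ κ, (aeval (fun l => EF E l) (Q κ : MvPolynomial τ k) : FF E) • g κ = 0 := by
        have h3 := congrArg (ψ k σ) h1
        rw [map_sum, map_zero] at h3
        have h4 : ψ k σ d * ∑ κ, (aeval (fun l => EF E l) (Q κ : MvPolynomial τ k) : FF E) • g κ
            = 0 := by
          rw [← h3, Finset.mul_sum]
          refine Finset.sum_congr rfl fun κ _ => ?_
          rw [map_mul, hr', Algebra.smul_def]
          have h5 : algebraMap (FF E) (LL k σ) (aeval (fun l => EF E l) (Q κ : MvPolynomial τ k)) =
              ψ k σ (aeval E (Q κ : MvPolynomial τ k)) := by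
            have e1 := MvPolynomial.map_aeval (fun l => EF E l)
              (algebraMap (FF E) (LL k σ)) (Q κ : MvPolynomial τ k)
            have e2 := MvPolynomial.map_aeval E
              (ψ k σ).toRingHom (Q κ : MvPolynomial τ k)
            rw [e1]
            refine Eq.trans ?_ e2.symm
            rfl
          rw [h5]
          ring
        exact (mul_eq_zero.mp h4).resolve_left hd0
      have h6 := Fintype.linearIndependent_iff.mp g.linearIndependent _ h2
      funext κ
      apply Subtype.ext
      have h7 := h6 κ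
      have h8 : AlgebraicIndependent k (EF E) := by
        have h9 : AlgebraicIndependent k (fun l => ψ k σ (E l)) := hind.map' ψ_injective
        exact AlgebraicIndependent.of_comp (FF E).val (x := EF E) h9
      have h10 : aeval (EF E) (Q κ : MvPolynomial τ k) = aeval (EF E) (0 : MvPolynomial τ k) := by
        rw [map_zero]
        exact h7
      exact h8 h10
    have h1 := LinearMap.finrank_le_finrank_of_injective hΘ
    rw [Module.finrank_pi_fintype, finrank_PW] at h1
    simp only [finrank_PW, Finset.sum_const, Finset.card_univ, Fintype.card_fin, smul_eq_mul] at h1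
    rw [one_mul]
    exact h1
  have := prod_le_of_cnt hcard.symm b hb a ha N 1 C hle
  rwa [one_mul] at this

end

end Pool.Agent.W235.CY
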