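import Mathlib
import Pool.Agent.W235.CY.Rank

/-!
Counting the solutions of a system for a generic right side.
-/

set_option autoImplicit false
set_option linter.unusedSectionVars false

namespace Pool.Agent.W235.CY

open MvPolynomial

section

variable {k : Type} [Field k] {σ τ : Type} [Fintype σ] [Fintype τ]
  {K : Type} [Field K] [Algebra k K]

theorem ind' {E : τ → MvPolynomial σ k} (hE : AlgebraicIndependent k E) :
    AlgebraicIndependent k (fun l => ψ k σ (E l)) := hE.map' ψ_injective

/-- the map of the field generated by the system which takes the system to `z` -/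
noncomputable def base {E : τ → MvPolynomial σ k} (hE : AlgebraicIndependent k E) {z : τ → K}
    (hz : AlgebraicIndependent k z) : FF E →ₐ[k] K :=
  (IsFractionRing.liftAlgHom (K := FractionRing (MvPolynomial τ k))
    (algebraicIndependent_iff_injective_aeval.1 hz)).comp
      ((ind' hE).aevalEquivField.symm : FF E →ₐ[k] FractionRing (MvPolynomial τ k))

theorem base_EF {E : τ → MvPolynomial σ k} (hE : AlgebraicIndependent k E) {z : τ → K}
    (hz : AlgebraicIndependent k z) (l : τ) : base hE hz (EF E l) = z l := by
  have h1 : (ind' hE).aevalEquivField (algebraMap (MvPolynomial τ k)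
      (FractionRing (MvPolynomial τ k)) (X l)) = EF E l := by
    apply Subtype.ext
    rw [AlgebraicIndependent.aevalEquivField_algebraMap_apply_coe, aeval_X]
    rfl
  have h2 : (ind' hE).aevalEquivField.symm (EF E l) = algebraMap (MvPolynomial τ k)
      (FractionRing (MvPolynomial τ k)) (X l) := by
    rw [← h1, AlgEquiv.symm_apply_apply]
  show (IsFractionRing.liftAlgHom (K := FractionRing (MvPolynomial τ k))
    (algebraicIndependent_iff_injective_aeval.1 hz))
    ((ind' hE).aevalEquivField.symm (EF E l)) = z l
  rw [h2]
  simp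

theorem homs_ext {E : τ → MvPolynomial σ k} (f g : FF E →ₐ[k] K)
    (h : ∀ l, f (EF E l) = g (EF E l)) : f = g := by
  apply IntermediateField.adjoin_algHom_ext
  rintro x ⟨l, rfl⟩
  exact h l

/-- enough solutions over an algebraically closed field -/
theorem exists_solutions [CharZero k] [IsAlgClosed K] {E : τ → MvPolynomial σ k}
    (hE : AlgebraicIndependent k E) (hfd : FiniteDimensional (FF E) (LL k σ)) {z : τ → K}
    (hz : AlgebraicIndependent k z) :
    ∃ f : Fin (Module.finrank (FF E) (LL k σ)) → σ → K, Function.Injective f ∧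
      ∀ n l, aeval (f n) (E l) = z l := by
  let _ : Algebra (FF E) K := (base hE hz).toRingHom.toAlgebra
  have hst : IsScalarTower k (FF E) K := IsScalarTower.of_algHom (base hE hz)
  have hsep : Algebra.IsSeparable (FF E) (LL k σ) := inferInstance
  have hcard := AlgHom.card (FF E) (LL k σ) K
  let e : Fin (Module.finrank (FF E) (LL k σ)) ≃ (LL k σ →ₐ[FF E] K) :=
    (Fintype.equivFinOfCardEq hcard).symm
  refine ⟨fun n i => e n (ψ k σ (X i)), ?_, ?_⟩
  · intro m n hmn
    apply e.injective
    have h1 : ((e m).restrictScalars k).comp (ψ k σ) = ((e n).restrictScalars k).comp (ψ k σ) := by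
      apply MvPolynomial.algHom_ext
      intro i
      exact congrFun hmn i
    apply AlgHom.coe_ringHom_injective
    apply IsLocalization.ringHom_ext (nonZeroDivisors (MvPolynomial σ k))
    apply RingHom.ext
    intro p
    exact DFunLike.congr_fun h1 p
  · intro n l
    have h1 : aeval (fun i => e n (ψ k σ (X i))) (E l) = e n (ψ k σ (E l)) := by
      have h2 : aeval (fun i => e n (ψ k σ (X i))) =
          ((e n).restrictScalars k).comp (ψ k σ) := by
        apply MvPolynomial.algHom_ext
        intro i
        rw [aeval_X]
        rfl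
      rw [h2]
      rfl
    rw [h1]
    have h2 : e n (ψ k σ (E l)) = e n (algebraMap (FF E) (LL k σ) (EF E l)) := rfl
    rw [h2, (e n).commutes]
    exact base_EF hE hz l

/-- the coordinates of a solution for a generic right side are independent -/
theorem aeval_injective_of_solution {a : σ → ℕ} {b : τ → ℕ} {E t : τ → MvPolynomial σ k}
    (h : TopSys a b E t) {z : τ → K} (hz : AlgebraicIndependent k z) (y : σ → K)
    (hy : ∀ l, aeval y (E l) = z l) : Function.Injective (aeval y : MvPolynomial σ k →ₐ[k] K) := by
  have hfin := module_finite h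
  have hint : Algebra.IsIntegral (Algebra.adjoin k (Set.range E)) (MvPolynomial σ k) :=
    Algebra.IsIntegral.of_finite _ _
  rw [injective_iff_map_eq_zero]
  intro x hx
  by_contra hx0
  have h1 := Ideal.comap_ne_bot_of_integral_mem (R := Algebra.adjoin k (Set.range E))
    (I := RingHom.ker (aeval y : MvPolynomial σ k →ₐ[k] K)) hx0 hx (hint.isIntegral x)
  apply h1
  rw [eq_bot_iff]
  intro b hb
  have hb' : aeval y (b : MvPolynomial σ k) = 0 := hb
  obtain ⟨P, hP⟩ := (Algebra.adjoin_range_eq_range_aeval k E ▸ b.2 :
    (b : MvPolynomial σ k) ∈ (aeval E : MvPolynomial τ k →ₐ[k] MvPolynomial σ k).range)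
  have hP' : aeval E P = (b : MvPolynomial σ k) := hP
  have h2 : aeval z P = 0 := by
    rw [← hb', ← hP', ← AlgHom.comp_apply, comp_aeval]
    congr 2
    funext l
    exact (hy l).symm
  have h3 : P = 0 := (algebraicIndependent_iff.mp hz) P h2
  rw [Submodule.mem_bot]
  apply Subtype.ext
  rw [← hP', h3, map_zero]
  rfl

/-- not too many solutions for a generic right side -/
theorem solutions_le {a : σ → ℕ} {b : τ → ℕ} {E t : τ → MvPolynomial σ k}
    (h : TopSys a b E t) (hcard : Fintype.card σ = Fintype.card τ) {z : τ → K}
    (hz : AlgebraicIndependent k z) {ι : Type} [Fintype ι] (y : ι → σ → K)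
    (hinj : Function.Injective y) (hy : ∀ n l, aeval (y n) (E l) = z l) :
    Fintype.card ι ≤ Module.finrank (FF E) (LL k σ) := by
  have hE := algebraicIndependent h hcard
  have hfd := finiteDimensional h
  let _ : Algebra (FF E) K := (base hE hz).toRingHom.toAlgebra
  have hst : IsScalarTower k (FF E) K := IsScalarTower.of_algHom (base hE hz)
  have hhom : ∀ n, ∃ φ : LL k σ →ₐ[FF E] K, ∀ i, φ (ψ k σ (X i)) = y n i := by
    intro n
    have h1 := aeval_injective_of_solution h hz (y n) (hy n)
    let φ : LL k σ →ₐ[k] K := IsFractionRing.liftAlgHom h1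
    have hφ : ∀ p, φ (ψ k σ p) = aeval (y n) p := fun p => IsFractionRing.lift_algebraMap h1 p
    have hcomp : φ.comp (FF E).val = base hE hz := by
      apply homs_ext
      intro l
      rw [base_EF]
      show φ (ψ k σ (E l)) = z l
      rw [hφ, hy]
    refine ⟨{ φ.toRingHom with commutes' := fun x => ?_ }, fun i => ?_⟩
    · exact DFunLike.congr_fun hcomp x
    · show φ (ψ k σ (X i)) = y n i
      rw [hφ, aeval_X]
  choose φ hφ using hhom
  have hφi : Function.Injective φ := by
    intro m n hmn
    apply hinj
    funext i
    rw [← hφ, ← hφ, hmn]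
  have h1 := Nat.card_le_card_of_injective φ hφi
  rw [Nat.card_eq_fintype_card] at h1
  exact h1.trans (card_algHom_le_finrank _ _ _)

end

end Pool.Agent.W235.CY
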