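import Mathlib
import Pool.Agent.W235.CY.Homs

/-!
The equations of polynomial and Laurent curves in a variety.
-/

set_option autoImplicit false
set_option linter.unusedSectionVars false

namespace Pool.Agent.W235.CY

open MvPolynomial

section

variable {V ι : Type} [Fintype V] [Fintype ι] (w : V → ℕ) (d : ι → ℕ)
  (f : ι → MvPolynomial V ℂ)

/-- indices of the coefficients of a curve (or an equation) -/
abbrev Un {V : Type} (w : V → ℕ) (M : ℕ) : Type := Σ i, Fin (M * w i)

/-- the weights -/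
def aw {V : Type} (w : V → ℕ) (M : ℕ) : Un w M → ℕ := fun x => (x.2 : ℕ) + 1

/-- the curve with coefficients `y` -/
noncomputable def xp {A : Type} [CommRing A] {M : ℕ} (y : Un w M → A) (i : V) : Polynomial A :=
  ∑ l : Fin (M * w i), Polynomial.C (y ⟨i, l⟩) * Polynomial.X ^ ((l : ℕ) + 1)

theorem xp_map {A B : Type} [CommRing A] [CommRing B] (φ : A →+* B) {M : ℕ} (y : Un w M → A)
    (i : V) : (xp w y i).map φ = xp w (fun l => φ (y l)) i := by
  simp [xp, Polynomial.map_sum]

theorem xp_eval {A : Type} [CommRing A] {M : ℕ} (y : Un w M → A) (i : V) (τ : A) :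
    (xp w y i).eval τ = ∑ l : Fin (M * w i), y ⟨i, l⟩ * τ ^ ((l : ℕ) + 1) := by
  simp [xp, Polynomial.eval_finsetSum]

theorem xp_coeff {A : Type} [CommRing A] {M : ℕ} (y : Un w M → A) (i : V) (l : Fin (M * w i)) :
    (xp w y i).coeff ((l : ℕ) + 1) = y ⟨i, l⟩ := by
  classical
  unfold xp
  rw [Polynomial.finsetSum_coeff, Finset.sum_eq_single l]
  · simp
  · intro m _ hm
    rw [Polynomial.coeff_C_mul_X_pow, if_neg]
    intro h
    apply hm
    ext
    omega
  · simp

theorem xp_degree {A : Type} [CommRing A] {M : ℕ} (y : Un w M → A) (i : V) :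
    (xp w y i).natDegree ≤ M * w i := by
  unfold xp
  apply Polynomial.natDegree_sum_le_of_forall_le
  intro l _
  refine (Polynomial.natDegree_C_mul_X_pow_le _ _).trans ?_
  have := l.2
  omega

theorem xp_injective {A : Type} [CommRing A] {M : ℕ} {y y' : Un w M → A}
    (h : ∀ i, xp w y i = xp w y' i) : y = y' := by
  funext x
  obtain ⟨i, l⟩ := x
  rw [← xp_coeff w y i l, ← xp_coeff w y' i l, h]

/-- the homogenization of `F`, evaluated -/
noncomputable def hp {A : Type} [CommRing A] [Algebra ℂ A] (u : A) (x : V → A)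
    (F : MvPolynomial V ℂ) (D : ℕ) : A :=
  ∑ α ∈ F.support, algebraMap ℂ A (F.coeff α) * u ^ (D - Finsupp.weight w α) * ∏ i, x i ^ α i

theorem hp_map {A B : Type} [CommRing A] [Algebra ℂ A] [CommRing B] [Algebra ℂ B] (φ : A →ₐ[ℂ] B)
    (u : A) (x : V → A) (F : MvPolynomial V ℂ) (D : ℕ) :
    φ (hp w u x F D) = hp w (φ u) (fun i => φ (x i)) F D := by
  simp only [hp, map_sum, map_mul, map_pow, map_prod, AlgHom.commutes]

theorem aeval_eq_sum' {A : Type} [CommRing A] [Algebra ℂ A] (x : V → A) (F : MvPolynomial V ℂ) :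
    aeval x F = ∑ α ∈ F.support, algebraMap ℂ A (F.coeff α) * ∏ i, x i ^ α i := by
  rw [aeval_def, eval₂_eq']

theorem hp_smul {A : Type} [CommRing A] [Algebra ℂ A] (u : A) (x : V → A)
    (F : MvPolynomial V ℂ) (D : ℕ) (hF : ∀ α ∈ F.support, Finsupp.weight w α ≤ D) :
    hp w u (fun i => u ^ w i * x i) F D = u ^ D * aeval x F := by
  rw [aeval_eq_sum', hp, Finset.mul_sum]
  refine Finset.sum_congr rfl fun α hα => ?_
  have h1 : ∏ i, (u ^ w i * x i) ^ α i = u ^ Finsupp.weight w α * ∏ i, x i ^ α i := by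
    simp only [mul_pow]
    rw [Finset.prod_mul_distrib, weight_eq, ← Finset.prod_pow_eq_pow_sum]
    congr 1
    refine Finset.prod_congr rfl fun i _ => ?_
    rw [← pow_mul]
  rw [h1]
  have h2 : u ^ D = u ^ (D - Finsupp.weight w α) * u ^ Finsupp.weight w α := by
    rw [← pow_add, Nat.sub_add_cancel (hF α hα)]
  rw [h2]
  ring

/-- equations of polynomial curves -/
noncomputable def tt (M : ℕ) (x : Un d M) : MvPolynomial (Un w M) ℂ :=
  (aeval (xp w (X : Un w M → MvPolynomial (Un w M) ℂ)) (f x.1)).coeff ((x.2 : ℕ) + 1)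

/-- the polynomial of which the equations of Laurent curves are the coefficients -/
noncomputable def Ep {A : Type} [CommRing A] [Algebra ℂ A] (N : ℕ) (y : Un w (2 * N) → A) (j : ι) :
    Polynomial A :=
  hp w ((1 + Polynomial.X) ^ N) (xp w y) (f j) (d j)

/-- equations of Laurent curves -/
noncomputable def EE (N : ℕ) (x : Un d (2 * N)) : MvPolynomial (Un w (2 * N)) ℂ :=
  (Ep w d f N (X : Un w (2 * N) → MvPolynomial (Un w (2 * N)) ℂ) x.1).coeff ((x.2 : ℕ) + 1)

theorem aeval_tt {A : Type} [CommRing A] [Algebra ℂ A] (M : ℕ) (y : Un w M → A) (x : Un d M) :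
    aeval y (tt w d f M x) = (aeval (xp w y) (f x.1)).coeff ((x.2 : ℕ) + 1) := by
  unfold tt
  have h1 : (Polynomial.mapAlgHom (aeval y : MvPolynomial (Un w M) ℂ →ₐ[ℂ] A))
      (aeval (xp w (X : Un w M → MvPolynomial (Un w M) ℂ)) (f x.1)) = aeval (xp w y) (f x.1) := by
    rw [← AlgHom.comp_apply, comp_aeval]
    congr 2
    funext i
    have := xp_map w (aeval y : MvPolynomial (Un w M) ℂ →ₐ[ℂ] A).toRingHom
      (X : Un w M → MvPolynomial (Un w M) ℂ) i
    simpa using this
  rw [← h1]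
  simp [Polynomial.coeff_map]

theorem aeval_EE {A : Type} [CommRing A] [Algebra ℂ A] (N : ℕ) (y : Un w (2 * N) → A)
    (x : Un d (2 * N)) :
    aeval y (EE w d f N x) = (Ep w d f N y x.1).coeff ((x.2 : ℕ) + 1) := by
  unfold EE Ep
  have h1 := hp_map w (Polynomial.mapAlgHom (aeval y : MvPolynomial (Un w (2 * N)) ℂ →ₐ[ℂ] A))
    ((1 + Polynomial.X) ^ N) (xp w (X : Un w (2 * N) → MvPolynomial (Un w (2 * N)) ℂ)) (f x.1) (d x.1)
  have h2 : (Polynomial.mapAlgHom (aeval y : MvPolynomial (Un w (2 * N)) ℂ →ₐ[ℂ] A))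
      ((1 + Polynomial.X) ^ N) = (1 + Polynomial.X) ^ N := by
    simp
  have h3 : (fun i => (Polynomial.mapAlgHom (aeval y : MvPolynomial (Un w (2 * N)) ℂ →ₐ[ℂ] A))
      (xp w (X : Un w (2 * N) → MvPolynomial (Un w (2 * N)) ℂ) i)) = xp w y := by
    funext i
    have := xp_map w (aeval y : MvPolynomial (Un w (2 * N)) ℂ →ₐ[ℂ] A).toRingHom
      (X : Un w (2 * N) → MvPolynomial (Un w (2 * N)) ℂ) i
    simpa using this
  rw [h2, h3] at h1
  rw [← h1]
  simp [Polynomial.coeff_map]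

/-! ### weights of the coefficients -/

/-- the coefficient of degree `m` is homogeneous of weight `m` -/
def Hm {M : ℕ} (P : Polynomial (MvPolynomial (Un w M) ℂ)) : Prop :=
  ∀ m, (P.coeff m).IsWeightedHomogeneous (aw w M) m

/-- the coefficient of degree `m` has weights less than `m` -/
def Lw {M : ℕ} (P : Polynomial (MvPolynomial (Un w M) ℂ)) : Prop :=
  ∀ m, ∀ α ∈ (P.coeff m).support, Finsupp.weight (aw w M) α < m

variable {w}

theorem Hm.mul {M : ℕ} {P Q : Polynomial (MvPolynomial (Un w M) ℂ)} (hP : Hm w P) (hQ : Hm w Q) :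
    Hm w (P * Q) := by
  intro m
  rw [Polynomial.coeff_mul]
  apply IsWeightedHomogeneous.sum
  intro x hx
  rw [Finset.HasAntidiagonal.mem_antidiagonal] at hx
  rw [← hx]
  exact (hP _).mul (hQ _)

theorem Hm.C {M : ℕ} (c : ℂ) :
    Hm w (algebraMap ℂ (Polynomial (MvPolynomial (Un w M) ℂ)) c) := by
  intro m
  have h1 : algebraMap ℂ (Polynomial (MvPolynomial (Un w M) ℂ)) c =
    Polynomial.C (MvPolynomial.C c) := rfl
  rw [h1, Polynomial.coeff_C]
  split_ifs with h
  · rw [h]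
    exact isWeightedHomogeneous_C _ _
  · exact isWeightedHomogeneous_zero _ _ _

theorem Hm.one {M : ℕ} : Hm w (1 : Polynomial (MvPolynomial (Un w M) ℂ)) := by
  have := Hm.C (w := w) (M := M) 1
  rwa [map_one] at this

theorem Hm.pow {M : ℕ} {P : Polynomial (MvPolynomial (Un w M) ℂ)} (hP : Hm w P) (n : ℕ) :
    Hm w (P ^ n) := by
  induction n with
  | zero => rw [pow_zero]; exact Hm.one
  | succ n ih => rw [pow_succ]; exact ih.mul hP

theorem Hm.prod {M : ℕ} {κ : Type} (s : Finset κ) (P : κ → Polynomial (MvPolynomial (Un w M) ℂ))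
    (hP : ∀ i, Hm w (P i)) : Hm w (∏ i ∈ s, P i) := by
  classical
  induction s using Finset.induction_on with
  | empty => rw [Finset.prod_empty]; exact Hm.one
  | insert i s hi ih => rw [Finset.prod_insert hi]; exact (hP i).mul ih

theorem Hm.sum {M : ℕ} {κ : Type} (s : Finset κ) (P : κ → Polynomial (MvPolynomial (Un w M) ℂ))
    (hP : ∀ i, Hm w (P i)) : Hm w (∑ i ∈ s, P i) := by
  intro m
  rw [Polynomial.finsetSum_coeff]
  exact IsWeightedHomogeneous.sum _ _ _ fun i _ => hP i m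

theorem Hm.xp {M : ℕ} (i : V) : Hm w (xp w (X : Un w M → MvPolynomial (Un w M) ℂ) i) := by
  unfold CY.xp
  apply Hm.sum
  intro l m
  rw [Polynomial.coeff_C_mul_X_pow]
  split_ifs with h
  · rw [h]
    exact isWeightedHomogeneous_X ℂ (aw w M) (⟨i, l⟩ : Un w M)
  · exact isWeightedHomogeneous_zero _ _ _

theorem Lw.mul_Hm {M : ℕ} {P Q : Polynomial (MvPolynomial (Un w M) ℂ)} (hP : Lw w P)
    (hQ : Hm w Q) : Lw w (P * Q) := by
  classical
  intro m α hα
  rw [Polynomial.coeff_mul] at hα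
  obtain ⟨x, hx, hα⟩ := Finset.mem_biUnion.mp (support_sum hα)
  rw [Finset.HasAntidiagonal.mem_antidiagonal] at hx
  obtain ⟨β, hβ, γ, hγ, rfl⟩ := Finset.mem_add.mp (support_mul _ _ hα)
  have h1 := hP _ β hβ
  have h2 := hQ _ (mem_support_iff.mp hγ)
  rw [map_add, h2]
  omega

theorem Lw.sum {M : ℕ} {κ : Type} (s : Finset κ) (P : κ → Polynomial (MvPolynomial (Un w M) ℂ))
    (hP : ∀ i ∈ s, Lw w (P i)) : Lw w (∑ i ∈ s, P i) := by
  classical
  intro m α hα
  rw [Polynomial.finsetSum_coeff] at hα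
  obtain ⟨x, hx, hα⟩ := Finset.mem_biUnion.mp (support_sum hα)
  exact hP x hx m α hα

theorem Lw.pow_sub {M : ℕ} (n : ℕ) :
    Lw w ((1 + Polynomial.X) ^ n - 1 : Polynomial (MvPolynomial (Un w M) ℂ)) := by
  intro m α hα
  rw [Polynomial.coeff_sub, Polynomial.coeff_one_add_X_pow, Polynomial.coeff_one] at hα
  rcases Nat.eq_zero_or_pos m with rfl | hm
  · simp at hα
  · rw [if_neg (by omega), sub_zero] at hα
    have h1 : ((n.choose m : ℕ) : MvPolynomial (Un w M) ℂ) = MvPolynomial.C ((n.choose m : ℕ) : ℂ) := by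
      simp
    rw [h1] at hα
    have h2 := isWeightedHomogeneous_C (aw w M) ((n.choose m : ℕ) : ℂ) (mem_support_iff.mp hα)
    omega

variable (w)

theorem tt_hom (M : ℕ) (x : Un d M) :
    (tt w d f M x).IsWeightedHomogeneous (aw w M) (aw d M x) := by
  have h1 : Hm w (aeval (xp w (X : Un w M → MvPolynomial (Un w M) ℂ)) (f x.1)) := by
    rw [aeval_eq_sum']
    apply Hm.sum
    intro α
    apply (Hm.C _).mul
    apply Hm.prod
    intro i
    exact (Hm.xp i).pow _
  exact h1 _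

theorem EE_low (N : ℕ) (x : Un d (2 * N)) :
    ∀ α ∈ (EE w d f N x - tt w d f (2 * N) x).support,
      Finsupp.weight (aw w (2 * N)) α < aw d (2 * N) x := by
  have h1 : Lw w (Ep w d f N (X : Un w (2 * N) → MvPolynomial (Un w (2 * N)) ℂ) x.1 -
      aeval (xp w (X : Un w (2 * N) → MvPolynomial (Un w (2 * N)) ℂ)) (f x.1)) := by
    rw [aeval_eq_sum']
    unfold Ep hp
    rw [← Finset.sum_sub_distrib]
    apply Lw.sum
    intro α _
    have h2 : algebraMap ℂ (Polynomial (MvPolynomial (Un w (2 * N)) ℂ)) (coeff α (f x.1)) *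
        ((1 + Polynomial.X) ^ N) ^ (d x.1 - Finsupp.weight w α) *
        ∏ i, xp w (X : Un w (2 * N) → MvPolynomial (Un w (2 * N)) ℂ) i ^ α i -
        algebraMap ℂ (Polynomial (MvPolynomial (Un w (2 * N)) ℂ)) (coeff α (f x.1)) *
        ∏ i, xp w (X : Un w (2 * N) → MvPolynomial (Un w (2 * N)) ℂ) i ^ α i =
        ((1 + Polynomial.X) ^ (N * (d x.1 - Finsupp.weight w α)) - 1) *
        (algebraMap ℂ (Polynomial (MvPolynomial (Un w (2 * N)) ℂ)) (coeff α (f x.1)) *
          ∏ i, xp w (X : Un w (2 * N) → MvPolynomial (Un w (2 * N)) ℂ) i ^ α i) := by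
      rw [← pow_mul]
      ring
    rw [h2]
    apply (Lw.pow_sub _).mul_Hm
    apply (Hm.C _).mul
    apply Hm.prod
    intro i
    exact (Hm.xp i).pow _
  intro α hα
  unfold EE tt at hα
  rw [← Polynomial.coeff_sub] at hα
  exact h1 _ α hα

/-- Nullstellensatz for a system without nontrivial zero -/
theorem null_of_zero {σ τ : Type} [Finite σ] (t : τ → MvPolynomial σ ℂ)
    (h : ∀ y : σ → ℂ, (∀ l, eval y (t l) = 0) → y = 0) (i : σ) :
    ∃ m, (X i : MvPolynomial σ ℂ) ^ m ∈ Ideal.span (Set.range t) := by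
  have h1 : (X i : MvPolynomial σ ℂ) ∈ vanishingIdeal ℂ (zeroLocus ℂ (Ideal.span (Set.range t))) := by
    rw [mem_vanishingIdeal_iff]
    intro y hy
    rw [mem_zeroLocus_iff] at hy
    have h2 : y = 0 := by
      apply h
      intro l
      have := hy (t l) (Ideal.subset_span ⟨l, rfl⟩)
      rwa [aeval_def, Algebra.algebraMap_self, eval₂_id] at this
    rw [h2]
    simp
  rw [vanishingIdeal_zeroLocus_eq_radical] at h1
  exact h1

end

end Pool.Agent.W235.CY
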