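import Mathlib
import Pool.Agent.W235.BLV.Spec
import Pool.Agent.W235.CY.Sys

/-!
Solutions over a valued field: scaling, integrality and residues.
-/

set_option autoImplicit false
set_option linter.unusedSectionVars false

namespace Pool.Agent.W235.CY

open MvPolynomial
open Pool.Agent.W235.BLV (exists_max)

section

variable {K : Type} [Field K] (O : ValuationSubring K)

/-- the residue map -/
noncomputable abbrev res : O →+* IsLocalRing.ResidueField O := IsLocalRing.residue O

theorem res_eq_zero_iff (x : O) : res O x = 0 ↔ ¬ IsUnit x := by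
  rw [IsLocalRing.residue_eq_zero_iff, IsLocalRing.mem_maximalIdeal, mem_nonunits_iff]

theorem mem_of_pow_mem {x : K} {m : ℕ} (hm : 1 ≤ m) (h : x ^ m ∈ O) : x ∈ O := by
  rw [← O.valuation_le_one_iff] at h ⊢
  rw [map_pow] at h
  by_contra hcon
  rw [not_le] at hcon
  exact absurd h (not_le.mpr (one_lt_pow₀ hcon (by omega)))

/-- common scaling -/
theorem exists_scale [IsAlgClosed K] {I : Type} [Finite I] (g : I → K) (m : I → ℕ)
    (hm : ∀ i, 1 ≤ m i) (h : ∃ i, g i ≠ 0) :
    ∃ (lam : K) (h : I → O), lam ≠ 0 ∧ (∀ i, g i = lam ^ m i * h i) ∧ ∃ i0, h i0 = 1 := by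
  have hroot : ∀ i, ∃ r : K, r ^ m i = g i := fun i =>
    IsAlgClosed.exists_pow_nat_eq _ (hm i)
  choose r hr using hroot
  obtain ⟨i, hi⟩ := h
  obtain ⟨i0, hi0, hmax⟩ := exists_max O r ⟨i, by
    intro h0
    apply hi
    rw [← hr i, h0, zero_pow (by have := hm i; omega)]⟩
  refine ⟨r i0, fun i => ⟨(r i / r i0) ^ m i, pow_mem (hmax i) _⟩, hi0, fun i => ?_, i0, ?_⟩
  · simp only
    rw [div_pow, hr i, mul_div_cancel₀ _ (pow_ne_zero _ hi0)]
  · apply Subtype.ext
    simp [div_self hi0]

end

section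

variable {K : Type} [Field K] [Algebra ℂ K] (O : ValuationSubring K) [Algebra ℂ O]
  [IsScalarTower ℂ O K]

/-- the residue map as a map of algebras -/
noncomputable abbrev resA : O →ₐ[ℂ] IsLocalRing.ResidueField O :=
  IsScalarTower.toAlgHom ℂ O (IsLocalRing.ResidueField O)

theorem resA_apply (x : O) : resA O x = res O x := rfl

/-- the inclusion as a map of algebras -/
noncomputable abbrev incA : O →ₐ[ℂ] K := IsScalarTower.toAlgHom ℂ O K

theorem incA_apply (x : O) : incA O x = (x : K) := rfl

theorem res_aeval {σ : Type} (x : σ → O) (F : MvPolynomial σ ℂ) :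
    res O (aeval x F) = aeval (fun i => res O (x i)) F := by
  have h1 : (resA O).comp (aeval x) = aeval (fun i => res O (x i)) := by
    apply MvPolynomial.algHom_ext
    intro i
    simp
  exact DFunLike.congr_fun h1 F

theorem coe_aeval {σ : Type} (x : σ → O) (F : MvPolynomial σ ℂ) :
    ((aeval x F : O) : K) = aeval (fun i => (x i : K)) F := by
  have h1 : (incA O).comp (aeval x) = aeval (fun i => (x i : K)) := by
    apply MvPolynomial.algHom_ext
    intro i
    simp [incA]
  exact DFunLike.congr_fun h1 F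

theorem hp_add {V : Type} [Fintype V] (w : V → ℕ) {A : Type} [CommRing A] [Algebra ℂ A] (u : A)
    (x : V → A) (F G : MvPolynomial V ℂ) (D : ℕ) :
    hp w u x (F + G) D = hp w u x F D + hp w u x G D := by
  classical
  have h1 : ∀ (F : MvPolynomial V ℂ) (S : Finset (V →₀ ℕ)), F.support ⊆ S → hp w u x F D =
      ∑ α ∈ S, algebraMap ℂ A (F.coeff α) * u ^ (D - Finsupp.weight w α) * ∏ i, x i ^ α i := by
    intro F S hS
    unfold hp
    apply Finset.sum_subset hS
    intro α _ hα
    rw [notMem_support_iff.mp hα, map_zero, zero_mul, zero_mul]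
  rw [h1 (F + G) (F.support ∪ G.support) support_add,
    h1 F (F.support ∪ G.support) Finset.subset_union_left,
    h1 G (F.support ∪ G.support) Finset.subset_union_right, ← Finset.sum_add_distrib]
  refine Finset.sum_congr rfl fun α _ => ?_
  rw [coeff_add, map_add]
  ring

theorem hp_zero_top {σ τ : Type} [Fintype σ] [Fintype τ] {a : σ → ℕ} {b : τ → ℕ}
    {E t : τ → MvPolynomial σ ℂ} (h : TopSys a b E t) {A : Type} [CommRing A] [Algebra ℂ A]
    (x : σ → A) (l : τ) : hp a (0 : A) x (E l) (b l) = aeval x (t l) := by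
  have h1 : E l = t l + (E l - t l) := by ring
  rw [h1, hp_add]
  have h2 : hp a (0 : A) x (t l) (b l) = aeval x (t l) := by
    rw [aeval_eq_sum', hp]
    refine Finset.sum_congr rfl fun α hα => ?_
    have := h.hom l (mem_support_iff.mp hα)
    rw [this, Nat.sub_self, pow_zero, mul_one]
  have h3 : hp a (0 : A) x (E l - t l) (b l) = 0 := by
    unfold hp
    apply Finset.sum_eq_zero
    intro α hα
    have := h.low l α hα
    rw [zero_pow (by omega), mul_zero, zero_mul]
  rw [h2, h3, add_zero]

theorem eq_zero_of_null {σ τ : Type} {t : τ → MvPolynomial σ ℂ}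
    (ht : ∀ i, ∃ m, (X i : MvPolynomial σ ℂ) ^ m ∈ Ideal.span (Set.range t)) {κ : Type} [Field κ]
    [Algebra ℂ κ] (x : σ → κ) (hx : ∀ l, aeval x (t l) = 0) (i : σ) : x i = 0 := by
  obtain ⟨m, hm⟩ := ht i
  have h1 : Ideal.span (Set.range t) ≤ RingHom.ker (aeval x : MvPolynomial σ ℂ →ₐ[ℂ] κ) := by
    rw [Ideal.span_le]
    rintro _ ⟨l, rfl⟩
    exact hx l
  have h2 := h1 hm
  rw [RingHom.mem_ker, map_pow, aeval_X] at h2
  exact (pow_eq_zero_iff (n := m) (by
    rintro rfl
    simp at h2)).mp h2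

/-- integrality of the solutions -/
theorem integral [IsAlgClosed K] {σ τ : Type} [Fintype σ] [Fintype τ] {a : σ → ℕ} {b : τ → ℕ}
    {E t : τ → MvPolynomial σ ℂ} (h : TopSys a b E t) (y : σ → K) (z : τ → O)
    (hy : ∀ l, aeval y (E l) = (z l : K)) (i : σ) : y i ∈ O := by
  by_contra hcon
  obtain ⟨lam, g, hlam, hg, i0, hi0⟩ := exists_scale O y a h.ha ⟨i, by
    intro h0
    apply hcon
    rw [h0]
    exact O.zero_mem⟩
  have hlO : lam ∉ O := by
    intro hl
    apply hcon
    rw [hg i]
    exact O.mul_mem _ _ (pow_mem hl _) (SetLike.coe_mem _)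
  obtain ⟨μ, hμ⟩ : ∃ μ : O, (μ : K) = lam⁻¹ :=
    ⟨⟨lam⁻¹, (O.mem_or_inv_mem lam).resolve_left hlO⟩, rfl⟩
  have hμ0 : res O μ = 0 := by
    rw [res_eq_zero_iff]
    rintro ⟨u, hu⟩
    apply hlO
    have h1 : ((↑u⁻¹ : O) : K) = lam := by
      have h2 : ((u : O) : K) * ((↑u⁻¹ : O) : K) = 1 := by
        have := congrArg (fun z : O => (z : K)) (u.mul_inv)
        exact this
      rw [hu, hμ] at h2
      field_simp at h2
      exact h2
    rw [← h1]
    exact SetLike.coe_mem _
  have hy' : y = fun i => lam ^ a i * g i := funext hg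
  have hkey : ∀ l, aeval (fun i => res O (g i)) (t l) = 0 := by
    intro l
    rw [← hp_zero_top h (fun i => res O (g i)) l]
    have h1 : hp a μ g (E l) (b l) = μ ^ b l * z l := by
      apply Subtype.ext
      have h2 := hp_map a (incA O) μ g (E l) (b l)
      have h3 := hp_smul a (μ : K) y (E l) (b l) (by
        intro α hα
        by_cases h4 : α ∈ (t l).support
        · exact (h.hom l (mem_support_iff.mp h4)).le
        · have h5 : α ∈ (E l - t l).support := by
            rw [mem_support_iff, coeff_sub, notMem_support_iff.mp h4, sub_zero]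
            exact mem_support_iff.mp hα
          exact (h.low l α h5).le)
      have h4 : (fun i => (μ : K) ^ a i * y i) = fun i => (g i : K) := by
        funext i
        rw [hg i, hμ, inv_pow, ← mul_assoc, inv_mul_cancel₀ (pow_ne_zero _ hlam), one_mul]
      rw [h4, hy] at h3
      exact h2.trans h3
    have h2 := hp_map a (resA O) μ g (E l) (b l)
    rw [h1] at h2
    have h3 : resA O (μ ^ b l * z l) = 0 := by
      rw [resA_apply, map_mul, map_pow, hμ0, zero_pow (by have := h.hb l; omega), zero_mul]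
    rw [h3, resA_apply, hμ0] at h2
    exact h2.symm
  have h1 := eq_zero_of_null h.null (fun i => res O (g i)) hkey i0
  rw [hi0, map_one] at h1
  exact one_ne_zero h1

/-- small right sides have small solutions -/
theorem small [IsAlgClosed K] {σ τ : Type} [Fintype σ] [Fintype τ] {a : σ → ℕ} {b : τ → ℕ}
    {E t : τ → MvPolynomial σ ℂ} (h : TopSys a b E t)
    (hE : ∀ i, ∃ m, (X i : MvPolynomial σ ℂ) ^ m ∈ Ideal.span (Set.range E)) (y : σ → K) (z : τ → O)
    (hz : ∀ l, res O (z l) = 0) (hy : ∀ l, aeval y (E l) = (z l : K)) :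
    ∃ y' : σ → O, (∀ i, (y' i : K) = y i) ∧ ∀ i, res O (y' i) = 0 := by
  refine ⟨fun i => ⟨y i, integral O h y z hy i⟩, fun i => rfl, fun i => ?_⟩
  apply eq_zero_of_null hE (fun i => res O ⟨y i, integral O h y z hy i⟩)
  intro l
  rw [← res_aeval O (fun i => (⟨y i, integral O h y z hy i⟩ : O)), ← hz l]
  congr 1
  apply Subtype.ext
  rw [coe_aeval]
  exact hy l

end

end Pool.Agent.W235.CY
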