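import Mathlib
import Pool.Agent.W235.CY.Red1

/-!
Laurent curves over a valued field and their reductions.
-/

set_option autoImplicit false
set_option linter.unusedSectionVars false

namespace Pool.Agent.W235.CY

open MvPolynomial

section

variable {V ι : Type} [Fintype V] [Fintype ι] (w : V → ℕ) (d : ι → ℕ)
  (f : ι → MvPolynomial V ℂ)

/-- the Laurent polynomial with given coefficients which vanishes at `1` -/
def lc {A : Type} [Field A] {N : ℕ} (cp cm : Un w N → A) (i : V) (u : A) : A :=
  ∑ l : Fin (N * w i), (cp ⟨i, l⟩ * (u ^ ((l : ℕ) + 1) - 1) + cm ⟨i, l⟩ * (u⁻¹ ^ ((l : ℕ) + 1) - 1))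

theorem lc_symm {A : Type} [Field A] {N : ℕ} (cp cm : Un w N → A) (i : V) (u : A) :
    lc w cp cm i u⁻¹ = lc w cm cp i u := by
  unfold lc
  refine Finset.sum_congr rfl fun l _ => ?_
  rw [inv_inv]
  ring

theorem sum_split {A : Type} [AddCommMonoid A] (n : ℕ) (g : ℕ → A) :
    ∑ m ∈ Finset.range (2 * n + 1), g m =
      g n + ∑ l ∈ Finset.range n, (g (n + (l + 1)) + g (n - (l + 1))) := by
  have h1 : 2 * n + 1 = (n + 1) + n := by ring
  rw [h1, Finset.sum_range_add, Finset.sum_range_succ, Finset.sum_add_distrib,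
    ← Finset.sum_range_reflect g n]
  have h2 : ∀ l, n - 1 - l = n - (l + 1) := fun l => by omega
  have h3 : ∀ l, n + 1 + l = n + (l + 1) := fun l => by omega
  simp only [h2, h3]
  rw [add_comm (∑ l ∈ Finset.range n, g (n - (l + 1))) (g n), add_assoc,
    add_comm (∑ l ∈ Finset.range n, g (n - (l + 1)))]

theorem laurent_split {A : Type} [Field A] (P : Polynomial A) (n : ℕ) (hP : P.natDegree ≤ 2 * n)
    (h1 : P.eval 1 = 0) (u : A) (hu : u ≠ 0) :
    P.eval u = u ^ n * ∑ l : Fin n, (P.coeff (n + ((l : ℕ) + 1)) * (u ^ ((l : ℕ) + 1) - 1) +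
      P.coeff (n - ((l : ℕ) + 1)) * (u⁻¹ ^ ((l : ℕ) + 1) - 1)) := by
  rw [Polynomial.eval_eq_sum_range' (Nat.lt_succ_of_le hP)] at h1 ⊢
  have h2 : ∑ m ∈ Finset.range (2 * n + 1), P.coeff m * u ^ m =
      ∑ m ∈ Finset.range (2 * n + 1), P.coeff m * (u ^ m - u ^ n) := by
    simp only [mul_sub, Finset.sum_sub_distrib]
    rw [← Finset.sum_mul]
    simp only [one_pow, mul_one] at h1
    rw [h1, zero_mul, sub_zero]
  rw [h2, sum_split, sub_self, mul_zero, zero_add, Finset.mul_sum,
    ← Fin.sum_univ_eq_sum_range (fun l => P.coeff (n + (l + 1)) * (u ^ (n + (l + 1)) - u ^ n) +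
      P.coeff (n - (l + 1)) * (u ^ (n - (l + 1)) - u ^ n))]
  refine Finset.sum_congr rfl fun l _ => ?_
  have h3 : u ^ (n - ((l : ℕ) + 1)) = u ^ n * u⁻¹ ^ ((l : ℕ) + 1) := by
    rw [inv_pow, ← div_eq_mul_inv, eq_div_iff (pow_ne_zero _ hu), ← pow_add,
      Nat.sub_add_cancel (by have := l.2; omega)]
  rw [h3, pow_add]
  ring

variable {w} in
/-- the positive coefficients of the curve with coefficients `y` -/
noncomputable def cpy {A : Type} [CommRing A] {N : ℕ} (y : Un w (2 * N) → A) (x : Un w N) : A :=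
  ((xp w y x.1).comp (Polynomial.X - 1)).coeff (N * w x.1 + ((x.2 : ℕ) + 1))

variable {w} in
/-- the negative coefficients of the curve with coefficients `y` -/
noncomputable def cmy {A : Type} [CommRing A] {N : ℕ} (y : Un w (2 * N) → A) (x : Un w N) : A :=
  ((xp w y x.1).comp (Polynomial.X - 1)).coeff (N * w x.1 - ((x.2 : ℕ) + 1))

theorem comp_degree {A : Type} [Field A] {N : ℕ} (y : Un w (2 * N) → A) (i : V) :
    ((xp w y i).comp (Polynomial.X - 1)).natDegree ≤ 2 * (N * w i) := by
  have h1 : (Polynomial.X - 1 : Polynomial A).natDegree ≤ 1 := by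
    have := Polynomial.natDegree_X_sub_C_le (1 : A)
    rwa [map_one] at this
  refine Polynomial.natDegree_comp_le.trans ?_
  calc (xp w y i).natDegree * (Polynomial.X - 1 : Polynomial A).natDegree
      ≤ (2 * N * w i) * 1 := Nat.mul_le_mul (xp_degree w y i) h1
    _ = 2 * (N * w i) := by ring

theorem xp_eval_zero {A : Type} [CommRing A] {M : ℕ} (y : Un w M → A) (i : V) :
    (xp w y i).eval 0 = 0 := by
  rw [xp_eval]
  apply Finset.sum_eq_zero
  intro l _
  rw [zero_pow (Nat.succ_ne_zero _), mul_zero]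

theorem curve_eq {A : Type} [Field A] {N : ℕ} (y : Un w (2 * N) → A) (i : V) (u : A)
    (hu : u ≠ 0) : (xp w y i).eval (u - 1) = (u ^ N) ^ w i * lc w (cpy y) (cmy y) i u := by
  have h1 : ((xp w y i).comp (Polynomial.X - 1)).eval u = (xp w y i).eval (u - 1) := by
    simp [Polynomial.eval_comp]
  have h2 : ((xp w y i).comp (Polynomial.X - 1)).eval 1 = 0 := by
    rw [Polynomial.eval_comp]
    simp [xp_eval_zero]
  rw [← h1, laurent_split _ (N * w i) (comp_degree w y i) h2 u hu, ← pow_mul]
  rfl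

/-- distinct solutions have distinct Laurent coefficients -/
theorem y_injective {A : Type} [Field A] [Infinite A] {N : ℕ} {y y' : Un w (2 * N) → A}
    (h1 : cpy y = cpy y') (h2 : cmy y = cmy y') : y = y' := by
  apply xp_injective w
  intro i
  have h3 : ∀ u : A, u ≠ 0 → (xp w y i).eval (u - 1) = (xp w y' i).eval (u - 1) := by
    intro u hu
    rw [curve_eq w y i u hu, curve_eq w y' i u hu, h1, h2]
  apply Polynomial.eq_of_infinite_eval_eq
  have h4 : (fun u : A => u - 1) '' {0}ᶜ ⊆ {x | (xp w y i).eval x = (xp w y' i).eval x} := by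
    rintro _ ⟨u, hu, rfl⟩
    exact h3 u hu
  refine Set.Infinite.mono h4 ?_
  exact ((Set.finite_singleton (0 : A)).infinite_compl).image (sub_left_injective.injOn)

variable {d} in
/-- the polynomial with given Laurent coefficients -/
noncomputable def Qp {A : Type} [CommRing A] {N : ℕ} (zp zm : Un d N → A) (j : ι) : Polynomial A :=
  ∑ l : Fin (N * d j), (Polynomial.C (zp ⟨j, l⟩) * (Polynomial.X ^ (N * d j + ((l : ℕ) + 1)) -
    Polynomial.X ^ (N * d j)) + Polynomial.C (zm ⟨j, l⟩) *
      (Polynomial.X ^ (N * d j - ((l : ℕ) + 1)) - Polynomial.X ^ (N * d j)))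

variable {d} in
/-- the right sides of the equations -/
noncomputable def zz {A : Type} [CommRing A] {N : ℕ} (zp zm : Un d N → A) (x : Un d (2 * N)) : A :=
  ((Qp zp zm x.1).comp (1 + Polynomial.X)).coeff ((x.2 : ℕ) + 1)

theorem Qp_eval_one {A : Type} [CommRing A] {N : ℕ} (zp zm : Un d N → A) (j : ι) :
    (Qp zp zm j).eval 1 = 0 := by
  simp [Qp, Polynomial.eval_finsetSum]

theorem Qp_eval {A : Type} [Field A] {N : ℕ} (zp zm : Un d N → A) (j : ι) (u : A) (hu : u ≠ 0) :
    (Qp zp zm j).eval u = (u ^ N) ^ d j * lc d zp zm j u := by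
  unfold Qp lc
  rw [Polynomial.eval_finsetSum, Finset.mul_sum]
  refine Finset.sum_congr rfl fun l _ => ?_
  simp only [Polynomial.eval_add, Polynomial.eval_mul, Polynomial.eval_C, Polynomial.eval_sub,
    Polynomial.eval_pow, Polynomial.eval_X]
  have h3 : u ^ (N * d j - ((l : ℕ) + 1)) = u ^ (N * d j) * u⁻¹ ^ ((l : ℕ) + 1) := by
    rw [inv_pow, ← div_eq_mul_inv, eq_div_iff (pow_ne_zero _ hu), ← pow_add,
      Nat.sub_add_cancel (by have := l.2; omega)]
  rw [h3, pow_add, ← pow_mul]
  ring

theorem Qp_degree {A : Type} [CommRing A] {N : ℕ} (zp zm : Un d N → A) (j : ι) :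
    (Qp zp zm j).natDegree ≤ 2 * N * d j := by
  unfold Qp
  apply Polynomial.natDegree_sum_le_of_forall_le
  intro l _
  have hl := l.2
  have h2 : 2 * N * d j = 2 * (N * d j) := by ring
  have hx : ∀ m : ℕ, m ≤ 2 * N * d j → (Polynomial.X ^ m : Polynomial A).natDegree ≤ 2 * N * d j :=
    fun m hm => (Polynomial.natDegree_X_pow_le m).trans hm
  refine (Polynomial.natDegree_add_le _ _).trans (max_le ?_ ?_)
  · refine (Polynomial.natDegree_C_mul_le _ _).trans ?_
    exact (Polynomial.natDegree_sub_le _ _).trans (max_le (hx _ (by omega)) (hx _ (by omega)))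
  · refine (Polynomial.natDegree_C_mul_le _ _).trans ?_
    exact (Polynomial.natDegree_sub_le _ _).trans (max_le (hx _ (by omega)) (hx _ (by omega)))

variable {f d} in
/-- the degree of the polynomial of the equations -/
theorem Ep_degree (hf : ∀ j, ∀ α ∈ (f j).support, Finsupp.weight w α ≤ d j) {A : Type} [Field A]
    [Algebra ℂ A] {N : ℕ} (y : Un w (2 * N) → A) (j : ι) :
    (Ep w d f N y j).natDegree ≤ 2 * N * d j := by
  unfold Ep hp
  apply Polynomial.natDegree_sum_le_of_forall_le
  intro α hα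
  have h0 : algebraMap ℂ (Polynomial A) (coeff α (f j)) =
    Polynomial.C (algebraMap ℂ A (coeff α (f j))) := rfl
  have h1 : (1 + Polynomial.X : Polynomial A).natDegree ≤ 1 := by
    compute_degree
  rw [h0, mul_assoc]
  refine (Polynomial.natDegree_C_mul_le _ _).trans ?_
  refine Polynomial.natDegree_mul_le.trans ?_
  have h2 : (((1 + Polynomial.X : Polynomial A) ^ N) ^ (d j - Finsupp.weight w α)).natDegree ≤
      N * (d j - Finsupp.weight w α) := by
    rw [← pow_mul]
    refine Polynomial.natDegree_pow_le.trans ?_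
    calc _ ≤ N * (d j - Finsupp.weight w α) * 1 := Nat.mul_le_mul_left _ h1
      _ = _ := mul_one _
  have h3 : (∏ i, xp w y i ^ α i).natDegree ≤ 2 * N * Finsupp.weight w α := by
    refine (Polynomial.natDegree_prod_le _ _).trans ?_
    rw [weight_eq, Finset.mul_sum]
    apply Finset.sum_le_sum
    intro i _
    refine Polynomial.natDegree_pow_le.trans ?_
    calc α i * (xp w y i).natDegree ≤ α i * (2 * N * w i) := Nat.mul_le_mul_left _ (xp_degree w y i)
      _ = 2 * N * (w i * α i) := by ring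
  have h4 := hf j α hα
  calc _ ≤ N * (d j - Finsupp.weight w α) + 2 * N * Finsupp.weight w α := add_le_add h2 h3
    _ ≤ 2 * N * (d j - Finsupp.weight w α) + 2 * N * Finsupp.weight w α := by
        apply Nat.add_le_add_right
        rw [mul_assoc 2]
        omega
    _ = 2 * N * d j := by rw [← mul_add, Nat.sub_add_cancel h4]

theorem Ep_eval {A : Type} [Field A] [Algebra ℂ A] {N : ℕ} (y : Un w (2 * N) → A) (j : ι)
    (τ : A) : (Ep w d f N y j).eval τ =
      hp w ((1 + τ) ^ N) (fun i => (xp w y i).eval τ) (f j) (d j) := by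
  have h1 := hp_map w ((Polynomial.aeval τ : Polynomial A →ₐ[A] A).restrictScalars ℂ)
    ((1 + Polynomial.X) ^ N) (xp w y) (f j) (d j)
  simp only [AlgHom.restrictScalars_apply, Polynomial.coe_aeval_eq_eval, Polynomial.eval_pow,
    Polynomial.eval_add, Polynomial.eval_one, Polynomial.eval_X] at h1
  exact h1

variable {f d} in
/-- solutions of the equations are Laurent curves -/
theorem sol_of_eq (hf : ∀ j, ∀ α ∈ (f j).support, Finsupp.weight w α ≤ d j)
    (hf0 : ∀ j, constantCoeff (f j) = 0) {A : Type} [Field A] [Algebra ℂ A] {N : ℕ}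
    (y : Un w (2 * N) → A) (zp zm : Un d N → A)
    (hy : ∀ x, aeval y (EE w d f N x) = zz zp zm x) (u : A) (hu : u ≠ 0) (j : ι) :
    aeval (fun i => lc w (cpy y) (cmy y) i u) (f j) = lc d zp zm j u := by
  have hpoly : Ep w d f N y j = (Qp zp zm j).comp (1 + Polynomial.X) := by
    have hdeg2 : ((Qp zp zm j).comp (1 + Polynomial.X)).natDegree ≤ 2 * N * d j := by
      have h1 : (1 + Polynomial.X : Polynomial A).natDegree ≤ 1 := by
        compute_degree
      refine Polynomial.natDegree_comp_le.trans ?_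
      calc _ ≤ (2 * N * d j) * 1 := Nat.mul_le_mul (Qp_degree d zp zm j) h1
        _ = _ := mul_one _
    ext m
    rcases Nat.eq_zero_or_pos m with rfl | hm
    · rw [Polynomial.coeff_zero_eq_eval_zero, Polynomial.coeff_zero_eq_eval_zero,
        Polynomial.eval_comp]
      simp only [Polynomial.eval_add, Polynomial.eval_one, Polynomial.eval_X, add_zero]
      rw [Qp_eval_one, Ep_eval]
      have h1 := hp_smul w (1 : A) (0 : V → A) (f j) (d j) (hf j)
      simp only [one_pow, one_mul] at h1
      have h2 : aeval (0 : V → A) (f j) = 0 := by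
        have h3 : (aeval (0 : V → A) (f j)) = algebraMap ℂ A (constantCoeff (f j)) :=
          aeval_zero (f j)
        rw [h3, hf0, map_zero]
      have h4 : (fun i => (xp w y i).eval 0) = (fun i => (0 : V → A) i) :=
        funext fun i => xp_eval_zero w y i
      rw [add_zero, one_pow, h4, h1, h2]
    · by_cases hm2 : m ≤ 2 * N * d j
      · have h1 := hy ⟨j, ⟨m - 1, by omega⟩⟩
        rw [aeval_EE] at h1
        simp only [zz] at h1
        rw [Nat.sub_add_cancel hm] at h1
        exact h1
      · rw [Polynomial.coeff_eq_zero_of_natDegree_lt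
          (lt_of_le_of_lt (Ep_degree w hf y j) (not_le.mp hm2)),
          Polynomial.coeff_eq_zero_of_natDegree_lt (lt_of_le_of_lt hdeg2 (not_le.mp hm2))]
  have h1 := congrArg (Polynomial.eval (u - 1)) hpoly
  rw [Ep_eval, Polynomial.eval_comp] at h1
  simp only [Polynomial.eval_add, Polynomial.eval_one, Polynomial.eval_X,
    add_sub_cancel] at h1
  rw [Qp_eval d zp zm j u hu] at h1
  have h2 : (fun i => (xp w y i).eval (u - 1)) =
      fun i => (u ^ N) ^ w i * lc w (cpy y) (cmy y) i u := funext fun i => curve_eq w y i u hu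
  rw [h2, hp_smul w _ _ _ _ (hf j)] at h1
  exact mul_left_cancel₀ (pow_ne_zero _ (pow_ne_zero _ hu)) h1

end

end Pool.Agent.W235.CY
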