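import Mathlib
import Pool.Agent.W235.CY.Red2

/-!
Reduction of Laurent curves over a valued field.
-/

set_option autoImplicit false
set_option linter.unusedSectionVars false

namespace Pool.Agent.W235.CY

open MvPolynomial

section

variable {V ι : Type} [Fintype V] [Fintype ι] (w : V → ℕ) (d : ι → ℕ)
  (f : ι → MvPolynomial V ℂ)

/-- the rescaled value of a Laurent curve at a natural number -/
def rr {A : Type} [CommRing A] {N : ℕ} (lam m minv : A) (gp gm : Un w N → A) (i : V) : A :=
  ∑ l : Fin (N * w i), (gp ⟨i, l⟩ * (m ^ ((l : ℕ) + 1) - lam ^ ((l : ℕ) + 1)) +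
    gm ⟨i, l⟩ * (lam ^ ((l : ℕ) + 1) * (lam * minv) ^ ((l : ℕ) + 1) - lam ^ ((l : ℕ) + 1)))

variable {K : Type} [Field K] [Algebra ℂ K] (O : ValuationSubring K) [Algebra ℂ O]
  [IsScalarTower ℂ O K]

/-- the inverse of a natural number -/
noncomputable def ninv (m : ℕ) : O := algebraMap ℂ O ((m : ℂ)⁻¹)

theorem coe_ninv (m : ℕ) : ((ninv O m : O) : K) = ((m : K))⁻¹ := by
  unfold ninv
  have h1 : ((algebraMap ℂ O ((m : ℂ)⁻¹) : O) : K) = algebraMap ℂ K ((m : ℂ)⁻¹) :=
    (IsScalarTower.algebraMap_apply ℂ O K _).symm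
  rw [h1, map_inv₀, map_natCast]

theorem coe_rr {N : ℕ} (lam : O) (hlam : (lam : K) ≠ 0) (m : ℕ) (gp gm : Un w N → O) (i : V) :
    ((rr w lam (m : O) (ninv O m) gp gm i : O) : K) =
      lc w (fun x => (lam : K) ^ ((x.2 : ℕ) + 1) * gp x) (fun x => (lam : K) ^ ((x.2 : ℕ) + 1) * gm x)
        i ((m : K) / lam) := by
  unfold rr lc
  push_cast
  refine Finset.sum_congr rfl fun l _ => ?_
  rw [coe_ninv, inv_div, div_pow, div_pow, mul_pow, inv_pow]
  have h1 : (lam : K) ^ ((l : ℕ) + 1) ≠ 0 := pow_ne_zero _ hlam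
  field_simp

theorem res_rr {N : ℕ} (lam : O) (hlam : res O lam = 0) (m : ℕ) (gp gm : Un w N → O) (i : V) :
    res O (rr w lam (m : O) (ninv O m) gp gm i) =
      (xp w (fun x => res O (gp x)) i).eval (m : IsLocalRing.ResidueField O) := by
  unfold rr
  rw [xp_eval, map_sum]
  refine Finset.sum_congr rfl fun l _ => ?_
  simp only [map_add, map_mul, map_sub, map_pow, map_natCast, hlam,
    zero_pow (Nat.succ_ne_zero _), sub_zero, zero_mul, mul_zero, add_zero]

theorem charZero_res : CharZero (IsLocalRing.ResidueField O) :=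
  charZero_of_injective_algebraMap (algebraMap ℂ (IsLocalRing.ResidueField O)).injective

theorem charZero_K : CharZero K :=
  charZero_of_injective_algebraMap (algebraMap ℂ K).injective

/-- polynomials which agree at all positive natural numbers -/
theorem poly_eq_of_nat {κ : Type} [Field κ] [CharZero κ] (P Q : Polynomial κ)
    (h : ∀ m : ℕ, 1 ≤ m → P.eval (m : κ) = Q.eval (m : κ)) : P = Q := by
  apply Polynomial.eq_of_infinite_eval_eq
  have h1 : Set.range (fun m : ℕ => ((m + 1 : ℕ) : κ)) ⊆ {x | P.eval x = Q.eval x} := by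
    rintro _ ⟨m, rfl⟩
    exact h (m + 1) (by omega)
  refine Set.Infinite.mono h1 (Set.infinite_range_of_injective ?_)
  intro a b hab
  have : a + 1 = b + 1 := Nat.cast_injective hab
  omega

theorem eval_aeval' {κ : Type} [Field κ] [Algebra ℂ κ] (x : V → Polynomial κ)
    (F : MvPolynomial V ℂ) (τ : κ) :
    (aeval x F).eval τ = aeval (fun i => (x i).eval τ) F := by
  have h1 : ((Polynomial.aeval τ : Polynomial κ →ₐ[κ] κ).restrictScalars ℂ).comp (aeval x) =
      aeval (fun i => (x i).eval τ) := by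
    apply MvPolynomial.algHom_ext
    intro i
    simp [Polynomial.coe_aeval_eq_eval]
  have h2 := DFunLike.congr_fun h1 F
  rw [← h2]
  simp [Polynomial.coe_aeval_eq_eval]

/-- **Reduction of Laurent curves** -/
theorem reduction {N : ℕ} (lam : O) (hlam : (lam : K) ≠ 0) (hres : res O lam = 0)
    (gp gm : Un w N → O) (qp qm : Un d N → O)
    (hsol : ∀ (u : K), u ≠ 0 → ∀ j, aeval (fun i => lc w
      (fun x => (lam : K) ^ ((x.2 : ℕ) + 1) * gp x) (fun x => (lam : K) ^ ((x.2 : ℕ) + 1) * gm x)
        i u) (f j) = lc d (fun x => (lam : K) ^ ((x.2 : ℕ) + 1) * qp x)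
          (fun x => (lam : K) ^ ((x.2 : ℕ) + 1) * qm x) j u) (x : Un d N) :
    aeval (fun y => res O (gp y)) (tt w d f N x) = res O (qp x) := by
  have := charZero_res O
  have := charZero_K (K := K)
  have hpoly : aeval (xp w fun y => res O (gp y)) (f x.1) = xp d (fun y => res O (qp y)) x.1 := by
    apply poly_eq_of_nat
    intro m hm
    have hu : (m : K) / lam ≠ 0 := div_ne_zero (Nat.cast_ne_zero.mpr (by omega)) hlam
    have h1 := hsol _ hu x.1
    have h2 : aeval (rr w lam (m : O) (ninv O m) gp gm) (f x.1) =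
        rr d lam (m : O) (ninv O m) qp qm x.1 := by
      apply Subtype.ext
      rw [coe_aeval, coe_rr d O lam hlam]
      simp only [coe_rr w O lam hlam]
      exact h1
    have h3 := congrArg (res O) h2
    rw [res_aeval, res_rr d O lam hres] at h3
    simp only [res_rr w O lam hres] at h3
    rw [eval_aeval', h3]
  rw [aeval_tt, hpoly, xp_coeff]

end

end Pool.Agent.W235.CY
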