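import Mathlib
import Pool.Agent.W235.CY.Red3

/-!
Laurent curves with infinitesimal coefficients: divisibility, and injectivity of the reduction.
-/

set_option autoImplicit false
set_option linter.unusedSectionVars false

namespace Pool.Agent.W235.CY

open MvPolynomial

section

variable {V ι : Type} [Fintype V] [Fintype ι] (w : V → ℕ) (d : ι → ℕ)
  (f : ι → MvPolynomial V ℂ)

/-- the Laurent curve with coefficients `cp`, `cm` solves the equations with right sides `zp`,
`zm` -/
def IsSol {A : Type} [Field A] [Algebra ℂ A] {N : ℕ} (cp cm : Un w N → A) (zp zm : Un d N → A) :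
    Prop :=
  ∀ u : A, u ≠ 0 → ∀ j, aeval (fun i => lc w cp cm i u) (f j) = lc d zp zm j u

variable {w d f} in
theorem IsSol.symm {A : Type} [Field A] [Algebra ℂ A] {N : ℕ} {cp cm : Un w N → A}
    {zp zm : Un d N → A} (h : IsSol w d f cp cm zp zm) : IsSol w d f cm cp zm zp := by
  intro u hu j
  have h1 := h u⁻¹ (inv_ne_zero hu) j
  rw [lc_symm] at h1
  rw [← h1]
  congr 2
  funext i
  rw [lc_symm]

/-- multiplication of the coefficients by powers of a number -/
def scl {A : Type} [CommRing A] {N : ℕ} (lam : A) (g : Un w N → A) : Un w N → A :=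
  fun x => lam ^ ((x.2 : ℕ) + 1) * g x

variable {K : Type} [Field K] [Algebra ℂ K] (O : ValuationSubring K) [Algebra ℂ O]
  [IsScalarTower ℂ O K]

/-- coordinates in the big field -/
def cc {I : Type} (g : I → O) : I → K := fun x => (g x : K)

theorem cc_scl {N : ℕ} (lam : O) (g : Un w N → O) :
    cc O (scl w lam g) = scl w (lam : K) (cc O g) := by
  funext x
  simp [cc, scl]

variable {w d f} in
theorem reduction' {N : ℕ} (lam : O) (hlam : (lam : K) ≠ 0) (hres : res O lam = 0)
    {gp gm : Un w N → O} {qp qm : Un d N → O}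
    (hsol : IsSol w d f (cc O (scl w lam gp)) (cc O (scl w lam gm)) (cc O (scl d lam qp))
      (cc O (scl d lam qm))) (x : Un d N) :
    aeval (fun y => res O (gp y)) (tt w d f N x) = res O (qp x) := by
  refine reduction w d f O lam hlam hres gp gm qp qm ?_ x
  intro u hu j
  have h1 := hsol u hu j
  simp only [cc_scl] at h1
  exact h1

variable {w d f} in
/-- divisibility of the coefficients -/
theorem divisible [IsAlgClosed K] {N : ℕ} (s : O) (hs : (s : K) ≠ 0) (hres : res O s = 0)
    {cp cm : Un w N → O} (hcp : ∀ x, res O (cp x) = 0) (hcm : ∀ x, res O (cm x) = 0)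
    {ζp ζm : Un d N → O}
    (hnull : ∀ i, ∃ m, (X i : MvPolynomial (Un w N) ℂ) ^ m ∈ Ideal.span (Set.range (tt w d f N)))
    (hsol : IsSol w d f (cc O cp) (cc O cm) (cc O (scl d s ζp)) (cc O (scl d s ζm))) :
    ∃ gp gm : Un w N → O, cp = scl w s gp ∧ cm = scl w s gm := by
  let I : Type := Un w N ⊕ Un w N ⊕ Unit
  let g : I → O := Sum.elim cp (Sum.elim cm fun _ => s)
  let m : I → ℕ := Sum.elim (aw w N) (Sum.elim (aw w N) fun _ => 1)
  have hg0 : ∀ i, res O (g i) = 0 := by
    rintro (x | x | _)
    · exact hcp x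
    · exact hcm x
    · exact hres
  have hm : ∀ i, 1 ≤ m i := by
    rintro (x | x | _)
    · exact Nat.succ_le_succ (Nat.zero_le _)
    · exact Nat.succ_le_succ (Nat.zero_le _)
    · exact le_rfl
  obtain ⟨lam, h, hlam, hgh, i0, hi0⟩ := exists_scale O (fun i => (g i : K)) m hm
    ⟨Sum.inr (Sum.inr ()), hs⟩
  have hpow : lam ^ m i0 = (g i0 : K) := by
    rw [hgh i0, hi0]
    simp
  have hlO : lam ∈ O := mem_of_pow_mem O (hm i0) (by rw [hpow]; exact SetLike.coe_mem _)
  obtain ⟨lamO, hlamO⟩ : ∃ lamO : O, (lamO : K) = lam := ⟨⟨lam, hlO⟩, rfl⟩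
  have hgh' : ∀ i, g i = lamO ^ m i * h i := by
    intro i
    apply Subtype.ext
    push_cast
    rw [hlamO]
    exact hgh i
  have hlres : res O lamO = 0 := by
    have h1 := hg0 i0
    rw [hgh' i0, hi0, mul_one, map_pow] at h1
    exact (pow_eq_zero_iff (by have := hm i0; omega)).mp h1
  have hlam' : (lamO : K) ≠ 0 := by rwa [hlamO]
  set hh := h (Sum.inr (Sum.inr ())) with hhdef
  have hsh : s = lamO * hh := by
    have := hgh' (Sum.inr (Sum.inr ()))
    simp only [g, m, Sum.elim_inr, pow_one] at this
    exact this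
  have e1 : cp = scl w lamO (fun x => h (Sum.inl x)) := by
    funext x
    exact hgh' (Sum.inl x)
  have e2 : cm = scl w lamO (fun x => h (Sum.inr (Sum.inl x))) := by
    funext x
    exact hgh' (Sum.inr (Sum.inl x))
  have e3 : ∀ ζ : Un d N → O, scl d s ζ = scl d lamO (scl d hh ζ) := by
    intro ζ
    funext x
    simp only [scl]
    rw [hsh, mul_pow]
    ring
  have hsol' := hsol
  rw [e1, e2, e3, e3] at hsol'
  have hrp := reduction' O lamO hlam' hlres hsol'
  have hrm := reduction' O lamO hlam' hlres hsol'.symm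
  have hhne : res O hh ≠ 0 := by
    intro h0
    have hz : ∀ (ζ : Un d N → O) (x : Un d N), res O (scl d hh ζ x) = 0 := by
      intro ζ x
      simp only [scl, map_mul, map_pow, h0, zero_pow (Nat.succ_ne_zero _), zero_mul]
    have hp0 := eq_zero_of_null hnull (fun y => res O (h (Sum.inl y)))
      (fun l => by rw [hrp, hz])
    have hm0 := eq_zero_of_null hnull (fun y => res O (h (Sum.inr (Sum.inl y))))
      (fun l => by rw [hrm, hz])
    have hall : ∀ i, res O (h i) = 0 := by
      rintro (x | x | _)
      · exact hp0 x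
      · exact hm0 x
      · exact h0
    have := hall i0
    rw [hi0, map_one] at this
    exact one_ne_zero this
  have hunit : IsUnit hh := by
    by_contra hcon
    exact hhne ((res_eq_zero_iff O hh).mpr hcon)
  obtain ⟨v, hv⟩ := hunit
  have hls : lamO = s * (↑v⁻¹ : O) := by
    rw [hsh, ← hv, mul_assoc, Units.mul_inv, mul_one]
  refine ⟨scl w (↑v⁻¹ : O) (fun x => h (Sum.inl x)),
    scl w (↑v⁻¹ : O) (fun x => h (Sum.inr (Sum.inl x))), ?_, ?_⟩
  · rw [e1]
    funext x
    simp only [scl]
    rw [hls, mul_pow]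
    ring
  · rw [e2]
    funext x
    simp only [scl]
    rw [hls, mul_pow]
    ring

end

/-! ### dual numbers -/

section

theorem eval_aevalR {V A : Type} [CommRing A] [Algebra ℂ A] (x : V → Polynomial A)
    (F : MvPolynomial V ℂ) (τ : A) :
    (aeval x F).eval τ = aeval (fun i => (x i).eval τ) F := by
  have h1 : ((Polynomial.aeval τ : Polynomial A →ₐ[A] A).restrictScalars ℂ).comp (aeval x) =
      aeval (fun i => (x i).eval τ) := by
    apply MvPolynomial.algHom_ext
    intro i
    simp [Polynomial.coe_aeval_eq_eval]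
  have h2 := DFunLike.congr_fun h1 F
  rw [← h2]
  simp [Polynomial.coe_aeval_eq_eval]

variable {κ : Type} [Field κ] [Algebra ℂ κ]

/-- a dual number -/
def dn (a b : κ) : DualNumber κ := TrivSqZeroExt.inl a + TrivSqZeroExt.inr b

theorem dn_fst (a b : κ) : (dn a b).fst = a := by simp [dn]

theorem dn_snd (a b : κ) : (dn a b).snd = b := by simp [dn]

theorem dn_mul (a b c e : κ) : dn a b * dn c e = dn (a * c) (a * e + b * c) := by
  ext
  · simp [dn]
  · simp [dn]

theorem dn_add (a b c e : κ) : dn a b + dn c e = dn (a + c) (b + e) := by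
  ext
  · simp [dn]
  · simp [dn]

theorem algebraMap_dn (c : ℂ) : algebraMap ℂ (DualNumber κ) c = dn (algebraMap ℂ κ c) 0 := by
  ext
  · simp [dn, TrivSqZeroExt.algebraMap_eq_inl']
  · simp [dn, TrivSqZeroExt.algebraMap_eq_inl']

/-- elements whose infinitesimal part is killed -/
theorem snd_zero {σ τ : Type} [Fintype σ] [Fintype τ] {a : σ → ℕ} {b : τ → ℕ}
    {E t : τ → MvPolynomial σ ℂ} (h : TopSys a b E t) (Y : σ → DualNumber κ)
    (hinj : Function.Injective (aeval (fun i => (Y i).fst) : MvPolynomial σ ℂ →ₐ[ℂ] κ))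
    (hE : ∀ l, (aeval Y (E l)).snd = 0) (i : σ) : (Y i).snd = 0 := by
  have hfin := module_finite h
  have hint : Algebra.IsIntegral (Algebra.adjoin ℂ (Set.range E)) (MvPolynomial σ ℂ) :=
    Algebra.IsIntegral.of_finite _ _
  have halg : Algebra.IsAlgebraic (Algebra.adjoin ℂ (Set.range E)) (MvPolynomial σ ℂ) :=
    hint.isAlgebraic
  set Θ : MvPolynomial σ ℂ →ₐ[ℂ] DualNumber κ := aeval Y with hΘ
  have hfst : ∀ p, (Θ p).fst = aeval (fun i => (Y i).fst) p := by
    intro p
    have h1 : (TrivSqZeroExt.fstHom ℂ κ κ).comp Θ = aeval (fun i => (Y i).fst) := by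
      apply MvPolynomial.algHom_ext
      intro i
      simp [hΘ]
    exact DFunLike.congr_fun h1 p
  have hB : ∀ b : MvPolynomial σ ℂ, b ∈ Algebra.adjoin ℂ (Set.range E) → (Θ b).snd = 0 := by
    intro b hb
    induction hb using Algebra.adjoin_induction with
    | mem x hx =>
      obtain ⟨l, rfl⟩ := hx
      exact hE l
    | algebraMap r =>
      rw [AlgHom.commutes, algebraMap_dn, dn_snd]
    | add x y _ _ hx hy =>
      rw [map_add, TrivSqZeroExt.snd_add, hx, hy, add_zero]
    | mul x y _ _ hx hy =>
      rw [map_mul, TrivSqZeroExt.snd_mul, hx, hy, smul_zero, smul_zero, add_zero]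
  have hder : ∀ (x : MvPolynomial σ ℂ) (p : Polynomial (Algebra.adjoin ℂ (Set.range E))),
      (Θ (Polynomial.aeval x p)).snd =
        (Θ (Polynomial.aeval x (Polynomial.derivative p))).fst * (Θ x).snd := by
    intro x p
    induction p using Polynomial.induction_on' with
    | add p q hp hq =>
      simp only [map_add, TrivSqZeroExt.snd_add, TrivSqZeroExt.fst_add]
      rw [hp, hq]
      ring
    | monomial n b =>
      rw [Polynomial.derivative_monomial, Polynomial.aeval_monomial, Polynomial.aeval_monomial]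
      have hb : (Θ (algebraMap (Algebra.adjoin ℂ (Set.range E)) (MvPolynomial σ ℂ) b)).snd = 0 :=
        hB _ b.2
      have hpow : ∀ n : ℕ, (Θ (x ^ n)).snd = (n : κ) * (Θ x).fst ^ (n - 1) * (Θ x).snd := by
        intro n
        rw [map_pow, TrivSqZeroExt.snd_pow]
        simp [nsmul_eq_mul, mul_assoc]
      rw [map_mul, TrivSqZeroExt.snd_mul, hb, hpow]
      simp only [map_mul, TrivSqZeroExt.fst_mul, map_natCast, map_pow, TrivSqZeroExt.fst_pow,
        smul_zero, add_zero, smul_eq_mul, TrivSqZeroExt.fst_natCast]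
      ring
  have hmain : ∀ (x : MvPolynomial σ ℂ) (n : ℕ) (p : Polynomial (Algebra.adjoin ℂ (Set.range E))),
      p.natDegree = n → p ≠ 0 → Polynomial.aeval x p = 0 → (Θ x).snd = 0 := by
    intro x n
    induction n using Nat.strong_induction_on with
    | _ n ih =>
    intro p hpn hp0 hpx
    by_cases hd : Polynomial.aeval x (Polynomial.derivative p) = 0
    · rcases Nat.eq_zero_or_pos n with rfl | hn
      · exfalso
        rw [Polynomial.eq_C_of_natDegree_eq_zero hpn] at hpx hp0
        rw [Polynomial.aeval_C] at hpx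
        apply hp0
        have h3 : p.coeff 0 = 0 := by
          apply Subtype.ext
          exact hpx
        rw [h3, map_zero]
      · have hlt : (Polynomial.derivative p).natDegree < n := by
          rw [← hpn]
          exact Polynomial.natDegree_derivative_lt (by omega)
        refine ih _ hlt _ rfl ?_ hd
        intro h0
        have := Polynomial.derivative_eq_zero.mp h0
        omega
    · have h1 := hder x p
      rw [hpx, map_zero, TrivSqZeroExt.snd_zero] at h1
      rcases mul_eq_zero.mp h1.symm with h2 | h2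
      · exfalso
        apply hd
        apply hinj
        rw [← hfst, h2, map_zero]
      · exact h2
  obtain ⟨p, hp0, hpx⟩ := halg.isAlgebraic (X i : MvPolynomial σ ℂ)
  have := hmain (X i) _ p rfl hp0 hpx
  rwa [hΘ, aeval_X] at this

end

end Pool.Agent.W235.CY
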