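import Mathlib
import Pool.Agent.W235.CY.Red4

/-!
Injectivity of the reduction of the Laurent curves with infinitesimal coefficients.
-/

set_option autoImplicit false
set_option linter.unusedSectionVars false

namespace Pool.Agent.W235.CY

open MvPolynomial

section

variable {V ι : Type} [Fintype V] [Fintype ι] {w : V → ℕ} {d : ι → ℕ}
  {f : ι → MvPolynomial V ℂ}

variable {K : Type} [Field K] [Algebra ℂ K] (O : ValuationSubring K) [Algebra ℂ O]
  [IsScalarTower ℂ O K]

/-- first order expansion -/
theorem taylor {V : Type} (x r : V → O) (lam : O) (hres : res O lam = 0) (F : MvPolynomial V ℂ) :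
    ∃ c : O, aeval (fun i => x i + lam * r i) F = aeval x F + lam * c ∧
      aeval (fun i => dn (res O (x i)) (res O (r i))) F = dn (res O (aeval x F)) (res O c) := by
  induction F using MvPolynomial.induction_on with
  | C a =>
    refine ⟨0, ?_, ?_⟩
    · simp
    · have h1 : aeval (fun i => dn (res O (x i)) (res O (r i))) (C a : MvPolynomial V ℂ) =
          algebraMap ℂ _ a := by
        rw [algHom_C]
      rw [h1, algebraMap_dn, map_zero]
      congr 1
      rw [algHom_C]
      rfl
  | add p q hp hq =>
    obtain ⟨c, hc1, hc2⟩ := hp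
    obtain ⟨c', hc1', hc2'⟩ := hq
    refine ⟨c + c', ?_, ?_⟩
    · rw [map_add, map_add, hc1, hc1']
      ring
    · rw [map_add, hc2, hc2', dn_add, map_add, map_add, map_add]
  | mul_X p i hp =>
    obtain ⟨c, hc1, hc2⟩ := hp
    refine ⟨c * x i + aeval x p * r i + lam * c * r i, ?_, ?_⟩
    · rw [map_mul, map_mul, aeval_X, aeval_X, hc1]
      ring
    · rw [map_mul, aeval_X, hc2, dn_mul, map_mul, aeval_X]
      congr 1
      simp only [map_add, map_mul, hres, zero_mul, add_zero]
      ring

theorem rr_add {N : ℕ} {A : Type} [CommRing A] (s m minv lam : A) (gp gm hp hm : Un w N → A)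
    (i : V) : rr w s m minv (fun x => gp x + lam * hp x) (fun x => gm x + lam * hm x) i =
      rr w s m minv gp gm i + lam * rr w s m minv hp hm i := by
  unfold rr
  rw [Finset.mul_sum, ← Finset.sum_add_distrib]
  refine Finset.sum_congr rfl fun l _ => ?_
  ring

theorem xp_eval_dn {N : ℕ} {κ : Type} [Field κ] [Algebra ℂ κ] (a b : Un w N → κ) (i : V) (m : ℕ) :
    (xp w (fun x => dn (a x) (b x)) i).eval (m : DualNumber κ) =
      dn ((xp w a i).eval (m : κ)) ((xp w b i).eval (m : κ)) := by
  rw [xp_eval, xp_eval, xp_eval]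
  have hm : ∀ k : ℕ, (m : DualNumber κ) ^ k = dn ((m : κ) ^ k) 0 := by
    intro k
    have h0 : (m : DualNumber κ) = dn (m : κ) 0 := by
      ext
      · simp [dn]
      · simp [dn]
    induction k with
    | zero =>
      rw [pow_zero, pow_zero]
      ext
      · simp [dn]
      · simp [dn]
    | succ k ih =>
      rw [pow_succ, ih, h0, dn_mul, mul_zero, zero_mul, add_zero, pow_succ]
  ext
  · simp only [TrivSqZeroExt.fst_sum, dn_fst]
    refine Finset.sum_congr rfl fun l _ => ?_
    rw [hm, dn_mul, dn_fst]
  · simp only [TrivSqZeroExt.snd_sum, dn_snd]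
    refine Finset.sum_congr rfl fun l _ => ?_
    rw [hm, dn_mul, dn_snd, mul_zero, zero_add]

theorem snd_coeff {κ : Type} [Field κ] [CharZero κ] (T : Polynomial (DualNumber κ))
    (h : ∀ m : ℕ, 1 ≤ m → (T.eval (m : DualNumber κ)).snd = 0) (k : ℕ) : (T.coeff k).snd = 0 := by
  set S : Polynomial κ := ∑ k ∈ Finset.range (T.natDegree + 1),
    Polynomial.C (T.coeff k).snd * Polynomial.X ^ k with hS
  have h1 : S = 0 := by
    apply poly_eq_of_nat
    intro m hm
    have h2 := h m hm
    rw [Polynomial.eval_eq_sum_range, TrivSqZeroExt.snd_sum] at h2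
    rw [Polynomial.eval_zero, ← h2, hS, Polynomial.eval_finsetSum]
    refine Finset.sum_congr rfl fun k _ => ?_
    simp only [Polynomial.eval_mul, Polynomial.eval_C, Polynomial.eval_pow, Polynomial.eval_X,
      TrivSqZeroExt.snd_mul, TrivSqZeroExt.fst_pow, TrivSqZeroExt.snd_pow,
      TrivSqZeroExt.fst_natCast, TrivSqZeroExt.snd_natCast, smul_zero, zero_add,
      MulOpposite.op_pow, MulOpposite.op_natCast]
    simp
  by_cases hk : k ≤ T.natDegree
  · have h2 := congrArg (fun P : Polynomial κ => P.coeff k) h1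
    simp only [hS, Polynomial.finsetSum_coeff, Polynomial.coeff_C_mul_X_pow,
      Polynomial.coeff_zero] at h2
    rw [Finset.sum_eq_single k] at h2
    · simpa using h2
    · intro m _ hm
      rw [if_neg (fun h => hm h.symm)]
    · intro hk2
      exact absurd (Finset.mem_range.mpr (Nat.lt_succ_of_le hk)) hk2
  · rw [Polynomial.coeff_eq_zero_of_natDegree_lt (not_le.mp hk)]
    rfl

/-- one side of the injectivity -/
theorem one_side {N : ℕ} (htop : TopSys (aw w N) (aw d N) (tt w d f N) (tt w d f N)) (s : O)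
    (hs : (s : K) ≠ 0) (hres : res O s = 0) {gp gm gp' gm' kp km : Un w N → O} {ζp ζm : Un d N → O}
    (lam : O) (hlam : (lam : K) ≠ 0) (hlres : res O lam = 0)
    (hgp : ∀ x, gp' x = gp x + lam * kp x) (hgm : ∀ x, gm' x = gm x + lam * km x)
    (hsol : IsSol w d f (cc O (scl w s gp)) (cc O (scl w s gm)) (cc O (scl d s ζp))
      (cc O (scl d s ζm)))
    (hsol' : IsSol w d f (cc O (scl w s gp')) (cc O (scl w s gm')) (cc O (scl d s ζp))
      (cc O (scl d s ζm)))
    (hgen : AlgebraicIndependent ℂ fun x => res O (ζp x)) (x : Un w N) : res O (kp x) = 0 := by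
  have hch := charZero_res O
  have hchK := charZero_K (K := K)
  have hred := reduction' O s hs hres hsol
  have hinj := aeval_injective_of_solution htop hgen (fun y => res O (gp y)) hred
  have h0 := snd_zero htop (fun y => dn (res O (gp y)) (res O (kp y))) (by
    simp only [dn_fst]
    exact hinj) ?_ x
  · rwa [dn_snd] at h0
  · intro l
    rw [aeval_tt]
    apply snd_coeff
    intro m hm
    rw [eval_aevalR]
    have h1 : (fun i => (xp w (fun y => dn (res O (gp y)) (res O (kp y))) i).eval
        (m : DualNumber (IsLocalRing.ResidueField O))) = fun i =>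
          dn (res O (rr w s (m : O) (ninv O m) gp gm i))
            (res O (rr w s (m : O) (ninv O m) kp km i)) := by
      funext i
      rw [xp_eval_dn, res_rr w O s hres, res_rr w O s hres]
    rw [h1]
    obtain ⟨c, hc1, hc2⟩ := taylor O (rr w s (m : O) (ninv O m) gp gm)
      (rr w s (m : O) (ninv O m) kp km) lam hlres (f l.1)
    rw [hc2, dn_snd]
    have hu : (m : K) / s ≠ 0 := div_ne_zero (Nat.cast_ne_zero.mpr (by omega)) hs
    have hval : ∀ g g' : Un w N → O, IsSol w d f (cc O (scl w s g)) (cc O (scl w s g'))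
        (cc O (scl d s ζp)) (cc O (scl d s ζm)) →
        ((aeval (rr w s (m : O) (ninv O m) g g') (f l.1) : O) : K) =
          lc d (cc O (scl d s ζp)) (cc O (scl d s ζm)) l.1 ((m : K) / s) := by
      intro g g' hg
      rw [coe_aeval, ← hg _ hu l.1]
      congr 2
      funext i
      rw [coe_rr w O s hs, cc_scl, cc_scl]
      rfl
    have e1 := hval gp gm hsol
    have e2 := hval gp' gm' hsol'
    have e3 : rr w s (m : O) (ninv O m) gp' gm' = fun i => rr w s (m : O) (ninv O m) gp gm i +
        lam * rr w s (m : O) (ninv O m) kp km i := by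
      funext i
      rw [← rr_add, funext hgp, funext hgm]
    rw [e3, hc1] at e2
    have e4 : (lam : K) * (c : K) = 0 := by
      push_cast at e2
      rw [e1] at e2
      linear_combination e2
    have e5 : c = 0 := by
      apply Subtype.ext
      exact (mul_eq_zero.mp e4).resolve_left hlam
    rw [e5, map_zero]

/-- **Injectivity of the reduction** -/
theorem reduction_injective [IsAlgClosed K] {N : ℕ}
    (htop : TopSys (aw w N) (aw d N) (tt w d f N) (tt w d f N)) (s : O)
    (hs : (s : K) ≠ 0) (hres : res O s = 0) {gp gm gp' gm' : Un w N → O} {ζp ζm : Un d N → O}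
    (hsol : IsSol w d f (cc O (scl w s gp)) (cc O (scl w s gm)) (cc O (scl d s ζp))
      (cc O (scl d s ζm)))
    (hsol' : IsSol w d f (cc O (scl w s gp')) (cc O (scl w s gm')) (cc O (scl d s ζp))
      (cc O (scl d s ζm)))
    (hgenp : AlgebraicIndependent ℂ fun x => res O (ζp x))
    (hgenm : AlgebraicIndependent ℂ fun x => res O (ζm x))
    (hrp : ∀ x, res O (gp x) = res O (gp' x)) (hrm : ∀ x, res O (gm x) = res O (gm' x)) :
    gp = gp' ∧ gm = gm' := by
  by_contra hcon
  let I : Type := Un w N ⊕ Un w N
  let δ : I → O := Sum.elim (fun x => gp' x - gp x) (fun x => gm' x - gm x)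
  have hδ0 : ∀ i, res O (δ i) = 0 := by
    rintro (x | x)
    · simp only [δ, Sum.elim_inl, map_sub, hrp, sub_self]
    · simp only [δ, Sum.elim_inr, map_sub, hrm, sub_self]
  have hne : ∃ i, (δ i : K) ≠ 0 := by
    by_contra hno
    push Not at hno
    apply hcon
    constructor
    · funext x
      have h1 : δ (Sum.inl x) = 0 := Subtype.ext (hno (Sum.inl x))
      exact (sub_eq_zero.mp h1).symm
    · funext x
      have h1 : δ (Sum.inr x) = 0 := Subtype.ext (hno (Sum.inr x))
      exact (sub_eq_zero.mp h1).symm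
  obtain ⟨lam, h, hlam, hgh, i0, hi0⟩ := exists_scale O (fun i => (δ i : K)) (fun _ => 1)
    (fun _ => le_rfl) hne
  have hlO : lam = (δ i0 : K) := by
    rw [hgh i0, hi0]
    simp
  have hlam' : (δ i0 : K) ≠ 0 := by rwa [← hlO]
  have hgh' : ∀ i, δ i = δ i0 * h i := by
    intro i
    apply Subtype.ext
    push_cast
    rw [← hlO]
    have := hgh i
    rwa [pow_one] at this
  have hp1 : ∀ x, gp' x = gp x + δ i0 * h (Sum.inl x) := by
    intro x
    rw [← hgh' (Sum.inl x)]
    simp [δ]
  have hm1 : ∀ x, gm' x = gm x + δ i0 * h (Sum.inr x) := by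
    intro x
    rw [← hgh' (Sum.inr x)]
    simp [δ]
  have hp0 := one_side O htop s hs hres (δ i0) hlam' (hδ0 i0) hp1 hm1 hsol hsol' hgenp
  have hm0 := one_side O htop s hs hres (δ i0) hlam' (hδ0 i0) hm1 hp1 hsol.symm hsol'.symm hgenm
  have : res O (h i0) = 0 := by
    rcases i0 with x | x
    · exact hp0 x
    · exact hm0 x
  rw [hi0, map_one] at this
  exact one_ne_zero this

end

end Pool.Agent.W235.CY
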