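import Mathlib
import Pool.Agent.W235.CY.Red5

/-!
Independence of the generic right sides.
-/

set_option autoImplicit false
set_option linter.unusedSectionVars false

namespace Pool.Agent.W235.CY

open MvPolynomial

section

variable {ι : Type} [Fintype ι] (d : ι → ℕ)

theorem Qp_coeff_pos {A : Type} [CommRing A] {N : ℕ} (zp zm : Un d N → A) (j : ι)
    (l : Fin (N * d j)) : (Qp zp zm j).coeff (N * d j + ((l : ℕ) + 1)) = zp ⟨j, l⟩ := by
  unfold Qp
  rw [Polynomial.finsetSum_coeff, Finset.sum_eq_single l]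
  · have hl := l.2
    simp only [Polynomial.coeff_add, Polynomial.coeff_C_mul, Polynomial.coeff_sub,
      Polynomial.coeff_X_pow]
    rw [if_pos trivial, if_neg (by omega), if_neg (by omega)]
    ring
  · intro m _ hm
    have hm' : (m : ℕ) ≠ l := fun h => hm (Fin.ext h)
    have hl := l.2
    simp only [Polynomial.coeff_add, Polynomial.coeff_C_mul, Polynomial.coeff_sub,
      Polynomial.coeff_X_pow]
    rw [if_neg (by omega), if_neg (by omega), if_neg (by omega)]
    ring
  · simp

theorem Qp_coeff_neg {A : Type} [CommRing A] {N : ℕ} (zp zm : Un d N → A) (j : ι)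
    (l : Fin (N * d j)) : (Qp zp zm j).coeff (N * d j - ((l : ℕ) + 1)) = zm ⟨j, l⟩ := by
  unfold Qp
  rw [Polynomial.finsetSum_coeff, Finset.sum_eq_single l]
  · have hl := l.2
    simp only [Polynomial.coeff_add, Polynomial.coeff_C_mul, Polynomial.coeff_sub,
      Polynomial.coeff_X_pow]
    rw [if_neg (by omega), if_neg (by omega), if_pos trivial]
    ring
  · intro m _ hm
    have hm' : (m : ℕ) ≠ l := fun h => hm (Fin.ext h)
    have hl := l.2
    have hm2 := m.2
    simp only [Polynomial.coeff_add, Polynomial.coeff_C_mul, Polynomial.coeff_sub,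
      Polynomial.coeff_X_pow]
    rw [if_neg (by omega), if_neg (by omega), if_neg (by omega)]
    ring
  · simp

theorem Qp_map {A B : Type} [CommRing A] [CommRing B] (φ : A →+* B) {N : ℕ} (zp zm : Un d N → A)
    (j : ι) : (Qp zp zm j).map φ = Qp (fun x => φ (zp x)) (fun x => φ (zm x)) j := by
  simp [Qp, Polynomial.map_sum]

theorem zz_map {A B : Type} [CommRing A] [CommRing B] (φ : A →+* B) {N : ℕ} (zp zm : Un d N → A)
    (x : Un d (2 * N)) : φ (zz zp zm x) = zz (fun x => φ (zp x)) (fun x => φ (zm x)) x := by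
  unfold zz
  rw [← Qp_map, ← Polynomial.coeff_map, Polynomial.map_comp]
  simp

theorem coeff_pow_mem {A : Type} [CommRing A] [Algebra ℂ A] (S : Subalgebra ℂ A) (m k : ℕ) :
    ((Polynomial.X - 1 : Polynomial A) ^ m).coeff k ∈ S := by
  have h1 : ((Polynomial.X - 1 : Polynomial A) ^ m) =
      ((Polynomial.X - 1 : Polynomial ℤ) ^ m).map (Int.castRingHom A) := by
    simp
  rw [h1, Polynomial.coeff_map]
  exact intCast_mem S _

theorem comp_comp_id {A : Type} [CommRing A] (P : Polynomial A) :
    (P.comp (1 + Polynomial.X)).comp (Polynomial.X - 1) = P := by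
  rw [Polynomial.comp_assoc]
  simp

theorem coeff_mem {A : Type} [CommRing A] [Algebra ℂ A] (S : Subalgebra ℂ A) {N : ℕ}
    (zp zm : Un d N → A) (j : ι) (h : ∀ x, zz zp zm x ∈ S) (k : ℕ) : (Qp zp zm j).coeff k ∈ S := by
  have hall : ∀ m, ((Qp zp zm j).comp (1 + Polynomial.X)).coeff m ∈ S := by
    intro m
    rcases Nat.eq_zero_or_pos m with rfl | hm
    · rw [Polynomial.coeff_zero_eq_eval_zero, Polynomial.eval_comp]
      simp only [Polynomial.eval_add, Polynomial.eval_one, Polynomial.eval_X, add_zero]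
      rw [Qp_eval_one]
      exact S.zero_mem
    · by_cases hm2 : m ≤ 2 * N * d j
      · have h1 := h ⟨j, ⟨m - 1, by omega⟩⟩
        simp only [zz] at h1
        rwa [Nat.sub_add_cancel hm] at h1
      · rw [Polynomial.coeff_eq_zero_of_natDegree_lt]
        · exact S.zero_mem
        · refine lt_of_le_of_lt ?_ (not_le.mp hm2)
          have h1 : (1 + Polynomial.X : Polynomial A).natDegree ≤ 1 := by
            compute_degree
          refine Polynomial.natDegree_comp_le.trans ?_
          calc _ ≤ (2 * N * d j) * 1 := Nat.mul_le_mul (Qp_degree d zp zm j) h1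
            _ = _ := mul_one _
  rw [← comp_comp_id (Qp zp zm j), Polynomial.comp, Polynomial.eval₂_eq_sum_range,
    Polynomial.finsetSum_coeff]
  apply Subalgebra.sum_mem
  intro m _
  rw [Polynomial.coeff_C_mul]
  exact S.mul_mem (hall m) (coeff_pow_mem S m k)

/-- independence of the generic right sides -/
theorem indep_zz {A : Type} [CommRing A] [Algebra ℂ A] {N : ℕ} (zp zm : Un d N → A)
    (h : AlgebraicIndependent ℂ (Sum.elim zp zm)) : AlgebraicIndependent ℂ (zz zp zm) := by
  classical
  let Z : Type := Un d N ⊕ Un d N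
  let Γ : MvPolynomial (Un d (2 * N)) ℂ →ₐ[ℂ] MvPolynomial Z ℂ :=
    aeval (zz (fun x => (X (Sum.inl x) : MvPolynomial Z ℂ)) (fun x => X (Sum.inr x)))
  have hmem : ∀ x, zz (fun x => (X (Sum.inl x) : MvPolynomial Z ℂ)) (fun x => X (Sum.inr x)) x
      ∈ Γ.range := fun x => ⟨X x, aeval_X _ _⟩
  have hsurj : Function.Surjective Γ := by
    rw [← AlgHom.range_eq_top, eq_top_iff, ← MvPolynomial.adjoin_range_X, Algebra.adjoin_le_iff]
    rintro _ ⟨⟨j, l⟩ | ⟨j, l⟩, rfl⟩
    · have h1 := coeff_mem d Γ.range _ _ j hmem (N * d j + ((l : ℕ) + 1))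
      rw [Qp_coeff_pos] at h1
      exact h1
    · have h1 := coeff_mem d Γ.range _ _ j hmem (N * d j - ((l : ℕ) + 1))
      rw [Qp_coeff_neg] at h1
      exact h1
  have hcard : Fintype.card Z = Fintype.card (Un d (2 * N)) := by
    simp only [Z, Fintype.card_sum, Fintype.card_sigma, Fintype.card_fin, ← Finset.mul_sum]
    ring
  have hinj : Function.Injective Γ := by
    have htop : Algebra.adjoin ℂ (Set.range (zz (fun x => (X (Sum.inl x) : MvPolynomial Z ℂ))
        (fun x => X (Sum.inr x)) : Un d (2 * N) → MvPolynomial Z ℂ)) = ⊤ := by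
      rw [Algebra.adjoin_range_eq_range_aeval]
      exact (AlgHom.range_eq_top _).mpr hsurj
    have halg : Algebra.IsAlgebraic (Algebra.adjoin ℂ (Set.range
        (zz (fun x => (X (Sum.inl x) : MvPolynomial Z ℂ))
        (fun x => X (Sum.inr x)) : Un d (2 * N) → MvPolynomial Z ℂ))) (MvPolynomial Z ℂ) := by
      constructor
      intro p
      have hp : p ∈ Algebra.adjoin ℂ (Set.range
        (zz (fun x => (X (Sum.inl x) : MvPolynomial Z ℂ))
        (fun x => X (Sum.inr x)) : Un d (2 * N) → MvPolynomial Z ℂ)) := htop ▸ Algebra.mem_top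
      exact isAlgebraic_algebraMap (⟨p, hp⟩ : Algebra.adjoin ℂ _)
    have hb := Algebra.IsAlgebraic.isTranscendenceBasis_of_le_trdeg_of_finite ℂ
      (zz (fun x => (X (Sum.inl x) : MvPolynomial Z ℂ))
        (fun x => X (Sum.inr x)) : Un d (2 * N) → MvPolynomial Z ℂ) (by
      rw [MvPolynomial.trdeg_of_isDomain]
      simp only [Cardinal.mk_fintype, Cardinal.lift_natCast, Nat.cast_le]
      rw [hcard])
    exact algebraicIndependent_iff_injective_aeval.mp hb.1
  rw [algebraicIndependent_iff_injective_aeval] at h ⊢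
  have h3 : aeval (zz zp zm) = (aeval (Sum.elim zp zm)).comp Γ := by
    apply MvPolynomial.algHom_ext
    intro x
    rw [aeval_X, AlgHom.comp_apply]
    simp only [Γ, aeval_X]
    have h4 := zz_map d (aeval (Sum.elim zp zm) : MvPolynomial Z ℂ →ₐ[ℂ] A).toRingHom
      (fun x => (X (Sum.inl x) : MvPolynomial Z ℂ)) (fun x => X (Sum.inr x)) x
    simp only [AlgHom.toRingHom_eq_coe, RingHom.coe_coe, aeval_X, Sum.elim_inl,
      Sum.elim_inr] at h4
    exact h4.symm
  rw [h3]
  exact h.comp hinj

end

end Pool.Agent.W235.CY
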