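import Mathlib

/-!
An algebraically closed field with a valuation ring, an infinitesimal and generic elements.
-/

set_option autoImplicit false
set_option linter.unusedSectionVars false

namespace Pool.Agent.W235.CY

open MvPolynomial

section

variable (Z : Type) [Fintype Z]

/-- the field generated by the generic elements -/
abbrev K0 : Type := FractionRing (MvPolynomial Z ℂ)

/-- the big field -/
abbrev KK : Type := AlgebraicClosure (FractionRing (Polynomial (K0 Z)))

/-- the polynomial ring in the infinitesimal as a subring of the big field -/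
noncomputable def inc : Polynomial (K0 Z) →+* KK Z :=
  (algebraMap (FractionRing (Polynomial (K0 Z))) (KK Z)).comp
    (algebraMap (Polynomial (K0 Z)) (FractionRing (Polynomial (K0 Z))))

theorem inc_injective : Function.Injective (inc Z) :=
  (algebraMap (FractionRing (Polynomial (K0 Z))) (KK Z)).injective.comp
    (IsFractionRing.injective (Polynomial (K0 Z)) (FractionRing (Polynomial (K0 Z))))

theorem inc_C (c : ℂ) : inc Z (Polynomial.C (algebraMap ℂ (K0 Z) c)) = algebraMap ℂ (KK Z) c := by
  rfl

theorem exists_ring' {κ K : Type} [Field κ] [Field K] (i : Polynomial κ →+* K)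
    (hi : Function.Injective i) : ∃ (O : ValuationSubring K) (g : Polynomial κ →+* O),
    (∀ p, ((g p : O) : K) = i p) ∧ IsLocalRing.residue O (g Polynomial.X) = 0 := by
  let P : Ideal (Polynomial κ) := Ideal.span {Polynomial.X}
  have hP : P.IsPrime := (Ideal.span_singleton_prime Polynomial.X_ne_zero).mpr Polynomial.prime_X
  have hg : ∀ y : P.primeCompl, IsUnit (i y) := by
    intro y
    apply IsUnit.mk0
    intro h0
    have h1 : (y : Polynomial κ) = 0 := hi (h0.trans (map_zero _).symm)
    apply y.2
    rw [h1]
    exact P.zero_mem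
  let f : Localization.AtPrime P →+* K := IsLocalization.lift (M := P.primeCompl) hg
  obtain ⟨O, hO, hloc⟩ := IsLocalRing.exists_factor_valuationRing f
  let f' : Localization.AtPrime P →+* O := f.codRestrict O.toSubring hO
  have hf' : ∀ z, ((f' z : O) : K) = f z := fun z => rfl
  refine ⟨O, f'.comp (algebraMap (Polynomial κ) (Localization.AtPrime P)), ?_, ?_⟩
  · intro z
    change f (algebraMap (Polynomial κ) (Localization.AtPrime P) z) = i z
    rw [IsLocalization.lift_eq]
  · rw [IsLocalRing.residue_eq_zero_iff, IsLocalRing.mem_maximalIdeal, mem_nonunits_iff]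
    intro hu
    have h1 : IsUnit (algebraMap (Polynomial κ) (Localization.AtPrime P) Polynomial.X) :=
      hloc.map_nonunit _ hu
    rw [IsLocalization.AtPrime.isUnit_to_map_iff (Localization.AtPrime P) P] at h1
    exact h1 (Ideal.mem_span_singleton_self _)

/-- the valuation ring as an algebra, with generic elements -/
theorem exists_valued' {κ K : Type} [Field κ] [Algebra ℂ κ] [Field K] [Algebra ℂ K]
    (i : Polynomial κ →+* K) (hi : Function.Injective i)
    (hC : ∀ c, i (Polynomial.C (algebraMap ℂ κ c)) = algebraMap ℂ K c) {Z : Type} (x : Z → κ)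
    (hx : AlgebraicIndependent ℂ x) :
    ∃ (O : ValuationSubring K) (_ : Algebra ℂ O) (_ : IsScalarTower ℂ O K) (s : O) (ζ : Z → O),
      (∀ z, (ζ z : K) = i (Polynomial.C (x z))) ∧ (s : K) = i Polynomial.X ∧
      IsLocalRing.residue O s = 0 ∧ AlgebraicIndependent ℂ (fun z => IsLocalRing.residue O (ζ z)) := by
  obtain ⟨O, g, hg, hgX⟩ := exists_ring' i hi
  let _ : Algebra ℂ O := (g.comp (Polynomial.C.comp (algebraMap ℂ κ))).toAlgebra
  have hst : IsScalarTower ℂ O K := by
    apply IsScalarTower.of_algebraMap_eq
    intro c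
    show algebraMap ℂ K c = ((g (Polynomial.C (algebraMap ℂ κ c)) : O) : K)
    rw [hg, hC]
  refine ⟨O, inferInstance, hst, g Polynomial.X, fun z => g (Polynomial.C (x z)),
    fun z => hg _, hg _, hgX, ?_⟩
  let θ : κ →ₐ[ℂ] IsLocalRing.ResidueField O :=
    { (IsLocalRing.residue O).comp (g.comp Polynomial.C) with
      commutes' := fun c => rfl }
  exact hx.map' (f := θ) θ.toRingHom.injective

/-- the generic elements times powers of the infinitesimal are independent -/
theorem independent_mul (m : Z → ℕ) : AlgebraicIndependent ℂ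
    (fun z : Z => inc Z (Polynomial.C (algebraMap (MvPolynomial Z ℂ) (K0 Z) (X z))) *
      inc Z Polynomial.X ^ m z) := by
  rw [algebraicIndependent_iff_injective_aeval]
  let Ψ : MvPolynomial Z ℂ →ₐ[ℂ] Polynomial (MvPolynomial Z ℂ) :=
    aeval fun z => Polynomial.C (X z) * Polynomial.X ^ m z
  have hΨ : Function.Injective Ψ := by
    have h1 : ((Polynomial.evalRingHom (1 : MvPolynomial Z ℂ)).comp Ψ.toRingHom) =
        RingHom.id _ := by
      apply MvPolynomial.ringHom_ext
      · intro c
        simp [Ψ, MvPolynomial.algebraMap_eq]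
      · intro z
        simp [Ψ]
    apply Function.LeftInverse.injective (g := Polynomial.evalRingHom (1 : MvPolynomial Z ℂ))
    intro p
    exact DFunLike.congr_fun h1 p
  have h2 : ∀ p, aeval (fun z : Z => inc Z (Polynomial.C (algebraMap (MvPolynomial Z ℂ) (K0 Z)
      (X z))) * inc Z Polynomial.X ^ m z) p =
      inc Z ((Ψ p).map (algebraMap (MvPolynomial Z ℂ) (K0 Z))) := by
    intro p
    have h3 : (aeval (fun z : Z => inc Z (Polynomial.C (algebraMap (MvPolynomial Z ℂ) (K0 Z)
      (X z))) * inc Z Polynomial.X ^ m z) : MvPolynomial Z ℂ →ₐ[ℂ] KK Z).toRingHom =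
      ((inc Z).comp (Polynomial.mapRingHom (algebraMap (MvPolynomial Z ℂ) (K0 Z)))).comp
        Ψ.toRingHom := by
      apply MvPolynomial.ringHom_ext
      · intro c
        simp only [AlgHom.toRingHom_eq_coe, RingHom.coe_coe, RingHom.comp_apply, algHom_C, Ψ,
          Polynomial.coe_mapRingHom]
        rw [← inc_C]
        congr 1
        simp only [MvPolynomial.algebraMap_eq, Polynomial.map_C,
          Polynomial.algebraMap_apply]
        congr 1
      · intro z
        simp [Ψ]
    exact DFunLike.congr_fun h3 p
  intro p q hpq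
  rw [h2, h2] at hpq
  exact hΨ (Polynomial.map_injective _ (IsFractionRing.injective (MvPolynomial Z ℂ) (K0 Z))
    (inc_injective Z hpq))

/-- **the valued field** -/
theorem exists_valued : ∃ (K : Type) (_ : Field K) (_ : IsAlgClosed K) (_ : Algebra ℂ K)
    (O : ValuationSubring K) (_ : Algebra ℂ O) (_ : IsScalarTower ℂ O K) (s : O) (ζ : Z → O),
      (s : K) ≠ 0 ∧ IsLocalRing.residue O s = 0 ∧
      AlgebraicIndependent ℂ (fun z => IsLocalRing.residue O (ζ z)) ∧
      ∀ m : Z → ℕ, AlgebraicIndependent ℂ (fun z => (ζ z : K) * (s : K) ^ m z) := by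
  have hx : AlgebraicIndependent ℂ (fun z : Z => algebraMap (MvPolynomial Z ℂ) (K0 Z) (X z)) :=
    (MvPolynomial.algebraicIndependent_X Z ℂ).map'
      (f := IsScalarTower.toAlgHom ℂ (MvPolynomial Z ℂ) (K0 Z))
      (IsFractionRing.injective (MvPolynomial Z ℂ) (K0 Z))
  obtain ⟨O, i1, i2, s, ζ, h1, h2, h3, h4⟩ := exists_valued' (inc Z) (inc_injective Z) (inc_C Z) _ hx
  refine ⟨KK Z, inferInstance, inferInstance, inferInstance, O, i1, i2, s, ζ, ?_, h3, h4, ?_⟩
  · rw [h2]
    intro h0
    exact Polynomial.X_ne_zero (inc_injective Z (h0.trans (map_zero _).symm))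
  · intro m
    have h5 := independent_mul Z m
    simp only [h1, h2]
    exact h5

end

end Pool.Agent.W235.CY
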