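import Mathlib
import Pool.Agent.W235.CY.Indep
import Pool.Agent.W235.CY.Val

/-!
Comparison of the degrees of the systems for Laurent curves and for polynomial curves.
-/

set_option autoImplicit false
set_option linter.unusedSectionVars false

namespace Pool.Agent.W235.CY

open MvPolynomial

section

variable {V ι : Type} [Fintype V] [Fintype ι] {w : V → ℕ} {d : ι → ℕ}
  {f : ι → MvPolynomial V ℂ}

theorem cpy_map {A B : Type} [CommRing A] [CommRing B] (φ : A →+* B) {N : ℕ}
    (y : Un w (2 * N) → A) (x : Un w N) : φ (cpy y x) = cpy (fun l => φ (y l)) x := by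
  unfold cpy
  rw [← xp_map, ← Polynomial.coeff_map, Polynomial.map_comp]
  simp

theorem cmy_map {A B : Type} [CommRing A] [CommRing B] (φ : A →+* B) {N : ℕ}
    (y : Un w (2 * N) → A) (x : Un w N) : φ (cmy y x) = cmy (fun l => φ (y l)) x := by
  unfold cmy
  rw [← xp_map, ← Polynomial.coeff_map, Polynomial.map_comp]
  simp

theorem cpy_zero {A : Type} [CommRing A] {N : ℕ} (x : Un w N) :
    cpy (fun _ : Un w (2 * N) => (0 : A)) x = 0 := by
  simp [cpy, xp]

theorem cmy_zero {A : Type} [CommRing A] {N : ℕ} (x : Un w N) :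
    cmy (fun _ : Un w (2 * N) => (0 : A)) x = 0 := by
  simp [cmy, xp]

theorem zz_zero {A : Type} [CommRing A] {N : ℕ} (x : Un d (2 * N)) :
    zz (fun _ : Un d N => (0 : A)) (fun _ => 0) x = 0 := by
  simp [zz, Qp]

theorem card_Un (w : V → ℕ) (M : ℕ) : Fintype.card (Un w M) = M * ∑ i, w i := by
  simp [Fintype.card_sigma, Finset.mul_sum]

/-- **Comparison of degrees** -/
theorem degree_compare {N : ℕ} (hsum : ∑ i, w i = ∑ j, d j)
    (hf : ∀ j, ∀ α ∈ (f j).support, Finsupp.weight w α ≤ d j)
    (hf0 : ∀ j, constantCoeff (f j) = 0)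
    (htopE : TopSys (aw w (2 * N)) (aw d (2 * N)) (EE w d f N) (tt w d f (2 * N)))
    (hnullE : ∀ i, ∃ m, (X i : MvPolynomial (Un w (2 * N)) ℂ) ^ m ∈
      Ideal.span (Set.range (EE w d f N)))
    (htop : TopSys (aw w N) (aw d N) (tt w d f N) (tt w d f N)) :
    Module.finrank (FF (EE w d f N)) (LL ℂ (Un w (2 * N))) ≤
      Module.finrank (FF (tt w d f N)) (LL ℂ (Un w N)) ^ 2 := by
  classical
  have hc1 : Fintype.card (Un w (2 * N)) = Fintype.card (Un d (2 * N)) := by
    rw [card_Un, card_Un, hsum]
  have hc2 : Fintype.card (Un w N) = Fintype.card (Un d N) := by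
    rw [card_Un, card_Un, hsum]
  let Z : Type := Un d N ⊕ Un d N
  obtain ⟨K, _, _, _, O, _, _, s, ζ, hs0, hsX, hgen, hindm⟩ := exists_valued Z
  let ζp : Un d N → O := fun x => ζ (Sum.inl x)
  let ζm : Un d N → O := fun x => ζ (Sum.inr x)
  have hgenp : AlgebraicIndependent ℂ (fun x => res O (ζp x)) :=
    hgen.comp Sum.inl Sum.inl_injective
  have hgenm : AlgebraicIndependent ℂ (fun x => res O (ζm x)) :=
    hgen.comp Sum.inr Sum.inr_injective
  -- the right sides
  have hindK : AlgebraicIndependent ℂ (zz (cc O (scl d s ζp)) (cc O (scl d s ζm)) :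
      Un d (2 * N) → K) := by
    apply indep_zz
    have h1 := hindm (Sum.elim (fun x : Un d N => (x.2 : ℕ) + 1)
      (fun x : Un d N => (x.2 : ℕ) + 1))
    convert h1 using 1
    funext z
    rcases z with x | x
    · simp only [Sum.elim_inl, cc, scl, ζp]
      push_cast
      rw [mul_comm]
    · simp only [Sum.elim_inr, cc, scl, ζm]
      push_cast
      rw [mul_comm]
  have hE := algebraicIndependent htopE hc1
  have hfd := finiteDimensional htopE
  obtain ⟨F, hFinj, hF⟩ := exists_solutions hE hfd hindK
  -- the right sides are small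
  have hzO : ∀ x, ((zz (scl d s ζp) (scl d s ζm) x : O) : K) =
      zz (cc O (scl d s ζp)) (cc O (scl d s ζm)) x := fun x =>
    zz_map d O.subtype (scl d s ζp) (scl d s ζm) x
  have hzres : ∀ x, res O (zz (scl d s ζp) (scl d s ζm) x) = 0 := by
    intro x
    rw [zz_map d (res O)]
    have h1 : ∀ ζ : Un d N → O, (fun x => res O (scl d s ζ x)) = fun _ => 0 := by
      intro ζ
      funext x
      simp only [scl, map_mul, map_pow]
      rw [show res O s = 0 from hsX, zero_pow (Nat.succ_ne_zero _), zero_mul]
    rw [h1, h1, zz_zero]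
  have hsmall := fun n => small O htopE hnullE (F n) (zz (scl d s ζp) (scl d s ζm)) hzres
    (fun l => by rw [hzO, hF n l])
  choose y hy1 hy2 using hsmall
  have hyF : ∀ n, (fun l => (y n l : K)) = F n := fun n => funext (hy1 n)
  have hccp : ∀ n, cc O (cpy (y n)) = cpy (F n) := by
    intro n
    funext x
    rw [← hyF n]
    exact cpy_map O.subtype (y n) x
  have hccm : ∀ n, cc O (cmy (y n)) = cmy (F n) := by
    intro n
    funext x
    rw [← hyF n]
    exact cmy_map O.subtype (y n) x
  have hsol : ∀ n, IsSol w d f (cc O (cpy (y n))) (cc O (cmy (y n))) (cc O (scl d s ζp))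
      (cc O (scl d s ζm)) := by
    intro n u hu j
    rw [hccp, hccm]
    exact sol_of_eq w hf hf0 (F n) _ _ (hF n) u hu j
  have hrp : ∀ n x, res O (cpy (y n) x) = 0 := by
    intro n x
    rw [cpy_map (res O), funext (hy2 n), cpy_zero]
  have hrm : ∀ n x, res O (cmy (y n) x) = 0 := by
    intro n x
    rw [cmy_map (res O), funext (hy2 n), cmy_zero]
  have hdiv := fun n => divisible O s hs0 hsX (hrp n) (hrm n) htop.null (hsol n)
  choose gp gm hgp hgm using hdiv
  have hsol' : ∀ n, IsSol w d f (cc O (scl w s (gp n))) (cc O (scl w s (gm n)))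
      (cc O (scl d s ζp)) (cc O (scl d s ζm)) := by
    intro n
    rw [← hgp n, ← hgm n]
    exact hsol n
  have hredp := fun n => reduction' O s hs0 hsX (hsol' n)
  have hredm := fun n => reduction' O s hs0 hsX (hsol' n).symm
  have hinf : Infinite K := IsAlgClosed.instInfinite
  -- the map to pairs of residues
  let A : Fin _ → (Un w N → IsLocalRing.ResidueField O) := fun n x => res O (gp n x)
  let B : Fin _ → (Un w N → IsLocalRing.ResidueField O) := fun n x => res O (gm n x)
  have hAB : Function.Injective fun n => (A n, B n) := by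
    intro m n hmn
    apply hFinj
    have h1 := congrArg Prod.fst hmn
    have h2 := congrArg Prod.snd hmn
    obtain ⟨e1, e2⟩ := reduction_injective O htop s hs0 hsX (hsol' m) (hsol' n) hgenp hgenm
      (fun x => congrFun h1 x) (fun x => congrFun h2 x)
    apply y_injective w
    · rw [← hccp m, ← hccp n, hgp m, hgp n, e1]
    · rw [← hccm m, ← hccm n, hgm m, hgm n, e2]
  have hcardA : (Finset.univ.image A).card ≤ Module.finrank (FF (tt w d f N)) (LL ℂ (Un w N)) := by
    have h1 := solutions_le htop hc2 hgenp (ι := (Finset.univ.image A : Finset _))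
      (fun a => a.1) Subtype.val_injective (by
        rintro ⟨a, ha⟩ l
        obtain ⟨n, -, rfl⟩ := Finset.mem_image.mp ha
        exact hredp n l)
    rwa [Fintype.card_coe] at h1
  have hcardB : (Finset.univ.image B).card ≤ Module.finrank (FF (tt w d f N)) (LL ℂ (Un w N)) := by
    have h1 := solutions_le htop hc2 hgenm (ι := (Finset.univ.image B : Finset _))
      (fun a => a.1) Subtype.val_injective (by
        rintro ⟨a, ha⟩ l
        obtain ⟨n, -, rfl⟩ := Finset.mem_image.mp ha
        exact hredm n l)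
    rwa [Fintype.card_coe] at h1
  have h3 := Finset.card_le_card_of_injOn (s := Finset.univ)
    (t := (Finset.univ.image A) ×ˢ (Finset.univ.image B)) (fun n => (A n, B n)) (by
      intro n _
      rw [Finset.mem_coe, Finset.mem_product]
      exact ⟨Finset.mem_image_of_mem _ (Finset.mem_univ _),
        Finset.mem_image_of_mem _ (Finset.mem_univ _)⟩) hAB.injOn
  rw [Finset.card_univ, Fintype.card_fin, Finset.card_product] at h3
  calc _ ≤ _ := h3
    _ ≤ Module.finrank (FF (tt w d f N)) (LL ℂ (Un w N)) *
        Module.finrank (FF (tt w d f N)) (LL ℂ (Un w N)) := Nat.mul_le_mul hcardA hcardB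
    _ = _ := (sq _).symm

end

end Pool.Agent.W235.CY
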