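import Mathlib

/-!
Numerical part of the existence of Laurent curves.
-/

set_option autoImplicit false
set_option linter.unusedSectionVars false

namespace Pool.Agent.W235.CY

theorem central_lower (k : ℕ) (hk : 1 ≤ k) : 16 ^ k ≤ 4 * k * Nat.centralBinom k ^ 2 := by
  induction k, hk using Nat.le_induction with
  | base => decide
  | succ k hk ih =>
    have h1 := Nat.succ_mul_centralBinom_succ k
    have h2 : (k + 1) ^ 2 * Nat.centralBinom (k + 1) ^ 2 =
        4 * (2 * k + 1) ^ 2 * Nat.centralBinom k ^ 2 := by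
      rw [← mul_pow, h1]; ring
    have h3 : (k + 1) * 16 ^ (k + 1) ≤ (k + 1) * (4 * (k + 1) * Nat.centralBinom (k + 1) ^ 2) := by
      calc (k + 1) * 16 ^ (k + 1) = 16 * (k + 1) * 16 ^ k := by ring
        _ ≤ 16 * (k + 1) * (4 * k * Nat.centralBinom k ^ 2) := Nat.mul_le_mul_left _ ih
        _ = 16 * (4 * k * (k + 1)) * Nat.centralBinom k ^ 2 := by ring
        _ ≤ 16 * (2 * k + 1) ^ 2 * Nat.centralBinom k ^ 2 := by
            apply Nat.mul_le_mul_right
            nlinarith
        _ = 4 * ((k + 1) ^ 2 * Nat.centralBinom (k + 1) ^ 2) := by rw [h2]; ring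
        _ = _ := by ring
    exact Nat.le_of_mul_le_mul_left h3 (Nat.succ_pos k)

theorem central_upper (k : ℕ) : (2 * k + 1) * Nat.centralBinom k ^ 2 ≤ 16 ^ k := by
  induction k with
  | zero => decide
  | succ k ih =>
    have h1 := Nat.succ_mul_centralBinom_succ k
    have h2 : (k + 1) ^ 2 * Nat.centralBinom (k + 1) ^ 2 =
        4 * (2 * k + 1) ^ 2 * Nat.centralBinom k ^ 2 := by
      rw [← mul_pow, h1]; ring
    have h3 : (k + 1) ^ 2 * ((2 * (k + 1) + 1) * Nat.centralBinom (k + 1) ^ 2) ≤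
        (k + 1) ^ 2 * 16 ^ (k + 1) := by
      calc (k + 1) ^ 2 * ((2 * (k + 1) + 1) * Nat.centralBinom (k + 1) ^ 2) =
          (2 * (k + 1) + 1) * ((k + 1) ^ 2 * Nat.centralBinom (k + 1) ^ 2) := by ring
        _ = 4 * ((2 * k + 3) * (2 * k + 1)) * ((2 * k + 1) * Nat.centralBinom k ^ 2) := by
            rw [h2]; ring
        _ ≤ 4 * ((2 * k + 3) * (2 * k + 1)) * 16 ^ k := Nat.mul_le_mul_left _ ih
        _ ≤ 4 * (4 * (k + 1) ^ 2) * 16 ^ k := by
            apply Nat.mul_le_mul_right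
            nlinarith
        _ = _ := by ring
    exact Nat.le_of_mul_le_mul_left h3 (by positivity)

section

variable {V ι : Type} [Fintype V] [Fintype ι] (w : V → ℕ) (d : ι → ℕ)

open Finset

/-- the product of the positive `d j` -/
noncomputable def pd : ℕ := ∏ j, max (d j) 1

theorem pd_pos : 1 ≤ pd d := by
  unfold pd
  exact Nat.one_le_iff_ne_zero.mpr (Finset.prod_ne_zero_iff.mpr fun j _ => by positivity)

/-- the number of nonzero values -/
noncomputable def nz {V : Type} [Fintype V] (w : V → ℕ) : ℕ := (univ.filter fun i => w i ≠ 0).card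

theorem numeric (hsum : ∑ i, w i = ∑ j, d j) (hr : nz d < nz w) (N : ℕ)
    (hN : 2 ^ nz d * pd d ≤ N)
    (h : ∏ j, Nat.centralBinom (N * d j) ≤ ∏ i, Nat.centralBinom (N * w i)) : False := by
  classical
  have hN1 : 1 ≤ N := le_trans (Nat.one_le_iff_ne_zero.mpr (by
    have := pd_pos d
    positivity)) hN
  have hA : 16 ^ (N * ∑ j, d j) ≤ (∏ j, (if d j = 0 then 1 else 4 * (N * d j))) *
      (∏ j, Nat.centralBinom (N * d j)) ^ 2 := by
    rw [Finset.mul_sum, ← Finset.prod_pow_eq_pow_sum, ← Finset.prod_pow, ← Finset.prod_mul_distrib]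
    apply Finset.prod_le_prod' 
    intro j _
    split_ifs with hj
    · rw [hj]; simp
    · exact central_lower _ (Nat.mul_pos hN1 (Nat.pos_of_ne_zero hj))
  have hB : (∏ i, (2 * (N * w i) + 1)) * (∏ i, Nat.centralBinom (N * w i)) ^ 2 ≤
      16 ^ (N * ∑ i, w i) := by
    rw [Finset.mul_sum, ← Finset.prod_pow_eq_pow_sum, ← Finset.prod_pow, ← Finset.prod_mul_distrib]
    exact Finset.prod_le_prod' fun i _ => central_upper _
  have hB' : (2 * N) ^ nz w ≤ ∏ i, (2 * (N * w i) + 1) := by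
    have h1 : (2 * N) ^ nz w = ∏ i, (if w i ≠ 0 then 2 * N else 1) := by
      rw [nz, ← Finset.prod_const, Finset.prod_filter]
    rw [h1]
    apply Finset.prod_le_prod'
    intro i _
    split_ifs with hi
    · have : 1 ≤ w i := Nat.pos_of_ne_zero hi
      nlinarith
    · omega
  have hA' : ∏ j, (if d j = 0 then 1 else 4 * (N * d j)) = (2 * N) ^ nz d * (2 ^ nz d * pd d) := by
    have h1 : (2 * N) ^ nz d = ∏ i, (if d i ≠ 0 then 2 * N else 1) := by
      rw [nz, ← Finset.prod_const, Finset.prod_filter]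
    have h2 : 2 ^ nz d = ∏ i, (if d i ≠ 0 then 2 else 1) := by
      rw [nz, ← Finset.prod_const, Finset.prod_filter]
    rw [h1, h2, pd, ← Finset.prod_mul_distrib, ← Finset.prod_mul_distrib]
    refine Finset.prod_congr rfl fun j _ => ?_
    by_cases hj : d j = 0
    · simp [hj]
    · have h3 : max (d j) 1 = d j := max_eq_left (Nat.pos_of_ne_zero hj)
      simp only [hj, if_false, not_false_eq_true, ne_eq, if_true, h3]
      ring
  have h16 : 0 < 16 ^ (N * ∑ i, w i) := by positivity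
  have hkey : (∏ i, (2 * (N * w i) + 1)) * 16 ^ (N * ∑ i, w i) ≤
      (∏ j, (if d j = 0 then 1 else 4 * (N * d j))) * 16 ^ (N * ∑ i, w i) := by
    calc (∏ i, (2 * (N * w i) + 1)) * 16 ^ (N * ∑ i, w i) =
        (∏ i, (2 * (N * w i) + 1)) * 16 ^ (N * ∑ j, d j) := by rw [hsum]
      _ ≤ (∏ i, (2 * (N * w i) + 1)) * ((∏ j, (if d j = 0 then 1 else 4 * (N * d j))) *
          (∏ j, Nat.centralBinom (N * d j)) ^ 2) := Nat.mul_le_mul_left _ hA
      _ ≤ (∏ i, (2 * (N * w i) + 1)) * ((∏ j, (if d j = 0 then 1 else 4 * (N * d j))) *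
          (∏ i, Nat.centralBinom (N * w i)) ^ 2) :=
          Nat.mul_le_mul_left _ (Nat.mul_le_mul_left _ (Nat.pow_le_pow_left h 2))
      _ = (∏ j, (if d j = 0 then 1 else 4 * (N * d j))) * ((∏ i, (2 * (N * w i) + 1)) *
          (∏ i, Nat.centralBinom (N * w i)) ^ 2) := by ring
      _ ≤ _ := Nat.mul_le_mul_left _ hB
  have h4 := Nat.le_of_mul_le_mul_right hkey h16
  rw [hA'] at h4
  have h5 : (2 * N) ^ (nz d + 1) ≤ (2 * N) ^ nz w := Nat.pow_le_pow_right (by omega) hr
  have h6 : (2 * N) ^ nz d * (2 * N) ≤ (2 * N) ^ nz d * (2 ^ nz d * pd d) := by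
    rw [← pow_succ]
    exact (h5.trans hB').trans h4
  have h7 := Nat.le_of_mul_le_mul_left h6 (by positivity)
  omega

end

end Pool.Agent.W235.CY
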