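import Mathlib
import Pool.Agent.W235.CY.Compare
import Pool.Agent.W235.CY.Numer
import Pool.Agent.H159R3.Exp.Laur

/-!
Existence of Laurent curves through a given point, main case.
-/

set_option autoImplicit false
set_option linter.unusedSectionVars false

namespace Pool.Agent.W235.CY

open MvPolynomial
open Pool.Agent.H159R3.Exp (Laur)

section

variable {V ι : Type} [Fintype V] [Fintype ι] {w : V → ℕ} {d : ι → ℕ}
  {f : ι → MvPolynomial V ℂ}

/-- a nonconstant Laurent curve through the origin with given zero coordinates -/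
def HasCurve (w : V → ℕ) (f : ι → MvPolynomial V ℂ) : Prop :=
  ∃ v : ℂ → V → ℂ, (∀ i, Laur fun t => v t i) ∧ (∀ t, t ≠ 0 → ∀ j, eval (v t) (f j) = 0) ∧
    (∀ i, v 1 i = 0) ∧ (∀ i, w i = 0 → ∀ t, v t i = 0) ∧ ∃ t, t ≠ 0 ∧ ∃ i, v t i ≠ 0

theorem prod_aw (w : V → ℕ) (M : ℕ) : ∏ x, aw w M x = ∏ i, (M * w i).factorial := by
  rw [Fintype.prod_sigma]
  refine Finset.prod_congr rfl fun i _ => ?_
  unfold aw
  rw [Fin.prod_univ_eq_prod_range (fun l => l + 1) (M * w i)]
  exact Finset.prod_range_add_one_eq_factorial _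

theorem xp_zero_of_weight {A : Type} [CommRing A] {M : ℕ} (y : Un w M → A) (i : V) (hi : w i = 0) :
    xp w y i = 0 := by
  have : IsEmpty (Fin (M * w i)) := by
    rw [hi, mul_zero]
    infer_instance
  unfold xp
  rw [Finset.univ_eq_empty, Finset.sum_empty]

theorem exists_eval_ne {x : Polynomial ℂ} (hx : x ≠ 0) : ∃ τ : ℂ, τ ≠ -1 ∧ x.eval τ ≠ 0 := by
  have h1 : (x * (Polynomial.X + 1)) ≠ 0 := mul_ne_zero hx (Polynomial.X_add_C_ne_zero 1)
  by_contra h
  push Not at h
  apply h1
  apply Polynomial.funext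
  intro τ
  rw [Polynomial.eval_mul, Polynomial.eval_zero]
  by_cases hτ : τ = -1
  · rw [hτ]
    simp
  · rw [h τ hτ, zero_mul]

theorem exists_xp_ne {M : ℕ} {y : Un w M → ℂ} (hy : y ≠ 0) : ∃ i, xp w y i ≠ 0 := by
  by_contra h
  push Not at h
  apply hy
  apply xp_injective w
  intro i
  rw [h i]
  simp [xp]

theorem aeval_xp_degree (hf : ∀ j, ∀ α ∈ (f j).support, Finsupp.weight w α ≤ d j) {M : ℕ}
    (y : Un w M → ℂ) (j : ι) : (aeval (xp w y) (f j)).natDegree ≤ M * d j := by
  rw [aeval_eq_sum']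
  apply Polynomial.natDegree_sum_le_of_forall_le
  intro α hα
  have h0 : algebraMap ℂ (Polynomial ℂ) (coeff α (f j)) = Polynomial.C (coeff α (f j)) := rfl
  rw [h0]
  refine (Polynomial.natDegree_C_mul_le _ _).trans ?_
  refine (Polynomial.natDegree_prod_le _ _).trans ?_
  refine le_trans ?_ (Nat.mul_le_mul_left M (hf j α hα))
  rw [weight_eq, Finset.mul_sum]
  apply Finset.sum_le_sum
  intro i _
  refine Polynomial.natDegree_pow_le.trans ?_
  calc α i * (xp w y i).natDegree ≤ α i * (M * w i) := Nat.mul_le_mul_left _ (xp_degree w y i)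
    _ = M * (w i * α i) := by ring

/-- a polynomial curve through the origin -/
theorem hasCurve_of_poly (x : V → Polynomial ℂ) (h0 : ∀ i, (x i).eval 0 = 0)
    (hw : ∀ i, w i = 0 → x i = 0) (hx : ∃ i, x i ≠ 0) (hf : ∀ j, aeval x (f j) = 0) :
    HasCurve w f := by
  refine ⟨fun t i => (x i).eval (t - 1), ?_, ?_, ?_, ?_, ?_⟩
  · intro i
    have h1 : (fun t : ℂ => (x i).eval (t - 1)) = fun t =>
        ((x i).comp (Polynomial.X - 1)).eval t := by
      funext t
      rw [Polynomial.eval_comp]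
      simp
    rw [h1]
    exact Laur.poly _
  · intro t _ j
    have h1 := eval_aeval' x (f j) (t - 1)
    rw [hf j, Polynomial.eval_zero, aeval_def, Algebra.algebraMap_self, eval₂_id] at h1
    exact h1.symm
  · intro i
    simp only [sub_self]
    exact h0 i
  · intro i hi t
    simp only [hw i hi, Polynomial.eval_zero]
  · obtain ⟨i, hi⟩ := hx
    obtain ⟨τ, hτ1, hτ2⟩ : ∃ τ : ℂ, τ ≠ -1 ∧ (x i).eval τ ≠ 0 := exists_eval_ne hi
    refine ⟨τ + 1, ?_, i, ?_⟩
    · intro h
      exact hτ1 (eq_neg_of_add_eq_zero_left h)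
    · simp only [add_sub_cancel_right]
      exact hτ2

/-- no nonzero solution of the equations of polynomial curves -/
theorem tt_zero (hf : ∀ j, ∀ α ∈ (f j).support, Finsupp.weight w α ≤ d j)
    (hf0 : ∀ j, constantCoeff (f j) = 0) (hno : ¬ HasCurve w f) {M : ℕ} (y : Un w M → ℂ)
    (h : ∀ x, eval y (tt w d f M x) = 0) : y = 0 := by
  by_contra hy
  apply hno
  refine hasCurve_of_poly (xp w y) (xp_eval_zero w y) (fun i hi => xp_zero_of_weight y i hi)
    (exists_xp_ne hy) ?_
  intro j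
  apply Polynomial.ext
  intro m
  rw [Polynomial.coeff_zero]
  rcases Nat.eq_zero_or_pos m with rfl | hm
  · rw [Polynomial.coeff_zero_eq_eval_zero, eval_aeval']
    have h1 : (fun i => (xp w y i).eval 0) = fun _ => (0 : ℂ) := by
      funext i
      exact xp_eval_zero w y i
    rw [h1]
    have h2 := hf0 j
    rw [aeval_def, Algebra.algebraMap_self, eval₂_id]
    have h3 := eval_zero' (R := ℂ) (σ := V)
    have h4 : eval (fun _ : V => (0 : ℂ)) (f j) = constantCoeff (f j) := by
      rw [← eval_zero]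
      rfl
    rw [h4, h2]
  · by_cases hmd : m ≤ M * d j
    · have h1 := h ⟨j, ⟨m - 1, by omega⟩⟩
      have h2 := aeval_tt w d f M y ⟨j, ⟨m - 1, by omega⟩⟩
      rw [aeval_def, Algebra.algebraMap_self, eval₂_id, h1] at h2
      simp only [Nat.sub_add_cancel hm] at h2
      exact h2.symm
    · apply Polynomial.coeff_eq_zero_of_natDegree_lt
      exact lt_of_le_of_lt (aeval_xp_degree hf y j) (not_le.mp hmd)

/-- no nonzero solution of the equations of Laurent curves -/
theorem EE_zero (hf : ∀ j, ∀ α ∈ (f j).support, Finsupp.weight w α ≤ d j)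
    (hf0 : ∀ j, constantCoeff (f j) = 0) (hno : ¬ HasCurve w f) {N : ℕ} (y : Un w (2 * N) → ℂ)
    (h : ∀ x, eval y (EE w d f N x) = 0) : y = 0 := by
  by_contra hy
  apply hno
  have hEp : ∀ j, Ep w d f N y j = 0 := by
    intro j
    apply Polynomial.ext
    intro m
    rw [Polynomial.coeff_zero]
    rcases Nat.eq_zero_or_pos m with rfl | hm
    · rw [Polynomial.coeff_zero_eq_eval_zero, Ep_eval]
      have h1 : (fun i => (xp w y i).eval 0) = fun i => ((1 + 0 : ℂ) ^ N) ^ w i * 0 := by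
        funext i
        rw [xp_eval_zero w y i, mul_zero]
      rw [h1, hp_smul w _ _ _ _ (hf j)]
      have h4 : aeval (fun _ : V => (0 : ℂ)) (f j) = constantCoeff (f j) := by
        rw [aeval_def, Algebra.algebraMap_self, eval₂_id, ← eval_zero]
        rfl
      rw [h4, hf0 j, mul_zero]
    · by_cases hmd : m ≤ 2 * N * d j
      · have h1 := h ⟨j, ⟨m - 1, by omega⟩⟩
        have h2 := aeval_EE w d f N y ⟨j, ⟨m - 1, by omega⟩⟩
        rw [aeval_def, Algebra.algebraMap_self, eval₂_id, h1] at h2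
        simp only [Nat.sub_add_cancel hm] at h2
        exact h2.symm
      · apply Polynomial.coeff_eq_zero_of_natDegree_lt
        exact lt_of_le_of_lt (Ep_degree w hf y j) (not_le.mp hmd)
  refine ⟨fun t i => (xp w y i).eval (t - 1) * t ^ (-((N * w i : ℕ) : ℤ)), ?_, ?_, ?_, ?_, ?_⟩
  · intro i
    have h1 : (fun t : ℂ => (xp w y i).eval (t - 1)) = fun t =>
        ((xp w y i).comp (Polynomial.X - 1)).eval t := by
      funext t
      rw [Polynomial.eval_comp]
      simp
    have h2 : Laur (fun t : ℂ => (xp w y i).eval (t - 1)) := by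
      rw [h1]
      exact Laur.poly _
    exact h2.mul (Laur.zpow _)
  · intro t ht j
    have h1 := Ep_eval w (f := f) (d := d) y j (t - 1)
    rw [hEp j, Polynomial.eval_zero, add_sub_cancel] at h1
    have h2 : (fun i => (xp w y i).eval (t - 1)) =
        fun i => (t ^ N) ^ w i * ((xp w y i).eval (t - 1) * t ^ (-((N * w i : ℕ) : ℤ))) := by
      funext i
      rw [zpow_neg, zpow_natCast, ← pow_mul, mul_comm ((xp w y i).eval (t - 1)), ← mul_assoc,
        mul_inv_cancel₀ (pow_ne_zero _ ht), one_mul]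
    rw [h2, hp_smul w _ _ _ _ (hf j)] at h1
    have h3 : (t ^ N) ^ d j ≠ 0 := pow_ne_zero _ (pow_ne_zero _ ht)
    have h4 := (mul_eq_zero.mp h1.symm).resolve_left h3
    rw [aeval_def, Algebra.algebraMap_self, eval₂_id] at h4
    exact h4
  · intro i
    simp only [sub_self]
    rw [xp_eval_zero, zero_mul]
  · intro i hi t
    simp only [xp_zero_of_weight y i hi, Polynomial.eval_zero, zero_mul]
  · obtain ⟨i, hi⟩ := exists_xp_ne hy
    obtain ⟨τ, hτ1, hτ2⟩ : ∃ τ : ℂ, τ ≠ -1 ∧ (xp w y i).eval τ ≠ 0 := exists_eval_ne hi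
    have h0 : τ + 1 ≠ 0 := by
      intro h
      exact hτ1 (eq_neg_of_add_eq_zero_left h)
    refine ⟨τ + 1, h0, i, ?_⟩
    simp only [add_sub_cancel_right]
    exact mul_ne_zero hτ2 (zpow_ne_zero _ h0)

/-- **Existence of Laurent curves**, main case -/
theorem hasCurve_main (hsum : ∑ i, w i = ∑ j, d j) (hr : nz d < nz w)
    (hf : ∀ j, ∀ α ∈ (f j).support, Finsupp.weight w α ≤ d j)
    (hf0 : ∀ j, constantCoeff (f j) = 0) : HasCurve w f := by
  by_contra hno
  set N := 2 ^ nz d * pd d with hN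
  have htopM : ∀ M, TopSys (aw w M) (aw d M) (tt w d f M) (tt w d f M) := by
    intro M
    refine ⟨fun i => Nat.succ_le_succ (Nat.zero_le _), fun i => Nat.succ_le_succ (Nat.zero_le _),
      tt_hom w d f M, ?_, null_of_zero _ fun y hy => tt_zero hf hf0 hno y hy⟩
    intro l α hα
    rw [sub_self] at hα
    simp at hα
  have htopE : TopSys (aw w (2 * N)) (aw d (2 * N)) (EE w d f N) (tt w d f (2 * N)) :=
    ⟨(htopM (2 * N)).ha, (htopM (2 * N)).hb, tt_hom w d f (2 * N), EE_low w d f N,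
      (htopM (2 * N)).null⟩
  have hnullE := null_of_zero (EE w d f N) fun y hy => EE_zero hf hf0 hno y hy
  have hc1 : Fintype.card (Un w (2 * N)) = Fintype.card (Un d (2 * N)) := by
    rw [card_Un, card_Un, hsum]
  have hc2 : Fintype.card (Un w N) = Fintype.card (Un d N) := by
    rw [card_Un, card_Un, hsum]
  have h1 := degree_compare hsum hf hf0 htopE hnullE (htopM N)
  have h2 := le_degree htopE hc1
  have h3 := degree_le (htopM N).ha (htopM N).hb (fun l => hom_mem_PW (tt_hom w d f N l))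
    (finiteDimensional (htopM N)) (algebraicIndependent (htopM N) hc2) hc2
  rw [prod_aw, prod_aw] at h2 h3
  set R := Module.finrank (FF (EE w d f N)) (LL ℂ (Un w (2 * N)))
  set D := Module.finrank (FF (tt w d f N)) (LL ℂ (Un w N))
  have hfac : ∀ k : ℕ, (2 * k).factorial = Nat.centralBinom k * (k.factorial) ^ 2 := by
    intro k
    rw [Nat.centralBinom_eq_two_mul_choose]
    have := Nat.choose_mul_factorial_mul_factorial (show k ≤ 2 * k by omega)
    rw [← this, show 2 * k - k = k by omega]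
    ring
  simp only [mul_assoc] at h2
  simp only [hfac] at h2
  rw [Finset.prod_mul_distrib, Finset.prod_mul_distrib, Finset.prod_pow, Finset.prod_pow] at h2
  set P1 := ∏ j, Nat.centralBinom (N * d j) with hP1
  set P2 := ∏ i, Nat.centralBinom (N * w i) with hP2
  set Q1 := ∏ j, (N * d j).factorial with hQ1
  set Q2 := ∏ i, (N * w i).factorial with hQ2
  have hQ1pos : 0 < Q1 := Finset.prod_pos fun j _ => Nat.factorial_pos _
  have h4 : P1 * Q1 ^ 2 ≤ P2 * Q1 ^ 2 := by
    calc P1 * Q1 ^ 2 ≤ R * (P2 * Q2 ^ 2) := h2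
      _ ≤ D ^ 2 * (P2 * Q2 ^ 2) := Nat.mul_le_mul_right _ h1
      _ = P2 * (D * Q2) ^ 2 := by ring
      _ ≤ P2 * Q1 ^ 2 := Nat.mul_le_mul_left _ (Nat.pow_le_pow_left h3 2)
  have h5 := Nat.le_of_mul_le_mul_right h4 (by positivity)
  exact numeric w d hsum hr N (le_of_eq hN.symm) h5

end

end Pool.Agent.W235.CY
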