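import Mathlib
import Pool.Agent.W235.CY.Exist
import Pool.Agent.H952R2.Sextic.CommonZero

/-!
Existence of Laurent curves through a given point, all cases.
-/

set_option autoImplicit false
set_option linter.unusedSectionVars false

namespace Pool.Agent.W235.CY

open MvPolynomial Finset

section numeric

variable {V ι : Type} [Fintype V] [Fintype ι] (w : V → ℕ) (d : ι → ℕ)

/-- the number of times a value is taken -/
noncomputable def mult {V : Type} [Fintype V] (w : V → ℕ) (v : ℕ) : ℕ :=
  (univ.filter fun i => w i = v).card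

theorem sum_eq_mult {V : Type} [Fintype V] (w : V → ℕ) (B : ℕ) (hB : ∀ i, w i < B) (k : ℕ → ℤ) :
    ∑ i, k (w i) = ∑ u ∈ range B, k u * mult w u := by
  classical
  have h1 : ∀ i, k (w i) = ∑ u ∈ range B, if w i = u then k u else 0 := by
    intro i
    rw [Finset.sum_ite_eq, if_pos (mem_range.mpr (hB i))]
  calc ∑ i, k (w i) = ∑ i, ∑ u ∈ range B, (if w i = u then k u else 0) :=
        Finset.sum_congr rfl fun i _ => h1 i
    _ = ∑ u ∈ range B, ∑ i, (if w i = u then k u else 0) := Finset.sum_comm
    _ = _ := by
        refine Finset.sum_congr rfl fun u _ => ?_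
        rw [← Finset.sum_filter, Finset.sum_const, mult, nsmul_eq_mul, mul_comm]

theorem sum_ind {V : Type} [Fintype V] (w : V → ℕ) (v : ℕ) :
    ∑ i, (if w i = v then (1 : ℤ) else 0) = mult w v := by
  classical
  rw [← Finset.sum_filter, Finset.sum_const, mult, nsmul_eq_mul, mul_one]

theorem sum_nz {V : Type} [Fintype V] (w : V → ℕ) :
    ∑ i, (if w i = 0 then (0 : ℤ) else 1) = nz w := by
  classical
  have : ∀ i, (if w i = 0 then (0 : ℤ) else 1) = if w i ≠ 0 then 1 else 0 := by
    intro i
    split_ifs <;> simp_all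
  rw [Finset.sum_congr rfl fun i _ => this i, ← Finset.sum_filter, Finset.sum_const, nz,
    nsmul_eq_mul, mul_one]

theorem exists_bound : ∃ B : ℕ, (∀ i, w i < B) ∧ ∀ j, d j < B := by
  refine ⟨∑ i, w i + ∑ j, d j + 1, fun i => ?_, fun j => ?_⟩
  · have := Finset.single_le_sum (f := w) (fun i _ => Nat.zero_le _) (mem_univ i)
    omega
  · have := Finset.single_le_sum (f := d) (fun i _ => Nat.zero_le _) (mem_univ j)
    omega

variable {w d} in
/-- functions which agree up to `v` have the same sums -/
theorem sum_sub_congr {v : ℕ} (hv : ∀ u, v < u → mult w u = mult d u) (g h : ℕ → ℤ)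
    (hgh : ∀ u, u ≤ v → g u = h u) :
    ∑ i, g (w i) - ∑ j, g (d j) = ∑ i, h (w i) - ∑ j, h (d j) := by
  obtain ⟨B, hB1, hB2⟩ := exists_bound w d
  have h1 : ∑ i, (g (w i) - h (w i)) = ∑ j, (g (d j) - h (d j)) := by
    have e1 := sum_eq_mult w B hB1 (fun u => g u - h u)
    have e2 := sum_eq_mult d B hB2 (fun u => g u - h u)
    rw [e1, e2]
    refine Finset.sum_congr rfl fun u _ => ?_
    by_cases hu : u ≤ v
    · rw [hgh u hu]; ring
    · rw [hv u (not_le.mp hu)]
  rw [Finset.sum_sub_distrib, Finset.sum_sub_distrib] at h1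
  linarith

theorem numer_cases (hle : ∑ j, d j ≤ ∑ i, w i) (hne : ∃ v, 1 ≤ v ∧ mult w v ≠ mult d v) :
    (∃ P Q : ℕ, 1 ≤ Q ∧ ∑ j, P * d j / Q < ∑ i, P * w i / Q) ∨
      (∑ i, w i = ∑ j, d j ∧ nz d < nz w) := by
  classical
  by_cases h1 : ∑ j, d j < ∑ i, w i
  · left
    exact ⟨1, 1, le_rfl, by simpa using h1⟩
  have heq : ∑ i, w i = ∑ j, d j := le_antisymm (not_lt.mp h1) hle
  by_cases h2 : nz d < nz w
  · exact Or.inr ⟨heq, h2⟩
  left
  obtain ⟨B, hB1, hB2⟩ := exists_bound w d
  have hlt : ∀ (P Q : ℕ), (0 : ℤ) < ∑ i, ((P * w i / Q : ℕ) : ℤ) - ∑ j, ((P * d j / Q : ℕ) : ℤ) →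
      ∑ j, P * d j / Q < ∑ i, P * w i / Q := by
    intro P Q h
    have : (((∑ j, P * d j / Q : ℕ)) : ℤ) < ((∑ i, P * w i / Q : ℕ) : ℤ) := by
      push_cast at h ⊢
      linarith
    exact_mod_cast this
  have heqZ : ∑ i, (w i : ℤ) = ∑ j, (d j : ℤ) := by exact_mod_cast heq
  have hnzw := sum_nz w
  have hnzd := sum_nz d
  by_cases h3 : nz w < nz d
  · -- more equations than variables
    have hB0 : 1 ≤ B := by
      obtain ⟨v, hv1, hv2⟩ := hne
      by_contra hB
      have hB' : B = 0 := by omega
      have e1 : mult w v = 0 := by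
        unfold mult
        rw [Finset.card_eq_zero, Finset.filter_eq_empty_iff]
        intro i _
        have := hB1 i
        omega
      have e2 : mult d v = 0 := by
        unfold mult
        rw [Finset.card_eq_zero, Finset.filter_eq_empty_iff]
        intro i _
        have := hB2 i
        omega
      exact hv2 (e1.trans e2.symm)
    refine ⟨B - 1, B, hB0, hlt _ _ ?_⟩
    have hfl : ∀ u, u < B → (((B - 1) * u / B : ℕ) : ℤ) = (u : ℤ) - (if u = 0 then 0 else 1) := by
      intro u hu
      split_ifs with h
      · rw [h]; simp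
      · have hu1 : 1 ≤ u := by omega
        have : (B - 1) * u / B = u - 1 := by
          have hB2 : (B - 1) * u = B * (u - 1) + (B - u) := by
            obtain ⟨b, rfl⟩ : ∃ b, B = b + 1 := ⟨B - 1, by omega⟩
            obtain ⟨c, rfl⟩ : ∃ c, u = c + 1 := ⟨u - 1, by omega⟩
            have hc : b + 1 - (c + 1) + c = b := by omega
            simp only [Nat.add_sub_cancel]
            calc b * (c + 1) = b * c + b := by ring
              _ = b * c + (b + 1 - (c + 1) + c) := by rw [hc]
              _ = _ := by ring
          rw [hB2, Nat.mul_add_div (by omega), Nat.div_eq_of_lt (by omega), add_zero]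
        rw [this]
        push_cast [hu1]
        ring
    rw [Finset.sum_congr rfl fun i _ => hfl (w i) (hB1 i),
      Finset.sum_congr rfl fun j _ => hfl (d j) (hB2 j), Finset.sum_sub_distrib,
      Finset.sum_sub_distrib, hnzw, hnzd, heqZ]
    have : (nz w : ℤ) < nz d := by exact_mod_cast h3
    linarith
  have hnz : nz w = nz d := le_antisymm (not_lt.mp h2) (not_lt.mp h3)
  -- the largest value with different multiplicities
  obtain ⟨v, hv1, hv2, hv3⟩ : ∃ v, 1 ≤ v ∧ mult w v ≠ mult d v ∧
      ∀ u, v < u → mult w u = mult d u := by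
    let T := (range B).filter fun u => 1 ≤ u ∧ mult w u ≠ mult d u
    have hbig : ∀ u, B ≤ u → mult w u = mult d u := by
      intro u hu
      have e1 : mult w u = 0 := by
        unfold mult
        rw [Finset.card_eq_zero, Finset.filter_eq_empty_iff]
        intro i _
        have := hB1 i
        omega
      have e2 : mult d u = 0 := by
        unfold mult
        rw [Finset.card_eq_zero, Finset.filter_eq_empty_iff]
        intro i _
        have := hB2 i
        omega
      exact e1.trans e2.symm
    have hT : ∀ u, 1 ≤ u → mult w u ≠ mult d u → u ∈ T := by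
      intro u hu1 hu2
      refine mem_filter.mpr ⟨mem_range.mpr ?_, hu1, hu2⟩
      by_contra h
      exact hu2 (hbig u (not_lt.mp h))
    have hTn : T.Nonempty := by
      obtain ⟨v, hv1, hv2⟩ := hne
      exact ⟨v, hT v hv1 hv2⟩
    have hmem := (mem_filter.mp (T.max'_mem hTn)).2
    refine ⟨T.max' hTn, hmem.1, hmem.2, fun u hu => ?_⟩
    by_contra h
    exact absurd (T.le_max' u (hT u (by omega) h)) (not_le.mpr hu)
  rcases lt_or_gt_of_ne hv2 with hlt2 | hgt2
  · -- more equations of the largest degree
    have hv : 2 ≤ v := by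
      by_contra hv'
      have hv'' : v = 1 := by omega
      have h4 := sum_sub_congr (w := w) (d := d) (v := v) hv3
        (fun u => if u = 0 then (0 : ℤ) else 1) (fun u => if u = v then (1 : ℤ) else 0) (by
          intro u hu
          rcases (by omega : u = 0 ∨ u = 1) with rfl | rfl
          · simp [hv'']
          · simp [hv''])
      rw [sum_nz, sum_nz, sum_ind, sum_ind, hnz] at h4
      have : (mult w v : ℤ) < mult d v := by exact_mod_cast hlt2
      linarith
    refine ⟨v * v - v - 1, v * v, by nlinarith, hlt _ _ ?_⟩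
    have h4 := sum_sub_congr (w := w) (d := d) (v := v) hv3
        (fun u => (((v * v - v - 1) * u / (v * v) : ℕ) : ℤ))
        (fun u => (u : ℤ) - (if u = 0 then (0 : ℤ) else 1) - (if u = v then (1 : ℤ) else 0)) (by
          intro u hu
          obtain ⟨e, he⟩ : ∃ e, v = e + 2 := ⟨v - 2, by omega⟩
          have hP : v * v - v - 1 = e * e + 3 * e + 1 := by
            rw [he]
            have : (e + 2) * (e + 2) = e * e + 3 * e + 1 + 1 + (e + 2) := by ring
            omega
          rcases Nat.eq_zero_or_pos u with rfl | hu0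
          · have : (0 : ℕ) ≠ v := by omega
            simp [this]
          · rw [if_neg (by omega)]
            by_cases huv : u = v
            · have h5 : (v * v - v - 1) * u / (v * v) = v - 2 := by
                rw [hP, huv, he]
                have : (e * e + 3 * e + 1) * (e + 2) = (e + 2) * (e + 2) * e + (e * e + 3 * e + 2) := by
                  ring
                rw [this, Nat.mul_add_div (by positivity), Nat.div_eq_of_lt (by nlinarith)]
                omega
              rw [h5, if_pos huv, huv]
              push_cast [hv]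
              ring
            · rw [if_neg huv]
              have hlt' : u < v := lt_of_le_of_ne hu huv
              have h5 : (v * v - v - 1) * u / (v * v) = u - 1 := by
                rw [hP, he]
                obtain ⟨c, rfl⟩ : ∃ c, u = c + 1 := ⟨u - 1, by omega⟩
                obtain ⟨a, ha⟩ : ∃ a, e = c + a := ⟨e - c, by omega⟩
                have h6 : (e * e + 3 * e + 1) * (c + 1) = (e + 2) * (e + 2) * c +
                    ((e * e + 3 * e + 1) - (e + 3) * c) := by
                  have h7 : (e + 3) * c ≤ e * e + 3 * e + 1 := by nlinarith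
                  obtain ⟨r, hr⟩ := Nat.exists_eq_add_of_le h7
                  rw [hr, Nat.add_sub_cancel_left]
                  nlinarith
                have h8 : (e * e + 3 * e + 1) - (e + 3) * c < (e + 2) * (e + 2) := by
                  apply lt_of_le_of_lt (Nat.sub_le _ _)
                  nlinarith
                rw [h6, Nat.mul_add_div (by positivity), Nat.div_eq_of_lt h8]
                omega
              rw [h5]
              push_cast [hu0]
              ring)
    rw [h4]
    simp only [Finset.sum_sub_distrib]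
    rw [sum_nz, sum_nz, sum_ind, sum_ind, hnz, heqZ]
    have : (mult w v : ℤ) < mult d v := by exact_mod_cast hlt2
    linarith
  · -- more variables of the largest weight
    refine ⟨1, v, hv1, hlt _ _ ?_⟩
    have h4 := sum_sub_congr (w := w) (d := d) (v := v) hv3
        (fun u => ((1 * u / v : ℕ) : ℤ)) (fun u => (if u = v then (1 : ℤ) else 0)) (by
          intro u hu
          by_cases huv : u = v
          · simp only [huv, one_mul, if_true]
            rw [Nat.div_self hv1]
            simp
          · simp only [if_neg huv, one_mul]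
            rw [Nat.div_eq_of_lt (lt_of_le_of_ne hu huv)]
            simp)
    rw [h4, sum_ind, sum_ind]
    have : (mult d v : ℤ) < mult w v := by exact_mod_cast hgt2
    linarith

end numeric

section

variable {V ι : Type} [Fintype V] [Fintype ι] {w : V → ℕ} {d : ι → ℕ}
  {f : ι → MvPolynomial V ℂ}

/-- polynomial curves, if there are more coefficients than equations -/
theorem hasCurve_of_lt (hlt : ∑ j, d j < ∑ i, w i)
    (hf : ∀ j, ∀ α ∈ (f j).support, Finsupp.weight w α ≤ d j)
    (hf0 : ∀ j, constantCoeff (f j) = 0) : HasCurve w f := by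
  by_contra hno
  obtain ⟨y, hy0, hy⟩ := H952R2.Sextic.exists_common_zero (K := ℂ) (ι := Un w 1) (κ := Un d 1)
    (by rw [card_Un, card_Un]; omega) (tt w d f 1) (by
      intro x
      have h1 : eval 0 (tt w d f 1 x) = constantCoeff (tt w d f 1 x) := by
        rw [← eval_zero]
      rw [h1, constantCoeff_eq]
      by_contra h2
      have h3 := tt_hom w d f 1 x h2
      rw [map_zero] at h3
      have : 1 ≤ aw d 1 x := Nat.succ_le_succ (Nat.zero_le _)
      omega)
  exact hy0 (tt_zero hf hf0 hno y hy)

theorem HasCurve.mono {w w' : V → ℕ} (h : HasCurve w' f) (hw : ∀ i, w i = 0 → w' i = 0) :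
    HasCurve w f := by
  obtain ⟨v, h1, h2, h3, h4, h5⟩ := h
  exact ⟨v, h1, h2, h3, fun i hi => h4 i (hw i hi), h5⟩

theorem hasCurve_floor (P Q : ℕ) (hQ : 1 ≤ Q) (hlt : ∑ j, P * d j / Q < ∑ i, P * w i / Q)
    (hf : ∀ j, ∀ α ∈ (f j).support, Finsupp.weight w α ≤ d j)
    (hf0 : ∀ j, constantCoeff (f j) = 0) : HasCurve w f := by
  refine (hasCurve_of_lt (w := fun i => P * w i / Q) (d := fun j => P * d j / Q) hlt ?_ hf0).mono ?_
  · intro j α hα
    have h1 := hf j α hα
    rw [weight_eq] at h1 ⊢
    rw [Nat.le_div_iff_mul_le hQ, Finset.sum_mul]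
    calc ∑ i, P * w i / Q * α i * Q ≤ ∑ i, P * (w i * α i) := by
          apply Finset.sum_le_sum
          intro i _
          calc P * w i / Q * α i * Q = (P * w i / Q * Q) * α i := by ring
            _ ≤ (P * w i) * α i := Nat.mul_le_mul_right _ (Nat.div_mul_le_self _ _)
            _ = _ := by ring
      _ = P * ∑ i, w i * α i := by rw [Finset.mul_sum]
      _ ≤ P * d j := Nat.mul_le_mul_left _ h1
  · intro i hi
    simp only [hi, mul_zero, Nat.zero_div]

/-- **Existence of Laurent curves** through the origin, all cases -/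
theorem hasCurve (hle : ∑ j, d j ≤ ∑ i, w i) (hne : ∃ v, 1 ≤ v ∧ mult w v ≠ mult d v)
    (hf : ∀ j, ∀ α ∈ (f j).support, Finsupp.weight w α ≤ d j)
    (hf0 : ∀ j, constantCoeff (f j) = 0) : HasCurve w f := by
  rcases numer_cases w d hle hne with ⟨P, Q, hQ, hlt⟩ | ⟨h1, h2⟩
  · exact hasCurve_floor P Q hQ hlt hf hf0
  · exact hasCurve_main h1 h2 hf hf0

end

end Pool.Agent.W235.CY
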