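import Mathlib
import Pool.Agent.W235.CY.Easy
import Pool.Agent.W235.RM.Final
import Pool.Agent.H734R3.AF.BLV

/-!
Laurent curves through every point of affine varieties of nonpositive weighted log canonical degree,
and the equivalence between entire curves and integral points.
-/

set_option autoImplicit false
set_option linter.unusedSectionVars false

namespace Pool.Agent.W235.CY

open MvPolynomial Finset
open Pool.Agent.H159R3.Exp (Laur FinitelyManyIntegral ExpCurvesIn)
open Pool.Agent.W235.RM (EntireCurvesIn GmCurvesIn)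
open scoped NumberField

section

variable {V : Type} [Fintype V] {w : V → ℕ}

theorem X_add_C_mem (w : V → ℕ) (p : V → ℂ) (i : V) :
    (X i + C (p i) : MvPolynomial V ℂ) ∈ PW ℂ w (w i) := by
  apply Submodule.add_mem
  · apply monomial_mem_PW
    rw [Finsupp.weight_apply, Finsupp.sum_single_index (by simp)]
    simp
  · apply monomial_mem_PW
    rw [map_zero]
    exact Nat.zero_le _

theorem pow_mem_PW {a : V → ℕ} {m : ℕ} {q : MvPolynomial V ℂ} (hq : q ∈ PW ℂ a m) (e : ℕ) :
    q ^ e ∈ PW ℂ a (m * e) := by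
  induction e with
  | zero =>
    rw [pow_zero, mul_zero]
    apply monomial_mem_PW
    rw [map_zero]
  | succ e ih =>
    rw [pow_succ, mul_add, mul_one]
    exact PW_mul ih hq

theorem prod_mem_PW {a : V → ℕ} {κ : Type} (s : Finset κ) (q : κ → MvPolynomial V ℂ) (m : κ → ℕ)
    (h : ∀ i, q i ∈ PW ℂ a (m i)) : ∏ i ∈ s, q i ∈ PW ℂ a (∑ i ∈ s, m i) := by
  classical
  induction s using Finset.induction_on with
  | empty =>
    rw [Finset.prod_empty, Finset.sum_empty]
    apply monomial_mem_PW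
    rw [map_zero]
  | insert i s hi ih =>
    rw [Finset.prod_insert hi, Finset.sum_insert hi]
    exact PW_mul (h i) ih

/-- translation -/
noncomputable def tr (p : V → ℂ) (F : MvPolynomial V ℂ) : MvPolynomial V ℂ :=
  aeval (fun i => (X i + C (p i) : MvPolynomial V ℂ)) F

theorem eval_tr (p x : V → ℂ) (F : MvPolynomial V ℂ) :
    eval x (tr p F) = eval (fun i => x i + p i) F := by
  unfold tr
  have h1 : (aeval x : MvPolynomial V ℂ →ₐ[ℂ] ℂ).comp
      (aeval (fun i => (X i + C (p i) : MvPolynomial V ℂ))) = aeval (fun i => x i + p i) := by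
    apply MvPolynomial.algHom_ext
    intro i
    simp
  have h2 := DFunLike.congr_fun h1 F
  rw [AlgHom.comp_apply, aeval_def, Algebra.algebraMap_self, eval₂_id,
    aeval_def (fun i => x i + p i), Algebra.algebraMap_self, eval₂_id] at h2
  exact h2

theorem tr_mem_PW (p : V → ℂ) {F : MvPolynomial V ℂ} {D : ℕ} (hF : F ∈ PW ℂ w D) :
    tr p F ∈ PW ℂ w D := by
  rw [mem_PW] at hF
  unfold tr
  rw [aeval_eq_sum']
  apply Submodule.sum_mem
  intro α hα
  apply PW_mono (hF α hα)
  have h1 : ∏ i, (X i + C (p i) : MvPolynomial V ℂ) ^ α i ∈ PW ℂ w (Finsupp.weight w α) := by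
    rw [weight_eq]
    exact prod_mem_PW _ _ _ fun i => pow_mem_PW (X_add_C_mem w p i) _
  have h2 : algebraMap ℂ (MvPolynomial V ℂ) (coeff α F) *
      ∏ i, (X i + C (p i) : MvPolynomial V ℂ) ^ α i =
      coeff α F • ∏ i, (X i + C (p i) : MvPolynomial V ℂ) ^ α i := by
    rw [Algebra.smul_def]
  rw [h2]
  exact Submodule.smul_mem _ _ h1

/-- **Laurent curves through every point** -/
theorem exists_laurent {ι : Type} [Fintype ι] {d : ι → ℕ} (hle : ∑ j, d j ≤ ∑ i, w i)
    (hne : ∃ v, 1 ≤ v ∧ mult w v ≠ mult d v) (f : ι → MvPolynomial V ℂ)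
    (hf : ∀ j, ∀ α ∈ (f j).support, ∑ i, w i * α i ≤ d j) (p : V → ℂ)
    (hp : ∀ j, eval p (f j) = 0) :
    ∃ v : ℂ → V → ℂ, (∀ i, Laur fun t => v t i) ∧ (∀ t, t ≠ 0 → ∀ j, eval (v t) (f j) = 0) ∧
      v 1 = p ∧ (∀ i, w i = 0 → ∀ t, v t i = p i) ∧ ∃ t, t ≠ 0 ∧ v t ≠ p := by
  obtain ⟨v, h1, h2, h3, h4, t, ht, i, h5⟩ := hasCurve (w := w) (d := d)
    (f := fun j => tr p (f j)) hle hne (by
      intro j
      rw [← mem_PW]
      apply tr_mem_PW
      rw [mem_PW]
      intro α hα
      rw [weight_eq]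
      exact hf j α hα) (by
      intro j
      have e1 : constantCoeff (tr p (f j)) = eval 0 (tr p (f j)) := by rw [← eval_zero]
      rw [e1, eval_tr]
      simp only [Pi.zero_apply, zero_add]
      exact hp j)
  refine ⟨fun t i => v t i + p i, fun i => (h1 i).add (Laur.const _), ?_, ?_, ?_, t, ht, ?_⟩
  · intro t ht j
    rw [← eval_tr]
    exact h2 t ht j
  · funext i
    simp only [h3 i, zero_add]
  · intro i hi t
    simp only [h4 i hi t, zero_add]
  · intro h
    apply h5
    have := congrFun h i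
    simpa using this

end

section

variable {K : Type} [Field K] [NumberField K] (σ : K →+* ℂ) {n : ℕ} {ι κ : Type} [Fintype ι]

/-- **the equivalence** -/
theorem blv {w : Fin n → ℕ} {d : ι → ℕ} (hle : ∑ j, d j ≤ ∑ i, w i)
    (hne : ∃ v, 1 ≤ v ∧ mult w v ≠ mult d v) (F : ι → MvPolynomial (Fin n) (𝓞 K))
    (hF : ∀ j, ∀ α ∈ (F j).support, ∑ i, w i * α i ≤ d j) (G : κ → MvPolynomial (Fin n) (𝓞 K)) :
    (EntireCurvesIn σ F G ↔ FinitelyManyIntegral F G) ∧
    (EntireCurvesIn σ F G ↔ ∀ x : Fin n → ℂ,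
      (∀ j, eval₂ (σ.comp (algebraMap (𝓞 K) K)) x (F j) = 0) →
      ∀ l, eval₂ (σ.comp (algebraMap (𝓞 K) K)) x (G l) = 0) := by
  set φ : 𝓞 K →+* ℂ := σ.comp (algebraMap (𝓞 K) K) with hφ
  have hgm : ExpCurvesIn σ F G → ∀ x : Fin n → ℂ, (∀ j, eval₂ φ x (F j) = 0) →
      ∀ l, eval₂ φ x (G l) = 0 := by
    intro hexp p hp l
    by_contra hl
    obtain ⟨v, h1, h2, h3, _, t, ht, h5⟩ := exists_laurent (w := w) (d := d) hle hne
      (fun j => map φ (F j)) (fun j α hα => hF j α (support_map_subset _ _ hα)) p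
      (fun j => by rw [eval_map]; exact hp j)
    refine Pool.Agent.W235.RM.not_exp_of_not_gm σ F G ?_ hexp
    intro hG
    have h6 := hG v h1 (fun j s hs => by
      have := h2 s hs j
      rwa [eval_map] at this) ⟨t, 1, ht, one_ne_zero, by rw [h3]; exact h5⟩ l 1 one_ne_zero
    rw [h3] at h6
    exact hl h6
  refine ⟨⟨fun h => ?_, fun h => ?_⟩, ⟨fun h => ?_, fun h => ?_⟩⟩
  · exact Pool.Agent.H734R3.AF.finite_of_subset σ F G
      (hgm (Pool.Agent.W235.RM.exp_of_entire σ F G h))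
  · intro f _ hf _ z l
    exact hgm (Pool.Agent.H159R3.Exp.main F G h σ) (f z) (fun j => hf z j) l
  · exact hgm (Pool.Agent.W235.RM.exp_of_entire σ F G h)
  · intro f _ hf _ z l
    exact h (f z) (fun j => hf z j) l

end

end Pool.Agent.W235.CY
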